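import Pool.Agent.H390R2.LP.Iface

/-! Master inequality (finite, general weights) and weighted product theorem as `Prop`s. -/

open Finset

namespace Pool.Agent.H390R2.LP

/-- Master inequality. Blocks `v : V` with weights `W v x` (`∑ v, W v x ^ 2 = 1`), position functions
`F v i : X → ℝ` (possibly depending on the block), first and second averages `Fb`, `m2`.
`u j`, `t j` : eigenvectors and eigenvalues of the positive matrix `T`. `w c` : adapted basis. -/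
def Master : Prop :=
  ∀ (Ω X V I J : Type) [Fintype Ω] [DecidableEq Ω] [Fintype X] [DecidableEq X] [Fintype V]
    [DecidableEq V] [Fintype I] [Fintype J] [DecidableEq J]
    (pos : Ω → X) (W : V → X → ℝ) (F : V → I → X → ℝ) (Fb m2 : I → X → ℝ) (d : ℝ)
    (u : J → Ω → ℝ) (t : J → ℝ) (w : Ω → Ω → ℝ) (lab : Ω → X) (good : V → Ω → Prop)
    [∀ v, DecidablePred (good v)] (κ : V → ℝ) (η : ℝ),
    0 ≤ d → (∀ v x, 0 ≤ W v x) → (∀ x, ∑ v, W v x ^ 2 = 1) →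
    (∀ i x, ∑ v, W v x ^ 2 * F v i x = Fb i x) →
    (∀ i x, ∑ v, W v x ^ 2 * F v i x ^ 2 ≤ m2 i x) →
    (∀ v x y, W v x ≠ 0 → W v y ≠ 0 → x ≠ y → d ≤ ∑ i, (F v i x - F v i y) ^ 2) →
    (∀ j l, ∑ ω, u j ω * u l ω = if j = l then 1 else 0) → (∀ j, 0 ≤ t j) →
    (∀ a b, ∑ ω, w a ω * w b ω = if a = b then 1 else 0) →
    (∀ c ω, pos ω ≠ lab c → w c ω = 0) → (∀ v, 0 ≤ κ v) →
    (∀ v x (α : Ω → ℝ), (∀ c, α c ≠ 0 → good v c ∧ lab c = x) →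
      W v x ^ 2 * ∑ j, t j ^ 2 * (∑ ω, u j ω * ∑ c, α c * w c ω) ^ 2 ≤ κ v ^ 2 * ∑ c, α c ^ 2) →
    (∑ v, ∑ c ∈ univ.filter (fun c => ¬ good v c), W v (lab c) ^ 2 *
      ∑ j, t j ^ 2 * (∑ ω, u j ω * w c ω) ^ 2 ≤ η) →
    d * (∑ j, t j ^ 2 - √(∑ v, κ v ^ 2) * ∑ j, t j - η) ≤
      2 * ∑ i, (∑ j, t j ^ 2 * ∑ ω, u j ω ^ 2 * m2 i (pos ω)
        - ∑ j, ∑ l, t j * t l * (∑ ω, u j ω * Fb i (pos ω) * u l ω) ^ 2)

variable {Ω X : Type} [Fintype Ω] [DecidableEq Ω]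

/-- position distribution of the one-site state -/
noncomputable def Site.P [DecidableEq X] (s : Site Ω X) (x : X) : ℝ :=
  ∑ c ∈ univ.filter (fun c => s.lab c = x), s.g c

/-- Weighted product theorem (random subsets of the product space, with deficits): `wt S` is the
weight of the subset `S`. -/
def IIDw : Prop :=
  ∀ (Ω X I : Type) [Fintype Ω] [DecidableEq Ω] [Fintype X] [DecidableEq X] [Fintype I]
    (s : Site Ω X) (f : I → X → ℝ) (ε : ℝ), 0 < ε → ∃ n0 : ℕ, ∀ n ≥ n0,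
    ∀ (wt : Finset (Fin n → X) → ℝ) (d : ℝ), 0 ≤ d → (∀ S, 0 ≤ wt S) →
    (∀ x, ∑ S ∈ univ.filter (fun S : Finset (Fin n → X) => x ∈ S), wt S ≤ 1) →
    (∀ S, wt S ≠ 0 → ∀ x ∈ S, ∀ y ∈ S, x ≠ y → d ≤ ∑ k, ∑ i, (f i (x k) - f i (y k)) ^ 2) →
    ∑ S, wt S ≤ Real.exp (n * (s.h - s.S - ε)) →
    d * (1 - ε - ∑ x : Fin n → X, (∏ k, s.P (x k)) *
      (1 - ∑ S ∈ univ.filter (fun S : Finset (Fin n → X) => x ∈ S), wt S)) ≤ n * (s.E f + ε)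

end Pool.Agent.H390R2.LP
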