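import Pool.Agent.H390R2.LP.Dbound
import Pool.Agent.H390R2.LP.Iface2

/-! Proof of the master inequality. -/

open Finset

namespace Pool.Agent.H390R2.LP

section
variable {J Ω X V : Type} [Fintype J] [Fintype Ω] [DecidableEq J] [DecidableEq Ω] [Fintype X]
  [DecidableEq X] [Fintype V] [DecidableEq V]

lemma recon (e : Ω → Ω → ℝ) (he : ∀ m m', ∑ ω, e m ω * e m' ω = if m = m' then 1 else 0)
    (f : Ω → ℝ) (ω : Ω) : ∑ m, (∑ ω', f ω' * e m ω') * e m ω = f ω := by
  have h1 : ∀ m, (∑ ω', f ω' * e m ω') * e m ω = ∑ ω', f ω' * (e m ω' * e m ω) := by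
    intro m; rw [Finset.sum_mul]; exact Finset.sum_congr rfl fun _ _ => by ring
  simp only [h1]
  rw [Finset.sum_comm]
  simp only [← Finset.mul_sum, complete_of_orth e he]
  simp

lemma expandT (e : Ω → Ω → ℝ) (b : Ω → ℝ) (F : Ω → ℝ) :
    ∑ m, ∑ m', b m * b m' * (∑ ω, e m ω * F ω * e m' ω) ^ 2 =
      ∑ ω, ∑ ω', TT e b ω ω' ^ 2 * (F ω * F ω') := by
  have h1 : ∀ m m', b m * b m' * (∑ ω, e m ω * F ω * e m' ω) ^ 2 =
      ∑ ω, ∑ ω', (b m * e m ω * e m ω') * (b m' * e m' ω * e m' ω') * (F ω * F ω') := by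
    intro m m'
    rw [sq, Finset.sum_mul_sum, Finset.mul_sum]
    refine Finset.sum_congr rfl fun ω _ => ?_
    rw [Finset.mul_sum]
    exact Finset.sum_congr rfl fun ω' _ => by ring
  simp only [h1]
  have h2 : ∀ ω ω', TT e b ω ω' ^ 2 * (F ω * F ω') =
      ∑ m, ∑ m', (b m * e m ω * e m ω') * (b m' * e m' ω * e m' ω') * (F ω * F ω') := by
    intro ω ω'
    rw [sq, TT, Finset.sum_mul_sum, Finset.sum_mul]
    refine Finset.sum_congr rfl fun m _ => ?_
    rw [Finset.sum_mul]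
  simp only [h2]
  have e1 : ∀ g : Ω → Ω → Ω → Ω → ℝ, ∑ m, ∑ m', ∑ ω, ∑ ω', g m m' ω ω' =
      ∑ ω, ∑ ω', ∑ m, ∑ m', g m m' ω ω' := by
    intro g
    calc ∑ m, ∑ m', ∑ ω, ∑ ω', g m m' ω ω'
        = ∑ m, ∑ ω, ∑ m', ∑ ω', g m m' ω ω' :=
          Finset.sum_congr rfl fun m _ => Finset.sum_comm
      _ = ∑ ω, ∑ m, ∑ m', ∑ ω', g m m' ω ω' := Finset.sum_comm
      _ = ∑ ω, ∑ m, ∑ ω', ∑ m', g m m' ω ω' :=
          Finset.sum_congr rfl fun ω _ => Finset.sum_congr rfl fun m _ => Finset.sum_comm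
      _ = ∑ ω, ∑ ω', ∑ m, ∑ m', g m m' ω ω' :=
          Finset.sum_congr rfl fun ω _ => Finset.sum_comm
  exact e1 _

/-- Wigner–Yanase step -/
lemma wy_step (pos : Ω → X) (W : V → X → ℝ) (F : V → X → ℝ) (Fb : X → ℝ)
    (u : J → Ω → ℝ) (t : J → ℝ) (ht : ∀ j, 0 ≤ t j)
    (hW : ∀ x, ∑ v, W v x ^ 2 = 1) (hF : ∀ x, ∑ v, W v x ^ 2 * F v x = Fb x)
    (hu : ∀ j l, ∑ ω, u j ω * u l ω = if j = l then 1 else 0)
    (e : V → Ω → Ω → ℝ) (b : V → Ω → ℝ) (hb : ∀ v m, 0 ≤ b v m)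
    (he : ∀ v m m', ∑ ω, e v m ω * e v m' ω = if m = m' then 1 else 0)
    (hd : ∀ v m m', ∑ j, t j ^ 2 * ((∑ ω, W v (pos ω) * u j ω * e v m ω) *
      (∑ ω, W v (pos ω) * u j ω * e v m' ω)) = if m = m' then b v m ^ 2 else 0) :
    ∑ j, ∑ l, t j * t l * (∑ ω, u j ω * Fb (pos ω) * u l ω) ^ 2 ≤
      ∑ v, ∑ ω, ∑ ω', TT (e v) (b v) ω ω' ^ 2 * (F v (pos ω) * F v (pos ω')) := by
  set c : J → V × Ω → ℝ := fun j k => ∑ ω, W k.1 (pos ω) * u j ω * e k.1 k.2 ω with hc
  set Z : V × Ω → V × Ω → ℝ := fun k k' => if k.1 = k'.1 then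
    ∑ ω, e k.1 k.2 ω * F k.1 (pos ω) * e k.1 k'.2 ω else 0 with hZ
  have h1 := wy (κ := V × Ω) c ?_ t ht (fun k => b k.1 k.2) (fun k => hb k.1 k.2) Prod.fst ?_ Z ?_
  · refine le_trans (le_of_eq ?_) (h1.trans (le_of_eq ?_))
    · refine Finset.sum_congr rfl fun j _ => Finset.sum_congr rfl fun l _ => ?_
      congr 2
      rw [Fintype.sum_prod_type]
      have h2 : ∀ v m, ∑ k', c j (v, m) * Z (v, m) k' * c l k' =
          ∑ m', c j (v, m) * (∑ ω, e v m ω * F v (pos ω) * e v m' ω) * c l (v, m') := by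
        intro v m
        rw [Fintype.sum_prod_type, Finset.sum_eq_single v]
        · simp [hZ]
        · intro v' _ hv
          refine Finset.sum_eq_zero fun m' _ => ?_
          simp only [hZ]
          rw [if_neg (Ne.symm hv), mul_zero, zero_mul]
        · intro h; exact absurd (Finset.mem_univ v) h
      simp only [h2]
      have h3 : ∀ v, ∑ m, ∑ m', c j (v, m) * (∑ ω, e v m ω * F v (pos ω) * e v m' ω) *
          c l (v, m') = ∑ ω, F v (pos ω) * (W v (pos ω) * u j ω) * (W v (pos ω) * u l ω) := by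
        intro v
        have h4 : ∀ ω, F v (pos ω) * (W v (pos ω) * u j ω) * (W v (pos ω) * u l ω) =
            ∑ m, ∑ m', F v (pos ω) * (c j (v, m) * e v m ω) * (c l (v, m') * e v m' ω) := by
          intro ω
          have r1 := recon (e v) (he v) (fun ω => W v (pos ω) * u j ω) ω
          have r2 := recon (e v) (he v) (fun ω => W v (pos ω) * u l ω) ω
          have r1' : ∑ m, c j (v, m) * e v m ω = W v (pos ω) * u j ω := r1
          have r2' : ∑ m, c l (v, m) * e v m ω = W v (pos ω) * u l ω := r2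
          rw [← r1', ← r2', mul_assoc, Finset.sum_mul_sum, Finset.mul_sum]
          refine Finset.sum_congr rfl fun m _ => ?_
          rw [Finset.mul_sum]
          exact Finset.sum_congr rfl fun m' _ => by ring
        simp only [h4]
        symm
        rw [Finset.sum_comm]
        refine Finset.sum_congr rfl fun m _ => ?_
        rw [Finset.sum_comm]
        refine Finset.sum_congr rfl fun m' _ => ?_
        generalize c j (v, m) = A
        generalize c l (v, m') = A'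
        rw [Finset.mul_sum, Finset.sum_mul]
        exact Finset.sum_congr rfl fun ω _ => by ring
      simp only [h3]
      rw [Finset.sum_comm]
      refine Finset.sum_congr rfl fun ω _ => ?_
      rw [← hF (pos ω), Finset.mul_sum, Finset.sum_mul]
      exact Finset.sum_congr rfl fun v _ => by ring
    · rw [Fintype.sum_prod_type]
      refine Finset.sum_congr rfl fun v _ => ?_
      rw [← expandT (e v) (b v) (fun ω => F v (pos ω))]
      refine Finset.sum_congr rfl fun m _ => ?_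
      rw [Fintype.sum_prod_type, Finset.sum_eq_single v]
      · refine Finset.sum_congr rfl fun m' _ => ?_
        simp [hZ]
      · intro v' _ hv
        refine Finset.sum_eq_zero fun m' _ => ?_
        simp only [hZ]
        rw [if_neg (Ne.symm hv)]; ring
      · intro h; exact absurd (Finset.mem_univ v) h
  · intro j l
    rw [Fintype.sum_prod_type]
    have h2 : ∀ v, ∑ m, c j (v, m) * c l (v, m) =
        ∑ ω, (W v (pos ω) * u j ω) * (W v (pos ω) * u l ω) := fun v =>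
      parseval (e v) (he v) (fun ω => W v (pos ω) * u j ω) (fun ω => W v (pos ω) * u l ω)
    simp only [h2]
    rw [Finset.sum_comm, ← hu j l]
    refine Finset.sum_congr rfl fun ω _ => ?_
    have h3 : ∑ v, W v (pos ω) * u j ω * (W v (pos ω) * u l ω) =
        (∑ v, W v (pos ω) ^ 2) * (u j ω * u l ω) := by
      rw [Finset.sum_mul]; exact Finset.sum_congr rfl fun _ _ => by ring
    rw [h3, hW, one_mul]
  · rintro ⟨v, m⟩ ⟨v', m'⟩ hvv
    simp only at hvv
    subst hvv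
    simp only [hc]
    rw [hd v m m']
    by_cases h : m = m'
    · subst h; simp
    · rw [if_neg h, if_neg]
      intro h'; exact h (Prod.ext_iff.mp h').2
  · rintro k k' hkk
    simp only [hZ]
    rw [if_neg hkk]

end

set_option maxHeartbeats 8000000 in
theorem master : Master := by
  intro Ω X V I J _ _ _ _ _ _ _ _ _ pos W F Fb m2 d u t w lab good _ κ η hd0 hW0 hW hF hm2 hdist hu
    ht hw hsupp hκ hop hbad
  have hblk : ∀ v, ∃ (e : Ω → Ω → ℝ) (b : Ω → ℝ), (∀ m, 0 ≤ b m) ∧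
      (∀ m m', ∑ ω, e m ω * e m' ω = if m = m' then 1 else 0) ∧
      (∀ m m', ∑ j, t j ^ 2 * ((∑ ω, W v (pos ω) * u j ω * e m ω) *
        (∑ ω, W v (pos ω) * u j ω * e m' ω)) = if m = m' then b m ^ 2 else 0) :=
    fun v => block (fun j ω => W v (pos ω) * u j ω) t
  choose e b hb he hd using hblk
  have hrow : ∀ v ω, ∑ ω', TT (e v) (b v) ω ω' ^ 2 =
      ∑ j, t j ^ 2 * (W v (pos ω) * u j ω) ^ 2 := fun v ω =>
    TT_row (fun j ω => W v (pos ω) * u j ω) t (e v) (b v) (he v) (hd v) ω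
  have hzero : ∀ v ω ω', W v (pos ω) = 0 → TT (e v) (b v) ω ω' = 0 := by
    intro v ω ω' h
    have h1 := hrow v ω
    have h2 : ∑ j, t j ^ 2 * (W v (pos ω) * u j ω) ^ 2 = 0 := by
      refine Finset.sum_eq_zero fun j _ => ?_
      rw [h]; ring
    rw [h2] at h1
    have h3 := (Finset.sum_eq_zero_iff_of_nonneg (fun ω' _ => sq_nonneg _)).1 h1 ω'
      (Finset.mem_univ _)
    exact pow_eq_zero_iff two_ne_zero |>.1 h3
  -- weighted row sums
  have hwrow : ∀ (G : V → Ω → ℝ), ∑ v, ∑ ω, ∑ ω', TT (e v) (b v) ω ω' ^ 2 * G v ω =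
      ∑ j, t j ^ 2 * ∑ ω, u j ω ^ 2 * ∑ v, W v (pos ω) ^ 2 * G v ω := by
    intro G
    have h1 : ∀ v ω, ∑ ω', TT (e v) (b v) ω ω' ^ 2 * G v ω =
        ∑ j, t j ^ 2 * (u j ω ^ 2 * (W v (pos ω) ^ 2 * G v ω)) := by
      intro v ω
      rw [← Finset.sum_mul, hrow, Finset.sum_mul]
      exact Finset.sum_congr rfl fun j _ => by ring
    simp only [h1, Finset.mul_sum]
    rw [Finset.sum_comm]
    have h2 : ∀ ω, ∑ v, ∑ j, t j ^ 2 * (u j ω ^ 2 * (W v (pos ω) ^ 2 * G v ω)) =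
        ∑ j, ∑ v, t j ^ 2 * (u j ω ^ 2 * (W v (pos ω) ^ 2 * G v ω)) := fun ω =>
      Finset.sum_comm
    simp only [h2]
    rw [Finset.sum_comm]
  have htot : ∑ v, ∑ ω, ∑ ω', TT (e v) (b v) ω ω' ^ 2 = ∑ j, t j ^ 2 := by
    have h1 := hwrow (fun _ _ => 1)
    simp only [mul_one, hW] at h1
    rw [h1]
    refine Finset.sum_congr rfl fun j _ => ?_
    have h2 := hu j j
    rw [if_pos rfl] at h2
    simp only [sq (u j _)]
    rw [h2, mul_one]
  have hlow : d * (∑ j, t j ^ 2 - ∑ v, ∑ ω, ∑ ω', (if pos ω = pos ω' then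
      TT (e v) (b v) ω ω' ^ 2 else 0)) ≤
      ∑ v, ∑ ω, ∑ ω', TT (e v) (b v) ω ω' ^ 2 * ∑ i, (F v i (pos ω) - F v i (pos ω')) ^ 2 := by
    rw [← htot, ← Finset.sum_sub_distrib, Finset.mul_sum]
    refine Finset.sum_le_sum fun v _ => ?_
    rw [← Finset.sum_sub_distrib, Finset.mul_sum]
    refine Finset.sum_le_sum fun ω _ => ?_
    rw [← Finset.sum_sub_distrib, Finset.mul_sum]
    refine Finset.sum_le_sum fun ω' _ => ?_
    by_cases h : pos ω = pos ω'
    · rw [if_pos h, sub_self, mul_zero]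
      exact mul_nonneg (sq_nonneg _) (Finset.sum_nonneg fun _ _ => sq_nonneg _)
    · rw [if_neg h, sub_zero]
      by_cases h1 : W v (pos ω) = 0
      · rw [hzero v ω ω' h1]; simp
      · by_cases h2 : W v (pos ω') = 0
        · rw [TT_symm, hzero v ω' ω h2]; simp
        · rw [mul_comm]
          exact mul_le_mul_of_nonneg_left (hdist v _ _ h1 h2 h) (sq_nonneg _)
  have hen : ∑ v, ∑ ω, ∑ ω', TT (e v) (b v) ω ω' ^ 2 *
      ∑ i, (F v i (pos ω) - F v i (pos ω')) ^ 2 ≤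
      2 * ∑ i, (∑ j, t j ^ 2 * ∑ ω, u j ω ^ 2 * m2 i (pos ω)
        - ∑ j, ∑ l, t j * t l * (∑ ω, u j ω * Fb i (pos ω) * u l ω) ^ 2) := by
    have h1 : ∑ v, ∑ ω, ∑ ω', TT (e v) (b v) ω ω' ^ 2 *
        ∑ i, (F v i (pos ω) - F v i (pos ω')) ^ 2 =
        ∑ i, ∑ v, ∑ ω, ∑ ω', TT (e v) (b v) ω ω' ^ 2 *
          (F v i (pos ω) - F v i (pos ω')) ^ 2 := by
      symm
      rw [Finset.sum_comm]
      refine Finset.sum_congr rfl fun v _ => ?_
      rw [Finset.sum_comm]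
      refine Finset.sum_congr rfl fun ω _ => ?_
      rw [Finset.sum_comm]
      exact Finset.sum_congr rfl fun ω' _ => by rw [Finset.mul_sum]
    rw [h1, Finset.mul_sum]
    refine Finset.sum_le_sum fun i _ => ?_
    have h2 : ∑ v, ∑ ω, ∑ ω', TT (e v) (b v) ω ω' ^ 2 *
          (F v i (pos ω) - F v i (pos ω')) ^ 2 =
        ∑ v, ∑ ω, ∑ ω', TT (e v) (b v) ω ω' ^ 2 * F v i (pos ω) ^ 2 +
        ∑ v, ∑ ω, ∑ ω', TT (e v) (b v) ω ω' ^ 2 * F v i (pos ω') ^ 2 -
        2 * ∑ v, ∑ ω, ∑ ω', TT (e v) (b v) ω ω' ^ 2 * (F v i (pos ω) * F v i (pos ω')) := by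
      simp only [Finset.mul_sum, ← Finset.sum_add_distrib, ← Finset.sum_sub_distrib]
      exact Finset.sum_congr rfl fun v _ => Finset.sum_congr rfl fun ω _ =>
        Finset.sum_congr rfl fun ω' _ => by ring
    have h3 : ∑ v, ∑ ω, ∑ ω', TT (e v) (b v) ω ω' ^ 2 * F v i (pos ω') ^ 2 =
        ∑ v, ∑ ω, ∑ ω', TT (e v) (b v) ω ω' ^ 2 * F v i (pos ω) ^ 2 := by
      refine Finset.sum_congr rfl fun v _ => ?_
      rw [Finset.sum_comm]
      exact Finset.sum_congr rfl fun ω _ => Finset.sum_congr rfl fun ω' _ => by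
        rw [TT_symm]
    have h4 : ∑ v, ∑ ω, ∑ ω', TT (e v) (b v) ω ω' ^ 2 * F v i (pos ω) ^ 2 ≤
        ∑ j, t j ^ 2 * ∑ ω, u j ω ^ 2 * m2 i (pos ω) := by
      rw [hwrow (fun v ω => F v i (pos ω) ^ 2)]
      refine Finset.sum_le_sum fun j _ => mul_le_mul_of_nonneg_left ?_ (sq_nonneg _)
      exact Finset.sum_le_sum fun ω _ => mul_le_mul_of_nonneg_left (hm2 i (pos ω)) (sq_nonneg _)
    have h5 := wy_step pos W (fun v x => F v i x) (Fb i) u t ht hW (hF i) hu e b hb he hd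
    rw [h2, h3]
    linarith
  have hD : ∑ v, ∑ ω, ∑ ω', (if pos ω = pos ω' then TT (e v) (b v) ω ω' ^ 2 else 0) ≤
      √(∑ v, κ v ^ 2) * ∑ j, t j + η := by
    have h1 : ∀ v, ∑ ω, ∑ ω', (if pos ω = pos ω' then TT (e v) (b v) ω ω' ^ 2 else 0) ≤
        κ v * ∑ m, b v m + ∑ c ∈ univ.filter (fun c => ¬ good v c), W v (lab c) ^ 2 *
          ∑ j, t j ^ 2 * (∑ ω, u j ω * w c ω) ^ 2 := fun v =>
      Dblock pos (W v) u t (e v) (b v) (hb v) (he v) (hd v) w lab (good v) hw hsupp (hκ v)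
        (hop v)
    have h2 : ∑ v, κ v * ∑ m, b v m ≤ √(∑ v, κ v ^ 2) * ∑ j, t j := by
      have h3 : ∀ v, ∑ m, b v m ≤ ∑ j, t j * √(∑ ω, (W v (pos ω) * u j ω) ^ 2) := fun v =>
        trace_le (fun j ω => W v (pos ω) * u j ω) t (e v) (b v) ht (hb v) (he v) (hd v)
      calc ∑ v, κ v * ∑ m, b v m
          ≤ ∑ v, κ v * ∑ j, t j * √(∑ ω, (W v (pos ω) * u j ω) ^ 2) :=
            Finset.sum_le_sum fun v _ => mul_le_mul_of_nonneg_left (h3 v) (hκ v)
        _ = ∑ j, t j * ∑ v, κ v * √(∑ ω, (W v (pos ω) * u j ω) ^ 2) := by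
            simp only [Finset.mul_sum]
            rw [Finset.sum_comm]
            exact Finset.sum_congr rfl fun j _ => Finset.sum_congr rfl fun v _ => by ring
        _ ≤ ∑ j, t j * √(∑ v, κ v ^ 2) := by
            refine Finset.sum_le_sum fun j _ => mul_le_mul_of_nonneg_left ?_ (ht j)
            refine Real.le_sqrt_of_sq_le ?_
            refine (Finset.sum_mul_sq_le_sq_mul_sq univ κ
              (fun v => √(∑ ω, (W v (pos ω) * u j ω) ^ 2))).trans ?_
            have h4 : ∑ v, √(∑ ω, (W v (pos ω) * u j ω) ^ 2) ^ 2 = 1 := by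
              have h5 : ∀ v, √(∑ ω, (W v (pos ω) * u j ω) ^ 2) ^ 2 =
                  ∑ ω, (W v (pos ω) * u j ω) ^ 2 := fun v =>
                Real.sq_sqrt (Finset.sum_nonneg fun _ _ => sq_nonneg _)
              simp only [h5]
              rw [Finset.sum_comm]
              have h6 : ∀ ω, ∑ v, (W v (pos ω) * u j ω) ^ 2 = u j ω * u j ω := by
                intro ω
                have h7 : ∑ v, (W v (pos ω) * u j ω) ^ 2 =
                    (∑ v, W v (pos ω) ^ 2) * (u j ω * u j ω) := by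
                  rw [Finset.sum_mul]; exact Finset.sum_congr rfl fun _ _ => by ring
                rw [h7, hW, one_mul]
              simp only [h6]
              have h8 := hu j j
              rwa [if_pos rfl] at h8
            rw [h4, mul_one]
        _ = √(∑ v, κ v ^ 2) * ∑ j, t j := by rw [← Finset.sum_mul, mul_comm]
    calc ∑ v, ∑ ω, ∑ ω', (if pos ω = pos ω' then TT (e v) (b v) ω ω' ^ 2 else 0)
        ≤ ∑ v, (κ v * ∑ m, b v m + ∑ c ∈ univ.filter (fun c => ¬ good v c), W v (lab c) ^ 2 *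
          ∑ j, t j ^ 2 * (∑ ω, u j ω * w c ω) ^ 2) := Finset.sum_le_sum fun v _ => h1 v
      _ ≤ √(∑ v, κ v ^ 2) * ∑ j, t j + η := by
          rw [Finset.sum_add_distrib]; exact add_le_add h2 hbad
  refine le_trans ?_ (hlow.trans hen)
  refine mul_le_mul_of_nonneg_left ?_ hd0
  linarith

end Pool.Agent.H390R2.LP
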