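import Pool.Agent.H390R2.LP.ProdC
import Pool.Agent.H390R2.LP.MasterProof

/-! The product theorem `IID` and its weighted form `IIDw`. -/

open Finset

namespace Pool.Agent.H390R2.LP

lemma site_E_nonneg {Ω X I : Type} [Fintype Ω] [DecidableEq Ω] [Fintype I] (s : Site Ω X)
    (f : I → X → ℝ) : 0 ≤ s.E f := by
  unfold Site.E
  rw [Finset.mul_sum]
  refine Finset.sum_nonneg fun i _ => ?_
  have h := energy_form s.u s.u_orth (fun ω => f i (s.pos ω)) (fun a => √(s.lam a))
  have h1 : 2 * (∑ a, s.lam a * ∑ ω, s.u a ω ^ 2 * f i (s.pos ω) ^ 2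
    - ∑ a, ∑ b, √(s.lam a * s.lam b) * (∑ ω, s.u a ω * f i (s.pos ω) * s.u b ω) ^ 2) =
    2 * (∑ j, √(s.lam j) ^ 2 * ∑ ω, s.u j ω ^ 2 * f i (s.pos ω) ^ 2 -
      ∑ j, ∑ l, √(s.lam j) * √(s.lam l) * (∑ ω, s.u j ω * f i (s.pos ω) * s.u l ω) ^ 2) := by
    congr 2
    · exact Finset.sum_congr rfl fun j _ => by rw [Real.sq_sqrt (s.lam_nonneg j)]
    · exact Finset.sum_congr rfl fun j _ => Finset.sum_congr rfl fun l _ => by
        rw [Real.sqrt_mul (s.lam_nonneg j)]
  rw [h1, h]
  exact Finset.sum_nonneg fun _ _ => Finset.sum_nonneg fun _ _ =>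
    mul_nonneg (sq_nonneg _) (sq_nonneg _)

theorem iidw : IIDw := iidw_of_master master

theorem iid_of_iidw (iidw : IIDw) : IID := by
  intro Ω X I _ _ _ _ _ s f ε hε
  have hE := site_E_nonneg s f
  set ε' : ℝ := ε / (1 + s.E f + ε) with hε'
  have hden : 0 < 1 + s.E f + ε := by positivity
  have hε'pos : 0 < ε' := by positivity
  have hε'le : ε' ≤ ε := by
    rw [hε', div_le_iff₀ hden]; nlinarith
  have hrel : ε' * (1 + s.E f + ε) = ε := by
    rw [hε']; field_simp
  obtain ⟨n0, hn0⟩ := iidw Ω X I s f ε' hε'pos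
  refine ⟨n0, fun n hn V _ S M d hM hcov hdist hcard => ?_⟩
  classical
  by_cases hd : 0 ≤ d
  swap
  · push Not at hd
    have : 0 ≤ (n : ℝ) * (s.E f + ε) := by positivity
    linarith
  have hMR : (0 : ℝ) < M := by exact_mod_cast hM
  set wt : Finset (Fin n → X) → ℝ := fun T => ((univ.filter fun v => S v = T).card : ℝ) / M with hwt
  have hcov' : ∀ x, ∑ T ∈ univ.filter (fun T : Finset (Fin n → X) => x ∈ T), wt T = 1 := by
    intro x
    simp only [hwt]
    rw [← Finset.sum_div, div_eq_one_iff_eq hMR.ne']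
    have h1 := hcov x
    have h2 : (univ.filter fun v => x ∈ S v).card =
        ∑ T ∈ univ.filter (fun T : Finset (Fin n → X) => x ∈ T),
          (univ.filter fun v => S v = T).card := by
      rw [Finset.card_eq_sum_card_fiberwise (f := S)
        (t := univ.filter (fun T : Finset (Fin n → X) => x ∈ T))]
      · refine Finset.sum_congr rfl fun T hT => ?_
        rw [Finset.mem_filter] at hT
        congr 1
        ext v
        simp only [Finset.mem_filter, Finset.mem_univ, true_and]
        constructor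
        · rintro ⟨_, h⟩; exact h
        · intro h; exact ⟨by rw [h]; exact hT.2, h⟩
      · intro v hv
        simp only [Finset.coe_filter, Finset.mem_univ, true_and, Set.mem_ofPred_eq] at hv ⊢
        exact hv
    rw [h1] at h2
    exact_mod_cast h2.symm
  have hsum : ∑ T, wt T = (Fintype.card V : ℝ) / M := by
    simp only [hwt]
    rw [← Finset.sum_div]
    congr 1
    have h2 : (univ : Finset V).card = ∑ T : Finset (Fin n → X), (univ.filter fun v => S v = T).card :=
      Finset.card_eq_sum_card_fiberwise (f := S) (t := univ) (fun _ _ => Finset.mem_univ _)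
    rw [← Finset.card_univ, h2]
    push_cast
    rfl
  have key := hn0 n hn wt d hd (fun T => by positivity) (fun x => (hcov' x).le) ?_ ?_
  · simp only [hcov', sub_self, mul_zero, Finset.sum_const_zero, sub_zero] at key
    have hnn : (0 : ℝ) ≤ n := by positivity
    have h1ε : 0 < 1 - ε' := by
      have : ε' < 1 := by rw [hε', div_lt_one hden]; linarith
      linarith
    have h2 : (n : ℝ) * (s.E f + ε') = (n * (s.E f + ε)) * (1 - ε') := by
      have : s.E f + ε' = (s.E f + ε) * (1 - ε') := by linarith [hrel]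
      rw [this]; ring
    rw [h2] at key
    exact le_of_mul_le_mul_right key h1ε
  · intro T hT x hx y hy hxy
    have : ((univ.filter fun v => S v = T).card : ℝ) ≠ 0 := by
      intro h0; exact hT (by simp only [hwt]; rw [h0, zero_div])
    have h3 : (univ.filter fun v => S v = T).card ≠ 0 := by exact_mod_cast this
    obtain ⟨v, hv⟩ := Finset.card_pos.mp (Nat.pos_of_ne_zero h3)
    rw [Finset.mem_filter] at hv
    rw [← hv.2] at hx hy
    exact hdist v x hx y hy hxy
  · rw [hsum, div_le_iff₀ hMR]
    refine hcard.trans ?_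
    rw [mul_comm]
    refine mul_le_mul_of_nonneg_right ?_ hMR.le
    refine Real.exp_le_exp.mpr ?_
    have hnn : (0 : ℝ) ≤ n := by positivity
    nlinarith

theorem iid : IID := iid_of_iidw iidw

end Pool.Agent.H390R2.LP
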