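import Pool.Agent.H390R2.LP.EuclidB

/-!
# Sphere packings from the product theorem

`rhoStar n` is the supremum of the upper densities of all packings of `ℝⁿ` by congruent open
balls. `euclid` bounds it exponentially in terms of one-site data.
-/

open MeasureTheory Finset Filter
open scoped ENNReal Topology

namespace Pool.Agent.H390R2.LP

/-- `P` is the set of centres of a packing of `ℝⁿ` by open balls of radius `r`: the balls are
pairwise disjoint. -/
def IsPacking {n : ℕ} (P : Set (EuclideanSpace ℝ (Fin n))) (r : ℝ) : Prop :=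
  0 < r ∧ P.PairwiseDisjoint fun x => Metric.ball x r

/-- Upper density `limsup_{R → ∞} |B(0,R) ∩ E| / |B(0,R)|` of the union `E` of the balls of
radius `r` centred at `P`. -/
noncomputable def upperDensity {n : ℕ} (P : Set (EuclideanSpace ℝ (Fin n))) (r : ℝ) : ℝ≥0∞ :=
  limsup (fun R : ℝ => volume (Metric.ball (0 : EuclideanSpace ℝ (Fin n)) R
      ∩ ⋃ x ∈ P, Metric.ball x r) / volume (Metric.ball (0 : EuclideanSpace ℝ (Fin n)) R)) atTop

/-- The optimal sphere packing density in `ℝⁿ`. -/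
noncomputable def rhoStar (n : ℕ) : ℝ≥0∞ :=
  ⨆ (P : Set (EuclideanSpace ℝ (Fin n))) (r : ℝ) (_ : IsPacking P r), upperDensity P r

theorem sep_of_packing {n : ℕ} {P : Set (EuclideanSpace ℝ (Fin n))} {r : ℝ} (h : IsPacking P r)
    {x y : EuclideanSpace ℝ (Fin n)} (hx : x ∈ P) (hy : y ∈ P) (hxy : x ≠ y) :
    2 * r ≤ ‖x - y‖ := by
  have h1 := h.2 hx hy hxy
  have h2 : Disjoint (Metric.ball x r) (Metric.ball y r) := h1
  rw [disjoint_ball_ball_iff h.1 h.1, dist_eq_norm] at h2
  linarith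

theorem rd_sep {n : ℕ} {P : Set (EuclideanSpace ℝ (Fin n))} {r : ℝ} (h : IsPacking P r)
    {c : ℝ} (hc : 0 < c)
    {x y : EuclideanSpace ℝ (Fin n)} (hx : x ∈ P) (hy : y ∈ P) (hxy : x ≠ y) :
    2 * r - c * √n ≤ c * ‖toE (rd c x) - toE (rd c y)‖ := by
  have h1 := sep_of_packing h hx hy hxy
  have h2 := rd_dist c hc x
  have h3 := rd_dist c hc y
  have e : x - y = (x - c • toE (rd c x)) - (y - c • toE (rd c y))
      + c • (toE (rd c x) - toE (rd c y)) := by
    rw [smul_sub]; abel
  have h4 : ‖x - y‖ ≤ ‖x - c • toE (rd c x)‖ + ‖y - c • toE (rd c y)‖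
      + c * ‖toE (rd c x) - toE (rd c y)‖ := by
    rw [e]
    calc _ ≤ ‖(x - c • toE (rd c x)) - (y - c • toE (rd c y))‖
          + ‖c • (toE (rd c x) - toE (rd c y))‖ := norm_add_le _ _
      _ ≤ _ := by
        rw [norm_smul, Real.norm_eq_abs, abs_of_pos hc]
        exact add_le_add_left (norm_sub_le _ _) _
  linarith

open Classical in
/-- The centres near the ball of radius `R`, rounded to the grid. -/
noncomputable def cset {n : ℕ} (P : Set (EuclideanSpace ℝ (Fin n))) (c T : ℝ) :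
    Finset (Fin n → ℤ) :=
  (intBall n T).filter fun v => ∃ p ∈ P, rd c p = v

theorem mem_cset {n : ℕ} {P : Set (EuclideanSpace ℝ (Fin n))} {c T : ℝ} {v : Fin n → ℤ} :
    v ∈ cset P c T ↔ ‖toE v‖ ≤ T ∧ ∃ p ∈ P, rd c p = v := by
  simp only [cset, mem_filter, mem_intBall]

theorem norm_rd {n : ℕ} {c : ℝ} (hc : 0 < c) (p : EuclideanSpace ℝ (Fin n)) :
    ‖toE (rd c p)‖ ≤ ‖p‖ / c + √n / 2 := by
  have h1 := rd_dist c hc p
  have h2 : ‖c • toE (rd c p)‖ ≤ ‖p‖ + ‖p - c • toE (rd c p)‖ := by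
    have e : c • toE (rd c p) = p - (p - c • toE (rd c p)) := by abel
    calc ‖c • toE (rd c p)‖ = ‖p - (p - c • toE (rd c p))‖ := by rw [← e]
      _ ≤ _ := norm_sub_le _ _
  rw [norm_smul, Real.norm_eq_abs, abs_of_pos hc] at h2
  have h3 : c * ‖toE (rd c p)‖ ≤ ‖p‖ + c * √n / 2 := h2.trans (by linarith)
  have h4 : ‖toE (rd c p)‖ ≤ (‖p‖ + c * √n / 2) / c := by
    rw [le_div_iff₀ hc]; linarith
  calc ‖toE (rd c p)‖ ≤ (‖p‖ + c * √n / 2) / c := h4
    _ = _ := by field_simp

theorem packing_vol {n : ℕ} {P : Set (EuclideanSpace ℝ (Fin n))} {r : ℝ} (h : IsPacking P r)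
    {c : ℝ} (hc : 0 < c) (hcr : c * √n < 2 * r) (R T : ℝ) (hT : (R + r) / c + √n / 2 ≤ T) :
    volume (Metric.ball (0 : EuclideanSpace ℝ (Fin n)) R ∩ ⋃ x ∈ P, Metric.ball x r)
      ≤ (cset P c T).card * volume (Metric.ball (0 : EuclideanSpace ℝ (Fin n)) r) := by
  classical
  have hch : ∀ v : Fin n → ℤ, ∃ p : EuclideanSpace ℝ (Fin n),
      v ∈ cset P c T → p ∈ P ∧ rd c p = v := by
    intro v
    by_cases hv : v ∈ cset P c T
    · obtain ⟨p, hp, hp'⟩ := (mem_cset.mp hv).2
      exact ⟨p, fun _ => ⟨hp, hp'⟩⟩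
    · exact ⟨0, fun h => absurd h hv⟩
  choose g hg using hch
  have hsub : (Metric.ball (0 : EuclideanSpace ℝ (Fin n)) R ∩ ⋃ x ∈ P, Metric.ball x r)
      ⊆ ⋃ v ∈ cset P c T, Metric.ball (g v) r := by
    rintro x ⟨hx, hx'⟩
    simp only [Set.mem_iUnion] at hx' ⊢
    obtain ⟨p, hp, hxp⟩ := hx'
    have hxn : ‖x‖ < R := mem_ball_zero_iff.mp hx
    have hpn : ‖p‖ ≤ R + r := by
      have h1 : ‖x - p‖ < r := by
        rw [← dist_eq_norm]; exact Metric.mem_ball.mp hxp
      calc ‖p‖ = ‖x - (x - p)‖ := by congr 1; abel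
        _ ≤ ‖x‖ + ‖x - p‖ := norm_sub_le _ _
        _ ≤ R + r := by linarith
    have hmem : rd c p ∈ cset P c T := by
      rw [mem_cset]
      refine ⟨(norm_rd hc p).trans (le_trans ?_ hT), p, hp, rfl⟩
      have : ‖p‖ / c ≤ (R + r) / c := div_le_div_of_nonneg_right hpn hc.le
      linarith
    refine ⟨rd c p, hmem, ?_⟩
    have heq : g (rd c p) = p := by
      by_contra hne
      have h1 := rd_sep h hc (hg _ hmem).1 hp hne
      rw [(hg _ hmem).2, sub_self, norm_zero, mul_zero] at h1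
      linarith
    rw [heq]
    exact hxp
  calc _ ≤ volume (⋃ v ∈ cset P c T, Metric.ball (g v) r) := measure_mono hsub
    _ ≤ ∑ v ∈ cset P c T, volume (Metric.ball (g v) r) := measure_biUnion_finset_le _ _
    _ = ∑ v ∈ cset P c T, volume (Metric.ball (0 : EuclideanSpace ℝ (Fin n)) r) := by
        apply Finset.sum_congr rfl
        intro v _
        exact Measure.addHaar_ball_center _ _ _
    _ = _ := by rw [Finset.sum_const, nsmul_eq_mul]

/-- Density of a packing in terms of a counting bound `A`. -/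
theorem density_le {n : ℕ} (hn : 0 < n) {P : Set (EuclideanSpace ℝ (Fin n))} {r : ℝ}
    (h : IsPacking P r) {c : ℝ} (hc : 0 < c) (hcr : c * √n < 2 * r) (b K : ℝ) (hb : 0 ≤ b)
    (hcount : ∀ T : ℝ, 0 < T → ((cset P c T).card : ℝ) ≤ b * (intBall n (T + K)).card) :
    upperDensity P r ≤ ENNReal.ofReal (b * (√(2 * Real.pi * Real.exp 1 / n) * (r / c)) ^ n) := by
  have : Nonempty (Fin n) := ⟨⟨0, hn⟩⟩
  set κ := volume (Metric.ball (0 : EuclideanSpace ℝ (Fin n)) 1) with hκ
  have hκ0 : κ ≠ 0 := (Metric.measure_ball_pos volume (0 : EuclideanSpace ℝ (Fin n)) one_pos).ne'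
  have hκt : κ ≠ ∞ := measure_ball_lt_top.ne
  have hvol : ∀ R : ℝ, 0 < R → volume (Metric.ball (0 : EuclideanSpace ℝ (Fin n)) R) = ENNReal.ofReal (R ^ n) * κ := by
    intro R hR
    rw [hκ, Measure.addHaar_ball_of_pos _ _ hR]
    simp
  -- the constant
  set L := K + (r / c + √n / 2) + √n + 1 with hL
  have hbound : ∀ᶠ R : ℝ in atTop,
      volume (Metric.ball (0 : EuclideanSpace ℝ (Fin n)) R ∩ ⋃ x ∈ P, Metric.ball x r) / volume (Metric.ball (0 : EuclideanSpace ℝ (Fin n)) R)
        ≤ ENNReal.ofReal (b * (1 / c + L / R) ^ n) * volume (Metric.ball (0 : EuclideanSpace ℝ (Fin n)) r) := by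
    filter_upwards [eventually_gt_atTop (max 1 (c * |L|))] with R hR
    have hR0 : 0 < R := lt_trans (by positivity) (lt_of_le_of_lt (le_max_left _ _) hR)
    have hRL : 0 < R / c + L := by
      have h1 : c * |L| < R := lt_of_le_of_lt (le_max_right _ _) hR
      have h2 : |L| < R / c := by rw [lt_div_iff₀ hc]; linarith
      have h3 := neg_abs_le L
      linarith
    set T := (R + r) / c + √n / 2 with hT
    have hT0 : 0 < T := by
      have := h.1
      positivity
    have h1 := packing_vol h hc hcr R T le_rfl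
    have h2 := hcount T hT0
    have h3 : ((intBall n (T + K)).card : ℝ≥0∞) ≤ volume (Metric.ball (0 : EuclideanSpace ℝ (Fin n)) (R / c + L)) := by
      apply card_int_le _ (T + K)
      · rw [hT, hL, add_div]; linarith
      · intro v hv
        exact mem_intBall.mp hv
    rw [hvol _ hRL] at h3
    have h4 : ((cset P c T).card : ℝ≥0∞) ≤ ENNReal.ofReal (b * (R / c + L) ^ n) * κ := by
      have h5 : ((cset P c T).card : ℝ≥0∞) ≤ ENNReal.ofReal b * (intBall n (T + K)).card := by
        rw [← ENNReal.ofReal_natCast, ← ENNReal.ofReal_natCast, ← ENNReal.ofReal_mul hb]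
        exact ENNReal.ofReal_le_ofReal h2
      calc _ ≤ ENNReal.ofReal b * (intBall n (T + K)).card := h5
        _ ≤ ENNReal.ofReal b * (ENNReal.ofReal ((R / c + L) ^ n) * κ) := by gcongr
        _ = _ := by rw [ENNReal.ofReal_mul hb, mul_assoc]
    have hRn : ENNReal.ofReal (R ^ n) ≠ 0 := by
      rw [Ne, ENNReal.ofReal_eq_zero, not_le]; positivity
    rw [hvol R hR0]
    apply ENNReal.div_le_of_le_mul
    calc _ ≤ (cset P c T).card * volume (Metric.ball (0 : EuclideanSpace ℝ (Fin n)) r) := h1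
      _ ≤ (ENNReal.ofReal (b * (R / c + L) ^ n) * κ) * volume (Metric.ball (0 : EuclideanSpace ℝ (Fin n)) r) := by
          gcongr
      _ = _ := by
          have e : b * (R / c + L) ^ n = b * (1 / c + L / R) ^ n * R ^ n := by
            rw [mul_assoc, ← mul_pow]
            congr 2
            field_simp
          have hpos : 0 ≤ b * (1 / c + L / R) ^ n := by
            have : 0 < 1 / c + L / R := by
              have : 1 / c + L / R = (R / c + L) / R := by field_simp
              rw [this]; positivity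
            positivity
          rw [e, ENNReal.ofReal_mul hpos]
          ring
  have hlim : Tendsto (fun R : ℝ => ENNReal.ofReal (b * (1 / c + L / R) ^ n)
      * volume (Metric.ball (0 : EuclideanSpace ℝ (Fin n)) r)) atTop
      (𝓝 (ENNReal.ofReal (b * (1 / c + 0) ^ n) * volume (Metric.ball (0 : EuclideanSpace ℝ (Fin n)) r))) := by
    apply ENNReal.Tendsto.mul_const
    · apply ENNReal.tendsto_ofReal
      apply Tendsto.const_mul
      apply Tendsto.pow
      apply Tendsto.const_add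
      exact tendsto_const_nhds.div_atTop tendsto_id
    · right
      exact measure_ball_lt_top.ne
  have hfin : upperDensity P r
      ≤ ENNReal.ofReal (b * (1 / c + 0) ^ n) * volume (Metric.ball (0 : EuclideanSpace ℝ (Fin n)) r) := by
    rw [← hlim.limsup_eq]
    exact limsup_le_limsup hbound
  refine hfin.trans ?_
  have h5 := volume_ball_le n hn (0 : EuclideanSpace ℝ (Fin n)) r h.1.le
  calc _ ≤ ENNReal.ofReal (b * (1 / c + 0) ^ n)
        * ENNReal.ofReal ((√(2 * Real.pi * Real.exp 1 / n) * r) ^ n) := by gcongr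
    _ = _ := by
        rw [← ENNReal.ofReal_mul (by positivity)]
        congr 1
        rw [mul_assoc, ← mul_pow]
        congr 2
        field_simp
        ring

/-- Bound for all packings with explicit parameters `ε, D`. -/
theorem rhoStar_le_aux (iid : IID) {Ω : Type} [Fintype Ω] [DecidableEq Ω] {q : ℕ}
    (s : Site Ω (Fin q)) (hg ε D : ℝ) (hhg : 0 < hg) (hε : 0 < ε) (hD0 : 0 < D)
    (hD : s.E (fun (_ : Unit) (x : Fin q) => hg * (x : ℝ)) + ε < D) :
    ∃ n0 : ℕ, ∀ n ≥ n0, rhoStar n ≤ ENNReal.ofReal (Real.exp (-(n * (s.h - s.S - ε)))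
      * (√(2 * Real.pi * Real.exp 1) * ((√D + hg) / (2 * hg))) ^ n) := by
  obtain ⟨n0, hn0⟩ := int_count iid s hg ε D hε hD
  refine ⟨max n0 1, fun n hn => ?_⟩
  have hn1 : 0 < n := lt_of_lt_of_le one_pos (le_trans (le_max_right _ _) hn)
  have hn' : (0 : ℝ) < n := by exact_mod_cast hn1
  have hsn : 0 < √(n : ℝ) := Real.sqrt_pos.mpr hn'
  have hsD : 0 < √D := Real.sqrt_pos.mpr hD0
  unfold rhoStar
  refine iSup_le fun P => iSup_le fun r => iSup_le fun h => ?_
  have hr := h.1
  set t := 2 * r / (√n * (√D + hg)) with ht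
  have ht0 : 0 < t := by positivity
  have ht2 : 2 * r = t * (√n * (√D + hg)) := by
    rw [ht]; field_simp
  set c := hg * t with hc
  have hc0 : 0 < c := by positivity
  have hcr : 2 * r - c * √n = t * (√n * √D) := by
    rw [ht2, hc]; ring
  have hcr' : c * √n < 2 * r := by
    have : 0 < t * (√n * √D) := by positivity
    linarith
  have hsep : ∀ T : ℝ, ∀ v ∈ cset P c T, ∀ w ∈ cset P c T, v ≠ w →
      n * D ≤ hg ^ 2 * ∑ i, ((v i : ℝ) - w i) ^ 2 := by
    intro T v hv w hw hvw
    obtain ⟨-, p, hp, rfl⟩ := mem_cset.mp hv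
    obtain ⟨-, p', hp', rfl⟩ := mem_cset.mp hw
    have hpp : p ≠ p' := fun e => hvw (by rw [e])
    have h1 := rd_sep h hc0 hp hp' hpp
    have h1' : t * (√n * √D) ≤ t * (hg * ‖toE (rd c p) - toE (rd c p')‖) := by
      rw [hcr] at h1
      refine h1.trans (le_of_eq ?_)
      generalize ‖toE (rd c p) - toE (rd c p')‖ = N
      rw [hc]; ring
    have h2 : √n * √D ≤ hg * ‖toE (rd c p) - toE (rd c p')‖ :=
      le_of_mul_le_mul_left h1' ht0
    have h3 : (√n * √D) ^ 2 ≤ (hg * ‖toE (rd c p) - toE (rd c p')‖) ^ 2 :=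
      pow_le_pow_left₀ (by positivity) h2 2
    rw [mul_pow, mul_pow, Real.sq_sqrt hn'.le, Real.sq_sqrt hD0.le, sq_norm_toE_sub] at h3
    exact h3
  have hcount : ∀ T : ℝ, 0 < T → ((cset P c T).card : ℝ)
      ≤ Real.exp (-(n * (s.h - s.S - ε))) * (intBall n (T + √n * q)).card := by
    intro T _
    have h1 := hn0 n (le_trans (le_max_left _ _) hn) (cset P c T) (intBall n (T + √n * q))
      (hsep T) ?_
    · have h2 : ((cset P c T).card : ℝ)
          = Real.exp (-(n * (s.h - s.S - ε)))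
            * ((cset P c T).card * Real.exp (n * (s.h - s.S - ε))) := by
        rw [mul_comm ((cset P c T).card : ℝ), ← mul_assoc, ← Real.exp_add]
        simp
      rw [h2]
      exact mul_le_mul_of_nonneg_left h1 (Real.exp_pos _).le
    · intro v hv x
      rw [mem_intBall]
      have e : toE (fun i => ((x i : ℕ) : ℤ) - v i)
          = toE (fun i => ((x i : ℕ) : ℤ)) - toE v := by
        ext i
        simp [toE]
      rw [e]
      have h1 : ‖toE (fun i => ((x i : ℕ) : ℤ))‖ ≤ √n * q := by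
        have e2 : √(n : ℝ) * q = √((n : ℝ) * (q : ℝ) ^ 2) := by
          rw [Real.sqrt_mul hn'.le, Real.sqrt_sq (Nat.cast_nonneg q)]
        rw [e2, EuclideanSpace.norm_eq]
        apply Real.sqrt_le_sqrt
        calc ∑ i, ‖(toE (fun i => ((x i : ℕ) : ℤ))) i‖ ^ 2 ≤ ∑ i : Fin n, (q : ℝ) ^ 2 := by
              apply Finset.sum_le_sum
              intro i _
              have e3 : (toE (fun i => ((x i : ℕ) : ℤ))) i = ((x i : ℕ) : ℝ) := by simp [toE]
              rw [e3, Real.norm_natCast]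
              have : ((x i : ℕ) : ℝ) ≤ q := by exact_mod_cast (x i).isLt.le
              exact pow_le_pow_left₀ (Nat.cast_nonneg _) this 2
          _ = n * (q : ℝ) ^ 2 := by simp
      have h2 := (mem_cset.mp hv).1
      calc _ ≤ ‖toE (fun i => ((x i : ℕ) : ℤ))‖ + ‖toE v‖ := norm_sub_le _ _
        _ ≤ _ := by linarith
  refine (density_le hn1 h hc0 hcr' _ _ (Real.exp_pos _).le hcount).trans (le_of_eq ?_)
  congr 3
  have e1 : r / c = √n * ((√D + hg) / (2 * hg)) := by
    rw [div_eq_iff hc0.ne']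
    have : r = t * (√n * (√D + hg)) / 2 := by linarith
    rw [this, hc]
    field_simp
  rw [e1, ← mul_assoc, Real.sqrt_div (by positivity)]
  congr 1
  field_simp

/-- The sphere packing exponent (base `e`) given by one-site data on the grid `hg · {0,…,q-1}`. -/
noncomputable def cE {Ω : Type} [Fintype Ω] [DecidableEq Ω] {q : ℕ} (s : Site Ω (Fin q))
    (hg : ℝ) : ℝ :=
  s.h - s.S + Real.log hg - 1 / 2 * Real.log (2 * Real.pi * Real.exp 1)
    - Real.log ((√(s.E (fun (_ : Unit) (x : Fin q) => hg * (x : ℝ))) + hg) / 2)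

/-- **Sphere packings.** Every one-site datum gives an upper bound for the exponential rate of the
optimal sphere packing density. -/
theorem euclid (iid : IID) {Ω : Type} [Fintype Ω] [DecidableEq Ω] {q : ℕ}
    (s : Site Ω (Fin q)) (hg : ℝ) (hhg : 0 < hg) (ε : ℝ) (hε : 0 < ε) :
    ∃ n0 : ℕ, ∀ n ≥ n0, rhoStar n ≤ ENNReal.ofReal (Real.exp (-(n * (cE s hg - ε)))) := by
  set E := s.E (fun (_ : Unit) (x : Fin q) => hg * (x : ℝ)) with hE
  set δ := min (ε / 2) ((ε * hg) ^ 2 / 8) with hδ
  have hδ0 : 0 < δ := lt_min (by positivity) (by positivity)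
  have hδ1 : δ ≤ ε / 2 := min_le_left _ _
  have hδ2 : δ ≤ (ε * hg) ^ 2 / 8 := min_le_right _ _
  obtain ⟨n0, hn0⟩ := rhoStar_le_aux iid s hg δ (max E 0 + 2 * δ) hhg hδ0
    (by have := le_max_right E 0; linarith) (by have := le_max_left E 0; linarith)
  refine ⟨n0, fun n hn => (hn0 n hn).trans (ENNReal.ofReal_le_ofReal ?_)⟩
  have hsq : √(max E 0 + 2 * δ) ≤ √E + ε * hg / 2 := by
    have h1 : √(max E 0) = √E := by
      rcases le_total E 0 with h | h
      · rw [max_eq_right h, Real.sqrt_zero, Real.sqrt_eq_zero_of_nonpos h]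
      · rw [max_eq_left h]
    have h2 : √(2 * δ) ≤ ε * hg / 2 := by
      rw [Real.sqrt_le_left (by positivity)]
      nlinarith
    have h5 : √(max E 0 + 2 * δ) ≤ √(max E 0) + √(2 * δ) := by
      rw [Real.sqrt_le_left (by positivity), add_sq, Real.sq_sqrt (le_max_right _ _),
        Real.sq_sqrt (by positivity)]
      have : 0 ≤ 2 * √(max E 0) * √(2 * δ) := by positivity
      linarith
    rw [h1] at h5
    linarith
  have hE0 := Real.sqrt_nonneg E
  have hfac : (√(max E 0 + 2 * δ) + hg) / (2 * hg)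
      ≤ (√E + hg) / (2 * hg) * Real.exp (ε / 2) := by
    have h3 : ε / 2 + 1 ≤ Real.exp (ε / 2) := Real.add_one_le_exp _
    have h4 : √(max E 0 + 2 * δ) + hg ≤ (√E + hg) * (ε / 2 + 1) := by
      nlinarith [mul_nonneg hE0 hε.le]
    have h5 : √(max E 0 + 2 * δ) + hg ≤ (√E + hg) * Real.exp (ε / 2) :=
      h4.trans (mul_le_mul_of_nonneg_left h3 (by positivity))
    rw [div_mul_eq_mul_div]
    exact div_le_div_of_nonneg_right h5 (by positivity)
  have hlog : √(2 * Real.pi * Real.exp 1) * ((√E + hg) / (2 * hg))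
      = Real.exp (1 / 2 * Real.log (2 * Real.pi * Real.exp 1) + Real.log ((√E + hg) / 2)
        - Real.log hg) := by
    rw [Real.exp_sub, Real.exp_add, Real.exp_log hhg, Real.exp_log (by positivity),
      Real.sqrt_eq_rpow, Real.rpow_def_of_pos (by positivity),
      mul_comm (Real.log _) (1 / 2 : ℝ)]
    field_simp
  calc Real.exp (-(n * (s.h - s.S - δ)))
        * (√(2 * Real.pi * Real.exp 1) * ((√(max E 0 + 2 * δ) + hg) / (2 * hg))) ^ n
      ≤ Real.exp (-(n * (s.h - s.S - δ)))
        * (√(2 * Real.pi * Real.exp 1) * ((√E + hg) / (2 * hg) * Real.exp (ε / 2))) ^ n := by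
        gcongr
    _ = Real.exp (-(n * (s.h - s.S - δ))) * (Real.exp ((1 / 2 * Real.log (2 * Real.pi * Real.exp 1)
        + Real.log ((√E + hg) / 2) - Real.log hg) + ε / 2)) ^ n := by
        rw [← mul_assoc, hlog, ← Real.exp_add]
    _ = Real.exp (-(n * (cE s hg + Real.log ((√E + hg) / 2) - Real.log ((√E + hg) / 2)
        - δ - ε / 2))) := by
        rw [← Real.exp_nat_mul, ← Real.exp_add]
        congr 1
        unfold cE
        rw [← hE]
        ring
    _ ≤ Real.exp (-(n * (cE s hg - ε))) := by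
        apply Real.exp_le_exp.mpr
        have : (n : ℝ) * (cE s hg - ε) ≤ n * (cE s hg - δ - ε / 2) :=
          mul_le_mul_of_nonneg_left (by linarith) (Nat.cast_nonneg n)
        have e : cE s hg + Real.log ((√E + hg) / 2) - Real.log ((√E + hg) / 2) - δ - ε / 2
          = cE s hg - δ - ε / 2 := by ring
        rw [e]
        linarith

end Pool.Agent.H390R2.LP
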