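import Mathlib

/-!
Definitions for binary codes: the largest size of a code, the asymptotic rate, and the second
linear programming bound of McEliece, Rodemich, Rumsey and Welch.
-/

namespace Pool.Agent.H390R2.LP.Bin

/-- The largest size of a binary code of length `n` with minimum distance at least `d`. -/
noncomputable def A (n d : ℕ) : ℕ :=
  sSup {M | ∃ C : Finset (Fin n → Bool), C.card = M ∧
    ∀ x ∈ C, ∀ y ∈ C, x ≠ y → d ≤ hammingDist x y}

/-- The asymptotic rate `R(δ)`. -/
noncomputable def R (δ : ℝ) : ℝ :=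
  Filter.limsup (fun n : ℕ => Real.logb 2 (A n ⌈δ * n⌉₊) / n) Filter.atTop

/-- The binary entropy function, with base two logarithms. -/
noncomputable def H2 (x : ℝ) : ℝ := -x * Real.logb 2 x - (1 - x) * Real.logb 2 (1 - x)

/-- `h(x) = H₂(1/2 - 1/2 √(1 - x))`. -/
noncomputable def hh (x : ℝ) : ℝ := H2 (1 / 2 - 1 / 2 * √(1 - x))

/-- The bracket in the definition of `B(δ)`. -/
noncomputable def Bu (δ u : ℝ) : ℝ := 1 + hh (u ^ 2) - hh (u ^ 2 + 2 * δ * u + 2 * δ)

/-- The second linear programming bound `B(δ)`. -/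
noncomputable def B (δ : ℝ) : ℝ := sInf (Bu δ '' Set.Ioc 0 (1 - 2 * δ))

end Pool.Agent.H390R2.LP.Bin
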