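import Pool.Agent.H390R2.LP.BinDefs

/-!
The infimum in the definition of the second linear programming bound is attained.
-/

open Filter Topology Set

namespace Pool.Agent.H390R2.LP.Bin

theorem H2_eq (x : ℝ) : H2 x = Real.binEntropy x / Real.log 2 := by
  unfold H2 Real.binEntropy Real.logb
  rw [Real.log_inv, Real.log_inv]
  ring

theorem hh_eq (x : ℝ) : hh x = Real.binEntropy (1 / 2 - 1 / 2 * √(1 - x)) / Real.log 2 :=
  H2_eq _

theorem hh_continuous : Continuous hh := by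
  have h : hh = fun x => Real.binEntropy (1 / 2 - 1 / 2 * √(1 - x)) / Real.log 2 :=
    funext hh_eq
  rw [h]
  fun_prop

theorem Bu_continuous (δ : ℝ) : Continuous (Bu δ) := by
  unfold Bu
  have h := hh_continuous
  fun_prop

/-- `h` is `O(u^{3/2})` at squares. -/
theorem hh_sq_le {u : ℝ} (h0 : 0 < u) (h1 : u ≤ 1) :
    hh (u ^ 2) * Real.log 2 ≤ 5 * u * √u := by
  have hl2 : 0 < Real.log 2 := Real.log_pos (by norm_num)
  rw [hh_eq, div_mul_cancel₀ _ hl2.ne']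
  set r := √(1 - u ^ 2) with hr
  have hu2 : u ^ 2 ≤ 1 := by nlinarith
  have hr0 : 0 ≤ r := Real.sqrt_nonneg _
  have hr2 : r ^ 2 = 1 - u ^ 2 := Real.sq_sqrt (by linarith)
  have hr1 : r < 1 := by
    by_contra hc
    rw [not_lt] at hc
    nlinarith
  set p := 1 / 2 - 1 / 2 * r with hp
  have hp0 : 0 < p := by rw [hp]; linarith
  have hpu : p ≤ u ^ 2 / 2 := by
    rw [hp]
    nlinarith
  have hp1 : p ≤ 1 / 2 := by rw [hp]; linarith
  -- first term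
  have hsu : 0 < √u := Real.sqrt_pos.mpr h0
  have hsu2 : √u ^ 2 = u := Real.sq_sqrt h0.le
  have hsu1 : √u ≤ 1 := by
    have h7 := Real.sqrt_le_sqrt h1
    rwa [Real.sqrt_one] at h7
  have t1 : p * Real.log p⁻¹ ≤ 4 * (u * √u) := by
    -- log x ≤ 4 x^{1/4}, and the function p^{3/4} is increasing
    have hq : Real.log p⁻¹ ≤ p⁻¹ ^ (1 / 4 : ℝ) / (1 / 4) :=
      Real.log_le_rpow_div (inv_nonneg.mpr hp0.le) (by norm_num)
    have h2 : p * Real.log p⁻¹ ≤ 4 * p ^ (3 / 4 : ℝ) := by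
      calc p * Real.log p⁻¹ ≤ p * (p⁻¹ ^ (1 / 4 : ℝ) / (1 / 4)) :=
            mul_le_mul_of_nonneg_left hq hp0.le
        _ = 4 * p ^ (3 / 4 : ℝ) := by
            rw [Real.inv_rpow hp0.le, ← Real.rpow_neg hp0.le]
            have h3 : p ^ (3 / 4 : ℝ) = p * p ^ (-(1 / 4) : ℝ) := by
              nth_rewrite 2 [← Real.rpow_one p]
              rw [← Real.rpow_add hp0]
              norm_num
            rw [h3]
            ring
    have h4 : p ^ (3 / 4 : ℝ) ≤ u * √u := by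
      have h5 : p ≤ u ^ (2 : ℝ) := by
        rw [Real.rpow_two]
        nlinarith [sq_nonneg u]
      calc p ^ (3 / 4 : ℝ) ≤ (u ^ (2 : ℝ)) ^ (3 / 4 : ℝ) :=
            Real.rpow_le_rpow hp0.le h5 (by norm_num)
        _ = u ^ (1 + 1 / 2 : ℝ) := by
            rw [← Real.rpow_mul h0.le]
            norm_num
        _ = u * √u := by
            rw [Real.rpow_add h0, Real.rpow_one, Real.sqrt_eq_rpow]
    linarith
  have t2 : (1 - p) * Real.log (1 - p)⁻¹ ≤ u * √u := by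
    have hx : 0 < 1 - p := by linarith
    have h2 := Real.log_le_sub_one_of_pos (inv_pos.mpr hx)
    have h3 : (1 - p) * Real.log (1 - p)⁻¹ ≤ (1 - p) * ((1 - p)⁻¹ - 1) :=
      mul_le_mul_of_nonneg_left h2 hx.le
    have h4 : (1 - p) * ((1 - p)⁻¹ - 1) = p := by
      field_simp
      ring
    have h5 : p ≤ u * √u := by
      have h6 : u ^ 2 ≤ u * √u := by
        have h7 : u ≤ √u := by nlinarith
        nlinarith
      nlinarith [sq_nonneg u]
    linarith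
  unfold Real.binEntropy
  linarith

/-- Near zero the bracket is smaller than at zero. -/
theorem Bu_lt_zero {δ : ℝ} (h0 : 0 < δ) (h1 : δ < 1 / 2) :
    ∃ u, 0 < u ∧ u ≤ 1 - 2 * δ ∧ Bu δ u < Bu δ 0 := by
  have hl2 : 0 < Real.log 2 := Real.log_pos (by norm_num)
  -- derivative of `u ↦ hh (u² + 2δu + 2δ)` at zero
  set q : ℝ := 1 / 2 - 1 / 2 * √(1 - 2 * δ) with hq
  have hs0 : 0 < √(1 - 2 * δ) := Real.sqrt_pos.mpr (by linarith)
  have hs1 : √(1 - 2 * δ) < 1 := by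
    have h7 := Real.sqrt_lt_sqrt (show (0 : ℝ) ≤ 1 - 2 * δ by linarith)
      (show 1 - 2 * δ < 1 by linarith)
    rwa [Real.sqrt_one] at h7
  have hq0 : 0 < q := by rw [hq]; linarith
  have hq1 : q < 1 / 2 := by rw [hq]; linarith
  have hd1 : HasDerivAt (fun u : ℝ => 1 - (u ^ 2 + 2 * δ * u + 2 * δ)) (-(2 * δ)) 0 := by
    have h := ((hasDerivAt_id (0 : ℝ)).pow 2).add ((hasDerivAt_id (0 : ℝ)).const_mul (2 * δ))
    have h2 := (h.add_const (2 * δ)).const_sub 1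
    simpa using h2
  have hne : (1 - ((0 : ℝ) ^ 2 + 2 * δ * 0 + 2 * δ)) ≠ 0 := by
    have : (1 - ((0 : ℝ) ^ 2 + 2 * δ * 0 + 2 * δ)) = 1 - 2 * δ := by ring
    rw [this]
    linarith
  have hd2 := (hd1.sqrt hne).const_mul (1 / 2)
  have hd3 := hd2.const_sub (1 / 2)
  have e0 : (1 / 2 - 1 / 2 * √(1 - ((0 : ℝ) ^ 2 + 2 * δ * 0 + 2 * δ))) = q := by
    rw [hq]
    congr 3
    ring
  have hd4 : HasDerivAt Real.binEntropy (Real.log (1 - q) - Real.log q)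
      ((fun u : ℝ => 1 / 2 - 1 / 2 * √(1 - (u ^ 2 + 2 * δ * u + 2 * δ))) 0) := by
    simp only [e0]
    exact Real.hasDerivAt_binEntropy hq0.ne' (by linarith)
  have hd5 := (hd4.comp (0 : ℝ) hd3).div_const (Real.log 2)
  set D : ℝ := (Real.log (1 - q) - Real.log q) *
    -(1 / 2 * (-(2 * δ) / (2 * √(1 - ((0 : ℝ) ^ 2 + 2 * δ * 0 + 2 * δ))))) / Real.log 2 with hD
  have hDpos : 0 < D := by
    rw [hD]
    have e1 : (1 - ((0 : ℝ) ^ 2 + 2 * δ * 0 + 2 * δ)) = 1 - 2 * δ := by ring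
    rw [e1]
    have h2 : 0 < Real.log (1 - q) - Real.log q := by
      have := Real.log_lt_log hq0 (show q < 1 - q by linarith)
      linarith
    have h3 : 0 < -(1 / 2 * (-(2 * δ) / (2 * √(1 - 2 * δ)))) := by
      have : -(1 / 2 * (-(2 * δ) / (2 * √(1 - 2 * δ)))) = (1 / 2) * ((2 * δ) / (2 * √(1 - 2 * δ))) := by
        ring
      rw [this]
      positivity
    positivity
  have hd6 : HasDerivAt (fun u : ℝ => hh (u ^ 2 + 2 * δ * u + 2 * δ)) D 0 := by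
    have h : (fun u : ℝ => hh (u ^ 2 + 2 * δ * u + 2 * δ)) = fun u =>
        (Real.binEntropy ∘ fun u : ℝ => 1 / 2 - 1 / 2 * √(1 - (u ^ 2 + 2 * δ * u + 2 * δ))) u
          / Real.log 2 := by
      funext u
      rw [hh_eq]
      rfl
    rw [h]
    exact hd5
  have hslope := hd6.tendsto_slope_zero_right
  simp only [zero_add, smul_eq_mul] at hslope
  have hev1 : ∀ᶠ u : ℝ in 𝓝[>] 0, D / 2 < u⁻¹ * (hh (u ^ 2 + 2 * δ * u + 2 * δ)
      - hh ((0 : ℝ) ^ 2 + 2 * δ * 0 + 2 * δ)) := by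
    refine (hslope.eventually (lt_mem_nhds (show D / 2 < D by linarith))).mono fun u hu => ?_
    exact hu
  have hev2 : ∀ᶠ u : ℝ in 𝓝[>] 0, 5 * √u < D / 2 * Real.log 2 := by
    have hc : Tendsto (fun u : ℝ => 5 * √u) (𝓝[>] 0) (𝓝 (5 * √0)) :=
      ((continuous_const.mul Real.continuous_sqrt).tendsto 0).mono_left nhdsWithin_le_nhds
    rw [Real.sqrt_zero, mul_zero] at hc
    exact hc.eventually (gt_mem_nhds (by positivity))
  have hev3 : ∀ᶠ u : ℝ in 𝓝[>] 0, u ∈ Ioo (0 : ℝ) (1 - 2 * δ) :=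
    Ioo_mem_nhdsGT (by linarith)
  obtain ⟨u, ⟨hu1, hu2⟩, hu3⟩ := ((hev1.and hev2).and hev3).exists
  refine ⟨u, hu3.1, hu3.2.le, ?_⟩
  have hu0 := hu3.1
  have hule : u ≤ 1 := by linarith [hu3.2]
  have k1 := hh_sq_le hu0 hule
  have k2 : hh (u ^ 2) < D / 2 * u := by
    have : hh (u ^ 2) * Real.log 2 < D / 2 * u * Real.log 2 := by
      have h5 : 5 * u * √u < D / 2 * Real.log 2 * u := by nlinarith
      linarith
    exact lt_of_mul_lt_mul_right this hl2.le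
  have k3 : D / 2 * u < hh (u ^ 2 + 2 * δ * u + 2 * δ) - hh ((0 : ℝ) ^ 2 + 2 * δ * 0 + 2 * δ) := by
    have h6 := mul_lt_mul_of_pos_right hu1 hu0
    have h7 : u⁻¹ * (hh (u ^ 2 + 2 * δ * u + 2 * δ) - hh ((0 : ℝ) ^ 2 + 2 * δ * 0 + 2 * δ)) * u
        = hh (u ^ 2 + 2 * δ * u + 2 * δ) - hh ((0 : ℝ) ^ 2 + 2 * δ * 0 + 2 * δ) := by
      field_simp
    rw [h7] at h6
    exact h6
  have k4 : hh ((0 : ℝ) ^ 2) = 0 := by
    rw [hh_eq]
    simp
  unfold Bu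
  rw [k4]
  have k5 := k2.trans k3
  generalize hh (u ^ 2 + 2 * δ * u + 2 * δ) = X1 at k5 ⊢
  generalize hh ((0 : ℝ) ^ 2 + 2 * δ * 0 + 2 * δ) = X2 at k5 ⊢
  generalize hh (u ^ 2) = X3 at k5 ⊢
  linarith

/-- If a number is smaller than every bracket, then it is smaller than the minimum. -/
theorem lt_B {δ r : ℝ} (h0 : 0 < δ) (h1 : δ < 1 / 2)
    (h : ∀ u ∈ Ioc 0 (1 - 2 * δ), r < Bu δ u) : r < B δ := by
  obtain ⟨u0, hu0, hmin⟩ := (isCompact_Icc (a := (0 : ℝ)) (b := 1 - 2 * δ)).exists_isMinOn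
    (nonempty_Icc.mpr (by linarith)) (Bu_continuous δ).continuousOn
  obtain ⟨u1, hu1, hu1', hlt⟩ := Bu_lt_zero h0 h1
  have hpos : 0 < u0 := by
    rcases hu0.1.eq_or_lt with h2 | h2
    · exfalso
      have h3 : Bu δ u0 ≤ Bu δ u1 := hmin ⟨hu1.le, hu1'⟩
      rw [← h2] at h3
      linarith
    · exact h2
  have hB : B δ = Bu δ u0 := by
    unfold B
    refine IsLeast.csInf_eq ⟨⟨u0, ⟨hpos, hu0.2⟩, rfl⟩, ?_⟩
    rintro _ ⟨u, hu, rfl⟩
    exact hmin ⟨hu.1.le, hu.2⟩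
  rw [hB]
  exact h u0 ⟨hpos, hu0.2⟩

theorem B_attained {δ : ℝ} (h0 : 0 < δ) (h1 : δ < 1 / 2)
    (h : ∀ u ∈ Ioc 0 (1 - 2 * δ), R δ < Bu δ u) : R δ < B δ :=
  lt_B h0 h1 h

end Pool.Agent.H390R2.LP.Bin
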