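import Mathlib

/-!
Interface for the skew-information (noncommutative linear programming) bound.

A one-site state is `ρ = ∑ a, lam a |u a⟩⟨u a|` on `ℝ^Ω`; a basis state `ω : Ω` has position
`pos ω : X`, the rest of the information in `ω` is an ancilla. `w` is an orthonormal basis adapted to
the positions in which the position-dephased state is diagonal, with eigenvalues `g`.
-/

open Finset

namespace Pool.Agent.H390R2.LP

/-- One-site data. -/
structure Site (Ω X : Type) [Fintype Ω] [DecidableEq Ω] where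
  pos : Ω → X
  u : Ω → Ω → ℝ
  w : Ω → Ω → ℝ
  lam : Ω → ℝ
  g : Ω → ℝ
  lab : Ω → X
  u_orth : ∀ a b, ∑ ω, u a ω * u b ω = if a = b then 1 else 0
  w_orth : ∀ a b, ∑ ω, w a ω * w b ω = if a = b then 1 else 0
  lam_nonneg : ∀ a, 0 ≤ lam a
  lam_sum : ∑ a, lam a = 1
  w_supp : ∀ c ω, pos ω ≠ lab c → w c ω = 0
  w_diag : ∀ c c', lab c = lab c' →
    ∑ a, lam a * (∑ ω, u a ω * w c ω) * (∑ ω, u a ω * w c' ω) = if c = c' then g c else 0

variable {Ω X I : Type} [Fintype Ω] [DecidableEq Ω] [Fintype I]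

/-- von Neumann entropy of the state (natural logarithm) -/
noncomputable def Site.S (s : Site Ω X) : ℝ := ∑ a, Real.negMulLog (s.lam a)

/-- entropy of the position-dephased state -/
noncomputable def Site.h (s : Site Ω X) : ℝ := ∑ c, Real.negMulLog (s.g c)

/-- energy: `∑ |√ρ(x,x')|² ∑ᵢ (fᵢ x - fᵢ x')²` written in the eigenbasis -/
noncomputable def Site.E (s : Site Ω X) (f : I → X → ℝ) : ℝ :=
  2 * ∑ i, (∑ a, s.lam a * ∑ ω, s.u a ω ^ 2 * f i (s.pos ω) ^ 2
    - ∑ a, ∑ b, √(s.lam a * s.lam b) * (∑ ω, s.u a ω * f i (s.pos ω) * s.u b ω) ^ 2)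

/-- The product theorem: if `Xⁿ` is covered exactly `M` times by sets of squared distance `≥ d`
(squared distance of `x, y` = `∑ k i, (fᵢ(x k) - fᵢ(y k))²`) and the number of sets is at most
`M exp (n (h - S - ε))`, then `d ≤ n (E + ε)`. To be proved in `Pool.Agent.H390R2.LP.Main` as
`theorem iid : IID`. -/
def IID : Prop :=
  ∀ (Ω X I : Type) [Fintype Ω] [DecidableEq Ω] [Fintype X] [DecidableEq X] [Fintype I]
    (s : Site Ω X) (f : I → X → ℝ) (ε : ℝ), 0 < ε → ∃ n0 : ℕ, ∀ n ≥ n0,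
    ∀ (V : Type) [Fintype V] (S : V → Finset (Fin n → X)) (M : ℕ) (d : ℝ), 0 < M →
    (∀ x, (univ.filter fun v => x ∈ S v).card = M) →
    (∀ v, ∀ x ∈ S v, ∀ y ∈ S v, x ≠ y → d ≤ ∑ k, ∑ i, (f i (x k) - f i (y k)) ^ 2) →
    (Fintype.card V : ℝ) ≤ M * Real.exp (n * (s.h - s.S - ε)) →
    d ≤ n * (s.E f + ε)

end Pool.Agent.H390R2.LP
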