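import Mathlib
import Pool.Agent.H390R2.LP.Iface
import Pool.Agent.H390R2.LP.BinDefs

/-!
The one-site data for binary codes: a qubit state whose second basis vector is rotated a little
into an ancilla dimension.
-/

set_option autoImplicit false

open Finset Filter Topology

namespace Pool.Agent.H390R2.LP

open Bin

namespace Pert

/-- Diagonalisation of a symmetric `2 × 2` matrix. -/
theorem rot (A B D : ℝ) : ∃ α β : ℝ, α ^ 2 + β ^ 2 = 1 ∧
    (α ^ 2 - β ^ 2) * B = α * β * (A - D) ∧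
    α ^ 2 * A + 2 * α * β * B + β ^ 2 * D = (A + D + √((A - D) ^ 2 + 4 * B ^ 2)) / 2 ∧
    β ^ 2 * A - 2 * α * β * B + α ^ 2 * D = (A + D - √((A - D) ^ 2 + 4 * B ^ 2)) / 2 := by
  set z : ℂ := ⟨A - D, 2 * B⟩ with hz
  set η := z.arg / 2 with hη
  have h2 : z.arg = 2 * η := by rw [hη]; ring
  have hc : ‖z‖ * Real.cos (2 * η) = A - D := by
    rw [← h2, Complex.norm_mul_cos_arg]
  have hs : ‖z‖ * Real.sin (2 * η) = 2 * B := by
    rw [← h2, Complex.norm_mul_sin_arg]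
  have hn : ‖z‖ = √((A - D) ^ 2 + 4 * B ^ 2) := by
    rw [Complex.norm_def, Complex.normSq_apply]
    congr 1
    simp only [hz]
    ring
  have h1 := Real.cos_sq_add_sin_sq η
  rw [Real.cos_two_mul'] at hc
  rw [Real.sin_two_mul] at hs
  have h3 : (Real.cos η ^ 2 + Real.sin η ^ 2) ^ 2 = 1 := by rw [h1]; norm_num
  refine ⟨Real.cos η, Real.sin η, h1, ?_, ?_, ?_⟩
  · rw [← hc]
    linear_combination (-(Real.cos η ^ 2 - Real.sin η ^ 2) / 2) * hs
  · rw [← hn]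
    linear_combination ((A + D) / 2) * h1 - ((Real.cos η ^ 2 - Real.sin η ^ 2) / 2) * hc -
      (Real.cos η * Real.sin η) * hs + (‖z‖ / 2) * h3
  · rw [← hn]
    linear_combination ((A + D) / 2) * h1 + ((Real.cos η ^ 2 - Real.sin η ^ 2) / 2) * hc +
      (Real.cos η * Real.sin η) * hs - (‖z‖ / 2) * h3

/-- The one-site data. -/
noncomputable def mk (r1 r2 c s C S α β : ℝ) (hr : r1 ^ 2 + r2 ^ 2 = 1) (hcs : c ^ 2 + s ^ 2 = 1)
    (hCS : C ^ 2 + S ^ 2 = 1) (hαβ : α ^ 2 + β ^ 2 = 1)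
    (hoff : (α ^ 2 - β ^ 2) * ((r1 ^ 2 - r2 ^ 2) * c * s * S) =
      α * β * ((r1 ^ 2 * c ^ 2 + r2 ^ 2 * s ^ 2) - (r1 ^ 2 * s ^ 2 + r2 ^ 2 * c ^ 2) * S ^ 2)) :
    Site (Fin 3) Bool where
  pos := ![false, true, false]
  u := ![![c, s * C, s * S], ![-s, c * C, c * S], ![0, -S, C]]
  w := ![![0, 1, 0], ![α, 0, β], ![-β, 0, α]]
  lam := ![r1 ^ 2, r2 ^ 2, 0]
  g := ![(r1 ^ 2 * s ^ 2 + r2 ^ 2 * c ^ 2) * C ^ 2,
    α ^ 2 * (r1 ^ 2 * c ^ 2 + r2 ^ 2 * s ^ 2) + 2 * α * β * ((r1 ^ 2 - r2 ^ 2) * c * s * S) +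
      β ^ 2 * ((r1 ^ 2 * s ^ 2 + r2 ^ 2 * c ^ 2) * S ^ 2),
    β ^ 2 * (r1 ^ 2 * c ^ 2 + r2 ^ 2 * s ^ 2) - 2 * α * β * ((r1 ^ 2 - r2 ^ 2) * c * s * S) +
      α ^ 2 * ((r1 ^ 2 * s ^ 2 + r2 ^ 2 * c ^ 2) * S ^ 2)]
  lab := ![true, false, false]
  u_orth := by
    intro a b
    fin_cases a <;> fin_cases b <;> simp [Fin.sum_univ_three]
    · linear_combination hcs + s ^ 2 * hCS
    · linear_combination (c * s) * hCS
    · ring
    · linear_combination (c * s) * hCS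
    · linear_combination hcs + c ^ 2 * hCS
    · ring
    · ring
    · ring
    · linear_combination hCS
  w_orth := by
    intro a b
    fin_cases a <;> fin_cases b <;> simp [Fin.sum_univ_three]
    · linear_combination hαβ
    · ring
    · ring
    · linear_combination hαβ
  lam_nonneg := by
    intro a
    fin_cases a <;> simp <;> positivity
  lam_sum := by simp [Fin.sum_univ_three]; linarith
  w_supp := by
    intro a ω
    fin_cases a <;> fin_cases ω <;> simp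
  w_diag := by
    intro a b
    fin_cases a <;> fin_cases b <;> simp [Fin.sum_univ_three]
    · ring
    · ring
    · linear_combination hoff
    · linear_combination hoff
    · ring


theorem mk_E (r1 r2 c s C S α β : ℝ) (hr : r1 ^ 2 + r2 ^ 2 = 1) (hcs : c ^ 2 + s ^ 2 = 1)
    (hCS : C ^ 2 + S ^ 2 = 1) (hαβ : α ^ 2 + β ^ 2 = 1)
    (hoff : (α ^ 2 - β ^ 2) * ((r1 ^ 2 - r2 ^ 2) * c * s * S) =
      α * β * ((r1 ^ 2 * c ^ 2 + r2 ^ 2 * s ^ 2) - (r1 ^ 2 * s ^ 2 + r2 ^ 2 * c ^ 2) * S ^ 2))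
    (h1 : 0 ≤ r1) (h2 : 0 ≤ r2) :
    (mk r1 r2 c s C S α β hr hcs hCS hαβ hoff).E (fun (_ : Unit) b => if b then 1 else 0) =
      2 * (C ^ 2 * (r1 ^ 2 * s ^ 2 + r2 ^ 2 * c ^ 2) -
        (C ^ 2 * (r1 * s ^ 2 + r2 * c ^ 2)) ^ 2) := by
  have e1 : √(r1 ^ 2 * r1 ^ 2) = r1 ^ 2 := Real.sqrt_mul_self (by positivity)
  have e2 : √(r2 ^ 2 * r2 ^ 2) = r2 ^ 2 := Real.sqrt_mul_self (by positivity)
  have e3 : √(r1 ^ 2 * r2 ^ 2) = r1 * r2 := by
    rw [← mul_pow]; exact Real.sqrt_sq (by positivity)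
  have e4 : √(r2 ^ 2 * r1 ^ 2) = r1 * r2 := by
    rw [mul_comm]; exact e3
  unfold Site.E mk
  simp [Fin.sum_univ_three, e1, e2, e3, e4]
  ring

section analysis

variable (ψ κ c s : ℝ)

noncomputable def P1 (t : ℝ) : ℝ :=
  Real.cos (ψ + κ * t) ^ 2 * s ^ 2 + Real.sin (ψ + κ * t) ^ 2 * c ^ 2

noncomputable def P0 (t : ℝ) : ℝ :=
  Real.cos (ψ + κ * t) ^ 2 * c ^ 2 + Real.sin (ψ + κ * t) ^ 2 * s ^ 2

noncomputable def LL (t : ℝ) : ℝ := Real.cos (ψ + κ * t) ^ 2 - Real.sin (ψ + κ * t) ^ 2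

noncomputable def Rt (t : ℝ) : ℝ :=
  √((P0 ψ κ c s t - P1 ψ κ c s t * t) ^ 2 + 4 * ((LL ψ κ t * c * s) ^ 2 * t))

noncomputable def G1 (t : ℝ) : ℝ := (P0 ψ κ c s t + P1 ψ κ c s t * t + Rt ψ κ c s t) / 2

noncomputable def FF (t : ℝ) : ℝ :=
  Real.negMulLog (P1 ψ κ c s t * (1 - t)) + Real.negMulLog (G1 ψ κ c s t) -
    Real.negMulLog (Real.cos (ψ + κ * t) ^ 2) - Real.negMulLog (Real.sin (ψ + κ * t) ^ 2)

noncomputable def EE (t : ℝ) : ℝ :=
  2 * ((1 - t) * P1 ψ κ c s t -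
    ((1 - t) * (Real.cos (ψ + κ * t) * s ^ 2 + Real.sin (ψ + κ * t) * c ^ 2)) ^ 2)

theorem site_t {t : ℝ} (ht0 : 0 < t) (ht1 : t < 1) (h1 : 0 ≤ Real.cos (ψ + κ * t))
    (h2 : 0 ≤ Real.sin (ψ + κ * t)) (hcs : c ^ 2 + s ^ 2 = 1) :
    ∃ σ : Site (Fin 3) Bool, σ.E (fun (_ : Unit) b => if b then 1 else 0) = EE ψ κ c s t ∧
      σ.S = Real.negMulLog (Real.cos (ψ + κ * t) ^ 2) +
        Real.negMulLog (Real.sin (ψ + κ * t) ^ 2) ∧
      σ.h = Real.negMulLog (P1 ψ κ c s t * (1 - t)) + Real.negMulLog (G1 ψ κ c s t) +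
        Real.negMulLog ((P0 ψ κ c s t + P1 ψ κ c s t * t - Rt ψ κ c s t) / 2) := by
  have hS : √t ^ 2 = t := Real.sq_sqrt ht0.le
  have hC : √(1 - t) ^ 2 = 1 - t := Real.sq_sqrt (by linarith)
  obtain ⟨α, β, hαβ, hoff, hg1, hg2⟩ := rot (P0 ψ κ c s t) (LL ψ κ t * c * s * √t)
    (P1 ψ κ c s t * t)
  have hR : √((P0 ψ κ c s t - P1 ψ κ c s t * t) ^ 2 + 4 * (LL ψ κ t * c * s * √t) ^ 2) =
      Rt ψ κ c s t := by
    unfold Rt
    congr 2
    rw [mul_pow (LL ψ κ t * c * s), hS]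
  rw [hR] at hg1 hg2
  have hr := Real.cos_sq_add_sin_sq (ψ + κ * t)
  have hoff' : (α ^ 2 - β ^ 2) *
      ((Real.cos (ψ + κ * t) ^ 2 - Real.sin (ψ + κ * t) ^ 2) * c * s * √t) =
      α * β * ((Real.cos (ψ + κ * t) ^ 2 * c ^ 2 + Real.sin (ψ + κ * t) ^ 2 * s ^ 2) -
        (Real.cos (ψ + κ * t) ^ 2 * s ^ 2 + Real.sin (ψ + κ * t) ^ 2 * c ^ 2) * √t ^ 2) := by
    rw [hS]
    exact hoff
  refine ⟨mk (Real.cos (ψ + κ * t)) (Real.sin (ψ + κ * t)) c s (√(1 - t)) (√t) α β hr hcs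
    (by rw [hS, hC]; ring) hαβ hoff', ?_, ?_, ?_⟩
  · rw [mk_E _ _ _ _ _ _ _ _ _ _ _ _ _ h1 h2, hC]
    rfl
  · unfold Site.S mk
    simp [Fin.sum_univ_three]
  · unfold Site.h mk
    simp only [Fin.sum_univ_three, Matrix.cons_val_zero, Matrix.cons_val_one, Matrix.cons_val]
    rw [hC, hS]
    congr 1
    · congr 1
      unfold G1
      rw [← hg1]
      rfl
    · rw [← hg2]
      rfl

theorem diff_P1 : Differentiable ℝ (P1 ψ κ c s) := by unfold P1; fun_prop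

theorem diff_P0 : Differentiable ℝ (P0 ψ κ c s) := by unfold P0; fun_prop

theorem diff_LL : Differentiable ℝ (LL ψ κ) := by unfold LL; fun_prop

theorem P1_zero_pos (h1 : 0 < Real.cos ψ) (h2 : 0 < Real.sin ψ) (hcs : c ^ 2 + s ^ 2 = 1) :
    0 < P1 ψ κ c s 0 := by
  unfold P1
  rw [mul_zero, add_zero]
  rcases eq_or_ne c 0 with hc | hc
  · have hs : s ^ 2 = 1 := by rw [hc] at hcs; linarith
    rw [hs, hc]
    positivity
  · positivity

theorem P0_zero_pos (h1 : 0 < Real.cos ψ) (h2 : 0 < Real.sin ψ) (hcs : c ^ 2 + s ^ 2 = 1) :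
    0 < P0 ψ κ c s 0 := by
  unfold P0
  rw [mul_zero, add_zero]
  rcases eq_or_ne c 0 with hc | hc
  · have hs : s ^ 2 = 1 := by rw [hc] at hcs; linarith
    rw [hs, hc]
    positivity
  · positivity

theorem Rt_zero (h : 0 < P0 ψ κ c s 0) : Rt ψ κ c s 0 = P0 ψ κ c s 0 := by
  unfold Rt
  rw [mul_zero, mul_zero, mul_zero, sub_zero, add_zero]
  exact Real.sqrt_sq h.le

theorem G1_zero (h : 0 < P0 ψ κ c s 0) : G1 ψ κ c s 0 = P0 ψ κ c s 0 := by
  unfold G1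
  rw [Rt_zero ψ κ c s h]
  ring

theorem diff_Rt (h : 0 < P0 ψ κ c s 0) : DifferentiableAt ℝ (Rt ψ κ c s) 0 := by
  have h1 := diff_P1 ψ κ c s
  have h2 := diff_P0 ψ κ c s
  have h3 := diff_LL ψ κ
  unfold Rt
  refine DifferentiableAt.sqrt (by fun_prop) ?_
  rw [mul_zero, mul_zero, mul_zero, sub_zero, add_zero]
  positivity

theorem diff_G1 (h : 0 < P0 ψ κ c s 0) : DifferentiableAt ℝ (G1 ψ κ c s) 0 := by
  have h1 := (diff_P1 ψ κ c s) 0
  have h2 := (diff_P0 ψ κ c s) 0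
  have h3 := diff_Rt ψ κ c s h
  unfold G1
  fun_prop

theorem diff_FF (h1 : 0 < Real.cos ψ) (h2 : 0 < Real.sin ψ) (hcs : c ^ 2 + s ^ 2 = 1) :
    DifferentiableAt ℝ (FF ψ κ c s) 0 := by
  have hp0 := P0_zero_pos ψ κ c s h1 h2 hcs
  have hp1 := P1_zero_pos ψ κ c s h1 h2 hcs
  have a1 := (diff_P1 ψ κ c s) 0
  have a2 := diff_G1 ψ κ c s hp0
  unfold FF
  have b1 : DifferentiableAt ℝ (fun t => Real.negMulLog (P1 ψ κ c s t * (1 - t))) 0 := by
    refine DifferentiableAt.comp (0 : ℝ) (g := Real.negMulLog)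
      (f := fun t => P1 ψ κ c s t * (1 - t)) ?_ (by fun_prop)
    rw [Real.differentiableAt_negMulLog_iff]
    rw [sub_zero, mul_one]
    exact hp1.ne'
  have b2 : DifferentiableAt ℝ (fun t => Real.negMulLog (G1 ψ κ c s t)) 0 := by
    refine DifferentiableAt.comp (0 : ℝ) (g := Real.negMulLog) (f := G1 ψ κ c s) ?_ a2
    rw [Real.differentiableAt_negMulLog_iff, G1_zero ψ κ c s hp0]
    exact hp0.ne'
  have b3 : DifferentiableAt ℝ (fun t => Real.negMulLog (Real.cos (ψ + κ * t) ^ 2)) 0 := by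
    refine DifferentiableAt.comp (0 : ℝ) (g := Real.negMulLog)
      (f := fun t => Real.cos (ψ + κ * t) ^ 2) ?_ (by fun_prop)
    rw [Real.differentiableAt_negMulLog_iff]
    rw [mul_zero, add_zero]
    positivity
  have b4 : DifferentiableAt ℝ (fun t => Real.negMulLog (Real.sin (ψ + κ * t) ^ 2)) 0 := by
    refine DifferentiableAt.comp (0 : ℝ) (g := Real.negMulLog)
      (f := fun t => Real.sin (ψ + κ * t) ^ 2) ?_ (by fun_prop)
    rw [Real.differentiableAt_negMulLog_iff]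
    rw [mul_zero, add_zero]
    positivity
  exact ((b1.add b2).sub b3).sub b4

theorem prod_id {t : ℝ} (ht : 0 ≤ t) (hcs : c ^ 2 + s ^ 2 = 1) :
    G1 ψ κ c s t * ((P0 ψ κ c s t + P1 ψ κ c s t * t - Rt ψ κ c s t) / 2) =
      t * (Real.cos (ψ + κ * t) ^ 2 * Real.sin (ψ + κ * t) ^ 2) := by
  have hR : Rt ψ κ c s t ^ 2 =
      (P0 ψ κ c s t - P1 ψ κ c s t * t) ^ 2 + 4 * ((LL ψ κ t * c * s) ^ 2 * t) := by
    unfold Rt
    exact Real.sq_sqrt (by positivity)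
  have h1 : P0 ψ κ c s t * P1 ψ κ c s t - (LL ψ κ t * c * s) ^ 2 =
      Real.cos (ψ + κ * t) ^ 2 * Real.sin (ψ + κ * t) ^ 2 := by
    have h3 : (c ^ 2 + s ^ 2) ^ 2 = 1 := by rw [hcs]; norm_num
    unfold P0 P1 LL
    linear_combination (Real.cos (ψ + κ * t) ^ 2 * Real.sin (ψ + κ * t) ^ 2) * h3
  unfold G1
  linear_combination (-1 / 4) * hR + t * h1

theorem ev_H (h1 : 0 < Real.cos ψ) (h2 : 0 < Real.sin ψ) (hcs : c ^ 2 + s ^ 2 = 1) :
    ∀ᶠ t in 𝓝[>] (0 : ℝ), FF ψ κ c s 0 < FF ψ κ c s t +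
      Real.negMulLog ((P0 ψ κ c s t + P1 ψ κ c s t * t - Rt ψ κ c s t) / 2) := by
  have hp0 := P0_zero_pos ψ κ c s h1 h2 hcs
  have hG := (diff_G1 ψ κ c s hp0).continuousAt
  have hG0 := G1_zero ψ κ c s hp0
  set w : ℝ → ℝ := fun t =>
    Real.cos (ψ + κ * t) ^ 2 * Real.sin (ψ + κ * t) ^ 2 / G1 ψ κ c s t with hw
  have hw0 : 0 < w 0 := by
    simp only [hw]
    rw [hG0, mul_zero, add_zero]
    positivity
  have hwc : ContinuousAt w 0 := by
    simp only [hw]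
    refine ContinuousAt.div (by fun_prop) hG ?_
    rw [hG0]
    exact hp0.ne'
  have hwt : Tendsto w (𝓝[>] (0 : ℝ)) (𝓝 (w 0)) := hwc.tendsto.mono_left nhdsWithin_le_nhds
  have hlog : Tendsto (fun t : ℝ => -Real.log t) (𝓝[>] (0 : ℝ)) atTop :=
    tendsto_neg_atBot_atTop.comp Real.tendsto_log_nhdsGT_zero
  have hprod : Tendsto (fun t : ℝ => w t * -Real.log t) (𝓝[>] (0 : ℝ)) atTop :=
    Tendsto.pos_mul_atTop hw0 hwt hlog
  have heta : Tendsto (fun t : ℝ => Real.negMulLog (w t)) (𝓝[>] (0 : ℝ))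
      (𝓝 (Real.negMulLog (w 0))) :=
    (Real.continuous_negMulLog.tendsto _).comp hwt
  have hslope : Tendsto (slope (FF ψ κ c s) 0) (𝓝[>] (0 : ℝ)) (𝓝 (deriv (FF ψ κ c s) 0)) :=
    (diff_FF ψ κ c s h1 h2 hcs).hasDerivAt.tendsto_slope.mono_left
      (nhdsWithin_mono _ (fun x (hx : 0 < x) => hx.ne'))
  have hall := (hslope.add heta).add_atTop hprod
  have hev := hall.eventually_gt_atTop 0
  have hGpos : ∀ᶠ t in 𝓝[>] (0 : ℝ), 0 < G1 ψ κ c s t := by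
    have : ∀ᶠ t in 𝓝 (0 : ℝ), 0 < G1 ψ κ c s t :=
      hG.eventually_const_lt (by rw [hG0]; exact hp0)
    exact this.filter_mono nhdsWithin_le_nhds
  have hwpos : ∀ᶠ t in 𝓝[>] (0 : ℝ), 0 < w t := hwt.eventually_const_lt hw0
  filter_upwards [hev, hGpos, hwpos, self_mem_nhdsWithin] with t ht hGt hwtp ht0
  have ht0' : (0 : ℝ) < t := ht0
  have e1 : (P0 ψ κ c s t + P1 ψ κ c s t * t - Rt ψ κ c s t) / 2 = t * w t := by
    have := prod_id ψ κ c s ht0'.le hcs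
    simp only [hw]
    rw [← mul_div_assoc, eq_div_iff hGt.ne', mul_comm]
    exact this
  rw [e1, Real.negMulLog_mul]
  have e2 : Real.negMulLog t = t * -Real.log t := by
    unfold Real.negMulLog; ring
  rw [e2]
  rw [slope_def_field, sub_zero] at ht
  have e3 := mul_pos ht0' ht
  have e4 : t * ((FF ψ κ c s t - FF ψ κ c s 0) / t + Real.negMulLog (w t) +
      w t * -Real.log t) = FF ψ κ c s t - FF ψ κ c s 0 + (w t * (t * -Real.log t) +
        t * Real.negMulLog (w t)) := by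
    field_simp
    ring
  rw [e4] at e3
  linarith

theorem EE_eq (hcs : c ^ 2 + s ^ 2 = 1) (t : ℝ) : EE ψ κ c s t =
    2 * ((1 - t) * (c ^ 2 * s ^ 2 * (1 - Real.sin (2 * (ψ + κ * t))) +
      t * (Real.cos (ψ + κ * t) * s ^ 2 + Real.sin (ψ + κ * t) * c ^ 2) ^ 2)) := by
  have h := Real.cos_sq_add_sin_sq (ψ + κ * t)
  unfold EE P1
  rw [Real.sin_two_mul]
  have hs : s ^ 2 = 1 - c ^ 2 := by linarith
  have hc : Real.cos (ψ + κ * t) ^ 2 = 1 - Real.sin (ψ + κ * t) ^ 2 := by linarith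
  rw [hs]
  linear_combination (2 * (1 - t) * c ^ 2 * (1 - c ^ 2)) * hc

theorem EE_zero (hcs : c ^ 2 + s ^ 2 = 1) :
    EE ψ κ c s 0 = 2 * (c ^ 2 * s ^ 2 * (1 - Real.sin (2 * ψ))) := by
  rw [EE_eq ψ κ c s hcs]
  simp

theorem ev_E (h1 : 0 < Real.cos (2 * ψ)) (hc : c ≠ 0) (hs : s ≠ 0) (hcs : c ^ 2 + s ^ 2 = 1) :
    ∃ κ : ℝ, ∀ᶠ t in 𝓝[>] (0 : ℝ),
      EE ψ κ c s t < 2 * (c ^ 2 * s ^ 2 * (1 - Real.sin (2 * ψ))) := by
  have hcs2 : 0 < c ^ 2 * s ^ 2 := by positivity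
  set k : ℝ := 1 / (Real.cos (2 * ψ) * (c ^ 2 * s ^ 2)) with hk
  refine ⟨k, ?_⟩
  have d0 : HasDerivAt (fun t : ℝ => ψ + k * t) k 0 := by
    simpa using ((hasDerivAt_id (0 : ℝ)).const_mul k).const_add ψ
  have d1 : HasDerivAt (fun t : ℝ => 2 * (ψ + k * t)) (2 * k) 0 := d0.const_mul 2
  have d2 : HasDerivAt (fun t : ℝ => Real.sin (2 * (ψ + k * t))) (Real.cos (2 * ψ) * (2 * k)) 0 := by
    have := d1.sin
    simpa using this
  have d3 : DifferentiableAt ℝ (fun t : ℝ =>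
      (Real.cos (ψ + k * t) * s ^ 2 + Real.sin (ψ + k * t) * c ^ 2) ^ 2) 0 := by fun_prop
  have d4 : HasDerivAt (fun t : ℝ => t *
      (Real.cos (ψ + k * t) * s ^ 2 + Real.sin (ψ + k * t) * c ^ 2) ^ 2)
      ((Real.cos ψ * s ^ 2 + Real.sin ψ * c ^ 2) ^ 2) 0 := by
    have := (hasDerivAt_id' (0 : ℝ)).fun_mul d3.hasDerivAt
    simpa using this
  have d5 : HasDerivAt (fun t : ℝ => c ^ 2 * s ^ 2 * (1 - Real.sin (2 * (ψ + k * t))) +
      t * (Real.cos (ψ + k * t) * s ^ 2 + Real.sin (ψ + k * t) * c ^ 2) ^ 2)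
      (c ^ 2 * s ^ 2 * (-(Real.cos (2 * ψ) * (2 * k))) +
        (Real.cos ψ * s ^ 2 + Real.sin ψ * c ^ 2) ^ 2) 0 :=
    ((d2.const_sub 1).const_mul _).add d4
  have d6 : HasDerivAt (EE ψ k c s) (2 * (-(c ^ 2 * s ^ 2 * (1 - Real.sin (2 * ψ))) +
      (c ^ 2 * s ^ 2 * (-(Real.cos (2 * ψ) * (2 * k))) +
        (Real.cos ψ * s ^ 2 + Real.sin ψ * c ^ 2) ^ 2))) 0 := by
    have d7 : HasDerivAt (fun t : ℝ => 1 - t) (-1) 0 := by
      simpa using (hasDerivAt_id (0 : ℝ)).const_sub 1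
    have := (d7.fun_mul d5).const_mul 2
    have e : EE ψ k c s = fun t : ℝ => 2 * ((1 - t) *
        (c ^ 2 * s ^ 2 * (1 - Real.sin (2 * (ψ + k * t))) +
        t * (Real.cos (ψ + k * t) * s ^ 2 + Real.sin (ψ + k * t) * c ^ 2) ^ 2)) := by
      funext t
      exact EE_eq ψ k c s hcs t
    rw [e]
    refine this.congr_deriv ?_
    rw [mul_zero, add_zero]
    ring
  have hneg : 2 * (-(c ^ 2 * s ^ 2 * (1 - Real.sin (2 * ψ))) +
      (c ^ 2 * s ^ 2 * (-(Real.cos (2 * ψ) * (2 * k))) +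
        (Real.cos ψ * s ^ 2 + Real.sin ψ * c ^ 2) ^ 2)) < 0 := by
    have e1 : c ^ 2 * s ^ 2 * (Real.cos (2 * ψ) * (2 * k)) = 2 := by
      rw [hk]
      field_simp
    have e2 : 0 ≤ c ^ 2 * s ^ 2 * (1 - Real.sin (2 * ψ)) :=
      mul_nonneg hcs2.le (by linarith [Real.sin_le_one (2 * ψ)])
    have e3 : (Real.cos ψ * s ^ 2 + Real.sin ψ * c ^ 2) ^ 2 ≤ 1 := by
      rw [sq_le_one_iff_abs_le_one, abs_le]
      have a1 := Real.cos_le_one ψ
      have a2 := Real.sin_le_one ψ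
      have a3 := Real.neg_one_le_cos ψ
      have a4 := Real.neg_one_le_sin ψ
      have a5 := sq_nonneg s
      have a6 := sq_nonneg c
      constructor <;> nlinarith
    linarith
  have hslope := d6.tendsto_slope.mono_left
    (nhdsWithin_mono (0 : ℝ) (fun x (hx : 0 < x) => hx.ne' : Set.Ioi (0 : ℝ) ⊆ {0}ᶜ))
  have hev := hslope.eventually_lt_const hneg
  filter_upwards [hev, self_mem_nhdsWithin] with t ht ht0
  have ht0' : (0 : ℝ) < t := ht0
  rw [slope_def_field, sub_zero, div_neg_iff] at ht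
  rw [EE_zero ψ k c s hcs] at ht
  rcases ht with ht | ht
  · linarith [ht.2]
  · linarith [ht.1]

end analysis

theorem hh_pq {p q x : ℝ} (h1 : p + q = 1) (h2 : 4 * p * q = x) :
    Real.log 2 * hh x = Real.negMulLog p + Real.negMulLog q := by
  have hl : Real.log 2 ≠ 0 := (Real.log_pos one_lt_two).ne'
  have key : ∀ y : ℝ, Real.log 2 * H2 y = Real.negMulLog y + Real.negMulLog (1 - y) := by
    intro y
    unfold H2 Real.negMulLog Real.logb
    field_simp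
    ring
  unfold hh
  rw [key]
  have h3 : √(1 - x) = |p - q| := by
    rw [← Real.sqrt_sq_eq_abs]
    congr 1
    rw [← h2]
    have : q = 1 - p := by linarith
    rw [this]
    ring
  rw [h3]
  rcases le_total p q with h | h
  · rw [abs_of_nonpos (by linarith)]
    have e1 : 1 / 2 - 1 / 2 * -(p - q) = p := by linarith
    have e2 : 1 - p = q := by linarith
    rw [e1, e2]
  · rw [abs_of_nonneg (by linarith)]
    have e1 : 1 / 2 - 1 / 2 * (p - q) = q := by linarith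
    have e2 : 1 - q = p := by linarith
    rw [e1, e2, add_comm]

end Pert

open Pert in
/-- For every `u` there is one-site data which beats the bracket `Bu d u`. -/
theorem exists_site {d u : ℝ} (hd0 : 0 < d) (hd1 : d < 1 / 2) (hu0 : 0 < u)
    (hu1 : u ≤ 1 - 2 * d) :
    ∃ s : Site (Fin 3) Bool, s.E (fun (_ : Unit) b => if b then 1 else 0) < d ∧
      1 - (s.h - s.S) / Real.log 2 < Bu d u := by
  have hu1' : u < 1 := by linarith
  set ψ := Real.arcsin u / 2 with hψ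
  have h2ψ : 2 * ψ = Real.arcsin u := by rw [hψ]; ring
  have hsin2 : Real.sin (2 * ψ) = u := by rw [h2ψ]; exact Real.sin_arcsin (by linarith) hu1'.le
  have hcos2 : 0 < Real.cos (2 * ψ) := by
    rw [h2ψ, Real.cos_arcsin]
    apply Real.sqrt_pos.2
    nlinarith
  have hψ0 : 0 < ψ := by
    have := Real.arcsin_pos.2 hu0
    linarith
  have hψ1 : ψ < Real.pi / 2 := by
    have := Real.arcsin_le_pi_div_two u
    have := Real.pi_pos
    linarith
  have hcosψ : 0 < Real.cos ψ := Real.cos_pos_of_mem_Ioo ⟨by linarith [Real.pi_pos], hψ1⟩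
  have hsinψ : 0 < Real.sin ψ := Real.sin_pos_of_pos_of_lt_pi hψ0 (by linarith [Real.pi_pos])
  set v := 2 * d / (1 - u) with hv
  have hv0 : 0 < v := by
    rw [hv]
    apply div_pos <;> linarith
  have hv1 : v ≤ 1 := by
    rw [hv, div_le_one (by linarith)]
    linarith
  set θ := Real.arcsin (√v) / 2 with hθ
  have h2θ : 2 * θ = Real.arcsin (√v) := by rw [hθ]; ring
  have hsv : √v ≤ 1 := Real.sqrt_le_iff.2 ⟨by norm_num, by simpa using hv1⟩
  have hsv0 : 0 < √v := Real.sqrt_pos.2 hv0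
  have hsin2θ : Real.sin (2 * θ) = √v := by
    rw [h2θ]; exact Real.sin_arcsin (by linarith) hsv
  set c := Real.cos θ with hc
  set s := Real.sin θ with hs
  have hcs : c ^ 2 + s ^ 2 = 1 := Real.cos_sq_add_sin_sq θ
  have hsc : 2 * s * c = √v := by rw [← hsin2θ, Real.sin_two_mul]
  have hcs2 : 4 * (c ^ 2 * s ^ 2) = v := by
    rw [← Real.sq_sqrt hv0.le, ← hsc]; ring
  have hc0 : c ≠ 0 := by
    intro h
    rw [h] at hsc
    simp at hsc
    linarith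
  have hs0 : s ≠ 0 := by
    intro h
    rw [h] at hsc
    simp at hsc
    linarith
  obtain ⟨κ, hE⟩ := ev_E ψ c s hcos2 hc0 hs0 hcs
  have hH := ev_H ψ κ c s hcosψ hsinψ hcs
  have hcosev : ∀ᶠ t in 𝓝[>] (0 : ℝ), 0 < Real.cos (ψ + κ * t) := by
    have hcont : ContinuousAt (fun t : ℝ => Real.cos (ψ + κ * t)) 0 := by fun_prop
    have : ∀ᶠ t in 𝓝 (0 : ℝ), 0 < Real.cos (ψ + κ * t) :=
      hcont.eventually_const_lt (by simpa using hcosψ)
    exact this.filter_mono nhdsWithin_le_nhds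
  have hsinev : ∀ᶠ t in 𝓝[>] (0 : ℝ), 0 < Real.sin (ψ + κ * t) := by
    have hcont : ContinuousAt (fun t : ℝ => Real.sin (ψ + κ * t)) 0 := by fun_prop
    have : ∀ᶠ t in 𝓝 (0 : ℝ), 0 < Real.sin (ψ + κ * t) :=
      hcont.eventually_const_lt (by simpa using hsinψ)
    exact this.filter_mono nhdsWithin_le_nhds
  have hlt : ∀ᶠ t in 𝓝[>] (0 : ℝ), t < 1 :=
    (eventually_lt_nhds (by norm_num : (0 : ℝ) < 1)).filter_mono nhdsWithin_le_nhds
  obtain ⟨t, htE, htH, htc, hts, ht1, ht0⟩ :=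
    (hE.and (hH.and (hcosev.and (hsinev.and (hlt.and self_mem_nhdsWithin))))).exists
  have ht0' : (0 : ℝ) < t := ht0
  obtain ⟨σ, hσE, hσS, hσh⟩ := site_t ψ κ c s ht0' ht1 htc.le hts.le hcs
  refine ⟨σ, ?_, ?_⟩
  · rw [hσE]
    refine htE.trans_eq ?_
    rw [hsin2]
    have e : (1 - u) * v = 2 * d := by
      rw [hv]
      field_simp
      rw [div_self (by linarith)]
    linear_combination (1 - u) / 2 * hcs2 + e / 2
  · have hl : 0 < Real.log 2 := Real.log_pos one_lt_two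
    have e1 : Real.log 2 * hh (u ^ 2) = Real.negMulLog (Real.cos ψ ^ 2) +
        Real.negMulLog (Real.sin ψ ^ 2) := by
      apply hh_pq (Real.cos_sq_add_sin_sq ψ)
      rw [← hsin2, Real.sin_two_mul]
      ring
    have e2 : Real.log 2 * hh (u ^ 2 + 2 * d * u + 2 * d) = Real.negMulLog (P0 ψ κ c s 0) +
        Real.negMulLog (P1 ψ κ c s 0) := by
      apply hh_pq
      · unfold P0 P1
        rw [mul_zero, add_zero]
        have := Real.cos_sq_add_sin_sq ψ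
        linear_combination (Real.cos ψ ^ 2 + Real.sin ψ ^ 2) * hcs + this
      · unfold P0 P1
        rw [mul_zero, add_zero]
        have a1 := Real.cos_sq_add_sin_sq ψ
        have a2 : 4 * (Real.cos ψ ^ 2 * Real.sin ψ ^ 2) = u ^ 2 := by
          rw [← hsin2, Real.sin_two_mul]; ring
        have a3 : (Real.cos ψ ^ 2 - Real.sin ψ ^ 2) ^ 2 = 1 - u ^ 2 := by
          rw [← a2]
          have : (Real.cos ψ ^ 2 + Real.sin ψ ^ 2) ^ 2 = 1 := by rw [a1]; norm_num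
          linear_combination this
        have a4 : (1 - u) * v = 2 * d := by
          rw [hv]
          field_simp
          rw [div_self (by linarith)]
        have a5 : (c ^ 2 + s ^ 2) ^ 2 = 1 := by rw [hcs]; norm_num
        linear_combination (4 * (Real.cos ψ ^ 2 * Real.sin ψ ^ 2)) * a5 + a2 +
          (4 * (c ^ 2 * s ^ 2)) * a3 + (1 - u ^ 2) * hcs2 + (1 + u) * a4
    have e3 : FF ψ κ c s 0 = Real.log 2 * hh (u ^ 2 + 2 * d * u + 2 * d) -
        Real.log 2 * hh (u ^ 2) := by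
      rw [e1, e2]
      unfold FF
      rw [G1_zero ψ κ c s (P0_zero_pos ψ κ c s hcosψ hsinψ hcs)]
      simp only [mul_zero, add_zero, sub_zero, mul_one]
      ring
    have e4 : FF ψ κ c s 0 < σ.h - σ.S := by
      refine htH.trans_eq ?_
      rw [hσh, hσS]
      unfold FF
      ring
    rw [e3] at e4
    unfold Bu
    have e5 : hh (u ^ 2 + 2 * d * u + 2 * d) - hh (u ^ 2) < (σ.h - σ.S) / Real.log 2 := by
      rw [lt_div_iff₀ hl]
      linarith
    linarith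

end Pool.Agent.H390R2.LP
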