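import Pool.Agent.H390R2.LP.Iface
import Pool.Agent.H390R2.LP.BinDefs

/-!
From the product theorem to the rate of binary codes.
-/

open Finset Filter

namespace Pool.Agent.H390R2.LP.Bin

/-- the sizes of codes form a nonempty bounded set -/
theorem sizes_bdd (n d : ℕ) : BddAbove {M | ∃ C : Finset (Fin n → Bool), C.card = M ∧
    ∀ x ∈ C, ∀ y ∈ C, x ≠ y → d ≤ hammingDist x y} := by
  refine ⟨Fintype.card (Fin n → Bool), ?_⟩
  rintro M ⟨C, rfl, -⟩
  exact card_le_univ C

theorem sizes_one (n d : ℕ) : 1 ∈ {M | ∃ C : Finset (Fin n → Bool), C.card = M ∧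
    ∀ x ∈ C, ∀ y ∈ C, x ≠ y → d ≤ hammingDist x y} := by
  refine ⟨{fun _ => false}, by simp, ?_⟩
  intro x hx y hy hxy
  rw [mem_singleton] at hx hy
  exact absurd (hx.trans hy.symm) hxy

theorem A_pos (n d : ℕ) : 1 ≤ A n d := le_csSup (sizes_bdd n d) (sizes_one n d)

theorem A_attained (n d : ℕ) : ∃ C : Finset (Fin n → Bool), C.card = A n d ∧
    ∀ x ∈ C, ∀ y ∈ C, x ≠ y → d ≤ hammingDist x y :=
  Nat.sSup_mem ⟨1, sizes_one n d⟩ (sizes_bdd n d)

/-- translation by `v` -/
def tr {n : ℕ} (v x : Fin n → Bool) : Fin n → Bool := fun k => xor (v k) (x k)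

theorem tr_tr {n : ℕ} (v x : Fin n → Bool) : tr v (tr v x) = x := by
  funext k
  simp [tr]

theorem tr_comm {n : ℕ} (v x : Fin n → Bool) : tr v x = tr x v := by
  funext k
  simp [tr, Bool.xor_comm]

theorem tr_inj {n : ℕ} (v : Fin n → Bool) : Function.Injective (tr v) := by
  intro x y h
  rw [← tr_tr v x, h, tr_tr]

theorem hd_tr {n : ℕ} (v x y : Fin n → Bool) : hammingDist (tr v x) (tr v y) = hammingDist x y := by
  unfold hammingDist
  congr 1
  ext k
  simp [tr]

theorem sum_sq {n : ℕ} (x y : Fin n → Bool) :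
    (∑ k, ∑ _i : Unit, ((if x k then (1 : ℝ) else 0) - (if y k then (1 : ℝ) else 0)) ^ 2)
      = hammingDist x y := by
  unfold hammingDist
  rw [card_filter, Nat.cast_sum]
  refine sum_congr rfl fun k _ => ?_
  cases hx : x k <;> cases hy : y k <;> simp

/-- The number of translates of `C` through a point. -/
theorem cover {n : ℕ} (C : Finset (Fin n → Bool)) (x : Fin n → Bool) :
    (univ.filter fun v => x ∈ C.image (tr v)).card = C.card := by
  have h : (univ.filter fun v => x ∈ C.image (tr v)) = C.image (fun c => tr c x) := by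
    ext v
    simp only [mem_filter, mem_univ, true_and, mem_image]
    constructor
    · rintro ⟨c, hc, rfl⟩
      refine ⟨c, hc, ?_⟩
      rw [tr_comm v c, tr_tr]
    · rintro ⟨c, hc, rfl⟩
      refine ⟨c, hc, ?_⟩
      rw [tr_comm (tr c x) c, tr_tr]
  rw [h]
  refine card_image_of_injective _ ?_
  intro a b hab
  have hab' : tr a x = tr b x := hab
  rw [tr_comm a x, tr_comm b x] at hab'
  exact tr_inj x hab'

/-- The finite consequence of the product theorem. -/
theorem size_lt (iid : IID) {Ω : Type} [Fintype Ω] [DecidableEq Ω] (s : Site Ω Bool) {δ ε : ℝ}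
    (hε : 0 < ε) (hE : s.E (fun (_ : Unit) b => if b then 1 else 0) + ε < δ) :
    ∃ n0 : ℕ, ∀ n ≥ n0,
      (A n ⌈δ * n⌉₊ : ℝ) < (2 : ℝ) ^ n * Real.exp (-(n * (s.h - s.S - ε))) := by
  obtain ⟨n0, hn0⟩ := iid Ω Bool Unit s (fun (_ : Unit) b => if b then 1 else 0) ε hε
  refine ⟨max n0 1, fun n hn => ?_⟩
  by_contra hcon
  rw [not_lt] at hcon
  obtain ⟨C, hC, hd⟩ := A_attained n ⌈δ * n⌉₊
  have h := hn0 n (le_trans (le_max_left _ _) hn) (Fin n → Bool) (fun v => C.image (tr v)) C.card
    (δ * n) (by rw [hC]; exact A_pos _ _) (cover C) ?_ ?_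
  · have hn1 : (1 : ℝ) ≤ n := by exact_mod_cast le_trans (le_max_right n0 1) hn
    nlinarith
  · intro v x hx y hy hxy
    simp only [mem_image] at hx hy
    obtain ⟨a, ha, rfl⟩ := hx
    obtain ⟨b, hb, rfl⟩ := hy
    rw [sum_sq, hd_tr]
    have hab : a ≠ b := fun h => hxy (by rw [h])
    calc δ * n ≤ (⌈δ * n⌉₊ : ℝ) := Nat.le_ceil _
      _ ≤ hammingDist a b := by exact_mod_cast hd a ha b hb hab
  · rw [hC]
    have hcard : (Fintype.card (Fin n → Bool) : ℝ) = 2 ^ n := by simp
    rw [hcard]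
    have h1 := mul_le_mul_of_nonneg_right hcon (Real.exp_pos (n * (s.h - s.S - ε))).le
    rw [mul_assoc, ← Real.exp_add, neg_add_cancel, Real.exp_zero, mul_one] at h1
    exact h1

/-- **Rate bound**: every one-site state gives an upper bound for the rate of binary codes. -/
theorem rate_le (iid : IID) {Ω : Type} [Fintype Ω] [DecidableEq Ω] (s : Site Ω Bool) {δ : ℝ}
    (hE : s.E (fun (_ : Unit) b => if b then 1 else 0) < δ) :
    R δ ≤ 1 - (s.h - s.S) / Real.log 2 := by
  have hl2 : 0 < Real.log 2 := Real.log_pos (by norm_num)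
  have hcob : IsCoboundedUnder (· ≤ ·) atTop
      (fun n : ℕ => Real.logb 2 (A n ⌈δ * n⌉₊) / n) := by
    refine IsBoundedUnder.isCoboundedUnder_le ⟨0, ?_⟩
    rw [eventually_map]
    refine Eventually.of_forall fun n => ?_
    have h1 : (1 : ℝ) ≤ A n ⌈δ * n⌉₊ := by exact_mod_cast A_pos _ _
    exact div_nonneg (Real.logb_nonneg (by norm_num) h1) (Nat.cast_nonneg n)
  have key : ∀ ε : ℝ, 0 < ε → s.E (fun (_ : Unit) b => if b then 1 else 0) + ε < δ →
      R δ ≤ 1 - (s.h - s.S) / Real.log 2 + ε / Real.log 2 := by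
    intro ε hε hEε
    obtain ⟨n0, hn0⟩ := size_lt iid s hε hEε
    refine limsup_le_of_le hcob ?_
    filter_upwards [eventually_ge_atTop n0, eventually_ge_atTop 1] with n hn hn1
    have hA := hn0 n hn
    have hApos : (0 : ℝ) < A n ⌈δ * n⌉₊ := by exact_mod_cast A_pos _ _
    have hn' : (0 : ℝ) < n := by exact_mod_cast hn1
    have hlog : Real.log (A n ⌈δ * n⌉₊) ≤ n * Real.log 2 - n * (s.h - s.S - ε) := by
      have h1 := Real.log_le_log hApos hA.le
      rw [Real.log_mul (by positivity) (Real.exp_pos _).ne', Real.log_exp, Real.log_pow] at h1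
      linarith
    rw [Real.logb, div_div, div_le_iff₀ (by positivity)]
    have h2 : (1 - (s.h - s.S) / Real.log 2 + ε / Real.log 2) * (Real.log 2 * n)
        = n * Real.log 2 - n * (s.h - s.S - ε) := by
      field_simp
      ring
    rw [h2]
    exact hlog
  refine le_of_forall_pos_le_add fun η hη => ?_
  set E0 := s.E (fun (_ : Unit) b => if b then 1 else 0) with hE0
  have hm : 0 < min ((δ - E0) / 2) (η * Real.log 2) :=
    lt_min (by linarith) (by positivity)
  have h := key (min ((δ - E0) / 2) (η * Real.log 2)) hm (by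
    have := min_le_left ((δ - E0) / 2) (η * Real.log 2)
    linarith)
  refine h.trans ?_
  have h3 : min ((δ - E0) / 2) (η * Real.log 2) / Real.log 2 ≤ η := by
    rw [div_le_iff₀ hl2]
    exact min_le_right _ _
  linarith

end Pool.Agent.H390R2.LP.Bin
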