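import Pool.Agent.H390R2.LP.WY

/-! Spectral data of one block. -/

open Finset

namespace Pool.Agent.H390R2.LP

section
variable {J Ω : Type} [Fintype J] [Fintype Ω] [DecidableEq J] [DecidableEq Ω]

/-- An orthonormal family indexed by the full index type is complete. -/
lemma complete_of_orth (e : Ω → Ω → ℝ)
    (he : ∀ a b, ∑ ω, e a ω * e b ω = if a = b then 1 else 0) (ω ω' : Ω) :
    ∑ a, e a ω * e a ω' = if ω = ω' then 1 else 0 := by
  have h1 : (Matrix.of e) * (Matrix.of e).transpose = 1 := by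
    ext a b
    rw [Matrix.mul_apply, Matrix.one_apply]
    simpa [Matrix.transpose_apply] using he a b
  have h2 := mul_eq_one_comm.mp h1
  have h3 := congrFun (congrFun h2 ω) ω'
  rw [Matrix.mul_apply, Matrix.one_apply] at h3
  simpa [Matrix.transpose_apply] using h3

lemma parseval (e : Ω → Ω → ℝ)
    (he : ∀ a b, ∑ ω, e a ω * e b ω = if a = b then 1 else 0) (f g : Ω → ℝ) :
    ∑ a, (∑ ω, f ω * e a ω) * (∑ ω, g ω * e a ω) = ∑ ω, f ω * g ω := by
  have h1 : ∀ a, (∑ ω, f ω * e a ω) * (∑ ω, g ω * e a ω) =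
      ∑ ω, ∑ ω', f ω * g ω' * (e a ω * e a ω') := by
    intro a
    rw [Finset.sum_mul_sum]
    exact Finset.sum_congr rfl fun _ _ => Finset.sum_congr rfl fun _ _ => by ring
  simp only [h1]
  rw [Finset.sum_comm]
  refine Finset.sum_congr rfl fun ω _ => ?_
  rw [Finset.sum_comm]
  simp only [← Finset.mul_sum, complete_of_orth e he]
  simp

lemma parseval_sq (e : Ω → Ω → ℝ)
    (he : ∀ a b, ∑ ω, e a ω * e b ω = if a = b then 1 else 0) (f : Ω → ℝ) :
    ∑ a, (∑ ω, f ω * e a ω) ^ 2 = ∑ ω, f ω ^ 2 := by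
  have := parseval e he f f
  simpa [sq] using this

/-- Spectral data of the positive semidefinite matrix `∑ j, t j ^ 2 ψ j ψ jᵀ`. -/
theorem block (ψ : J → Ω → ℝ) (t : J → ℝ) :
    ∃ (e : Ω → Ω → ℝ) (b : Ω → ℝ), (∀ m, 0 ≤ b m) ∧
      (∀ m m', ∑ ω, e m ω * e m' ω = if m = m' then 1 else 0) ∧
      (∀ m m', ∑ j, t j ^ 2 * ((∑ ω, ψ j ω * e m ω) * (∑ ω, ψ j ω * e m' ω)) =
        if m = m' then b m ^ 2 else 0) := by
  classical
  set A : Matrix Ω Ω ℝ := Matrix.of fun ω ω' => ∑ j, (t j * ψ j ω) * (t j * ψ j ω') with hA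
  set Bm : Matrix J Ω ℝ := Matrix.of fun j ω => t j * ψ j ω with hB
  have hAB : A = Bm.conjTranspose * Bm := by
    ext ω ω'
    rw [Matrix.mul_apply]
    simp [hA, hB]
  have hpsd : A.PosSemidef := by rw [hAB]; exact Matrix.posSemidef_conjTranspose_mul_self Bm
  have hH : A.IsHermitian := hpsd.isHermitian
  refine ⟨fun m ω => hH.eigenvectorBasis m ω, fun m => √(hH.eigenvalues m),
    fun m => Real.sqrt_nonneg _, ?_, ?_⟩
  · intro m m'
    have h1 := hH.eigenvectorBasis.orthonormal
    rw [orthonormal_iff_ite] at h1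
    have h2 := h1 m m'
    rw [← h2, PiLp.inner_apply]
    refine Finset.sum_congr rfl fun ω _ => ?_
    simp [mul_comm]
  · intro m m'
    have horth : ∀ m m', ∑ ω, hH.eigenvectorBasis m ω * hH.eigenvectorBasis m' ω =
        if m = m' then (1 : ℝ) else 0 := by
      intro m m'
      have h1 := hH.eigenvectorBasis.orthonormal
      rw [orthonormal_iff_ite] at h1
      have h2 := h1 m m'
      rw [← h2, PiLp.inner_apply]
      refine Finset.sum_congr rfl fun ω _ => ?_
      simp [mul_comm]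
    have hev := hH.mulVec_eigenvectorBasis m'
    have h3 : ∀ ω, ∑ ω', A ω ω' * hH.eigenvectorBasis m' ω' =
        hH.eigenvalues m' * hH.eigenvectorBasis m' ω := by
      intro ω
      have := congrFun hev ω
      simpa [Matrix.mulVec, dotProduct] using this
    have h4 : ∑ j, t j ^ 2 * ((∑ ω, ψ j ω * hH.eigenvectorBasis m ω) *
        (∑ ω, ψ j ω * hH.eigenvectorBasis m' ω)) =
        ∑ ω, hH.eigenvectorBasis m ω * ∑ ω', A ω ω' * hH.eigenvectorBasis m' ω' := by
      have h5 : ∀ j, t j ^ 2 * ((∑ ω, ψ j ω * hH.eigenvectorBasis m ω) *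
          (∑ ω, ψ j ω * hH.eigenvectorBasis m' ω)) =
          ∑ ω, ∑ ω', hH.eigenvectorBasis m ω * (((t j * ψ j ω) * (t j * ψ j ω')) *
            hH.eigenvectorBasis m' ω') := by
        intro j
        rw [Finset.sum_mul_sum, Finset.mul_sum]
        refine Finset.sum_congr rfl fun ω _ => ?_
        rw [Finset.mul_sum]
        exact Finset.sum_congr rfl fun ω' _ => by ring
      simp only [h5]
      rw [Finset.sum_comm]
      refine Finset.sum_congr rfl fun ω _ => ?_
      rw [Finset.sum_comm, Finset.mul_sum]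
      refine Finset.sum_congr rfl fun ω' _ => ?_
      simp only [hA, Matrix.of_apply]
      rw [Finset.sum_mul, Finset.mul_sum]
    rw [h4]
    simp only [h3]
    have h6 : ∑ ω, hH.eigenvectorBasis m ω * (hH.eigenvalues m' * hH.eigenvectorBasis m' ω) =
        hH.eigenvalues m' * ∑ ω, hH.eigenvectorBasis m ω * hH.eigenvectorBasis m' ω := by
      rw [Finset.mul_sum]
      exact Finset.sum_congr rfl fun _ _ => by ring
    rw [h6, horth]
    by_cases hm : m = m'
    · subst hm
      rw [if_pos rfl, if_pos rfl, mul_one, Real.sq_sqrt (hpsd.eigenvalues_nonneg m)]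
    · rw [if_neg hm, if_neg hm, mul_zero]

end

end Pool.Agent.H390R2.LP
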