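import Pool.Agent.H390R2.LP.Block

/-! Consequences of the spectral data of one block. -/

open Finset

namespace Pool.Agent.H390R2.LP

section
variable {J Ω : Type} [Fintype J] [Fintype Ω] [DecidableEq J] [DecidableEq Ω]
variable (ψ : J → Ω → ℝ) (t : J → ℝ) (e : Ω → Ω → ℝ) (b : Ω → ℝ)

/-- the quadratic form of the block matrix -/
lemma form_eq (he : ∀ m m', ∑ ω, e m ω * e m' ω = if m = m' then 1 else 0)
    (hd : ∀ m m', ∑ j, t j ^ 2 * ((∑ ω, ψ j ω * e m ω) * (∑ ω, ψ j ω * e m' ω)) =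
        if m = m' then b m ^ 2 else 0) (φ : Ω → ℝ) :
    ∑ j, t j ^ 2 * (∑ ω, ψ j ω * φ ω) ^ 2 = ∑ m, b m ^ 2 * (∑ ω, φ ω * e m ω) ^ 2 := by
  have h1 : ∀ j, t j ^ 2 * (∑ ω, ψ j ω * φ ω) ^ 2 = ∑ m, ∑ m', (∑ ω, φ ω * e m ω) *
      (∑ ω, φ ω * e m' ω) * (t j ^ 2 * ((∑ ω, ψ j ω * e m ω) * (∑ ω, ψ j ω * e m' ω))) := by
    intro j
    rw [← parseval e he (ψ j) φ, sq (∑ a, (∑ ω, ψ j ω * e a ω) * ∑ ω, φ ω * e a ω),
      Finset.sum_mul_sum, Finset.mul_sum]
    refine Finset.sum_congr rfl fun m _ => ?_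
    rw [Finset.mul_sum]
    exact Finset.sum_congr rfl fun m' _ => by ring
  simp only [h1]
  rw [Finset.sum_comm]
  refine Finset.sum_congr rfl fun m _ => ?_
  rw [Finset.sum_comm]
  simp only [← Finset.mul_sum, hd]
  simp only [mul_ite, mul_zero, Finset.sum_ite_eq, Finset.mem_univ, if_true]
  ring

/-- the positive square root, as a kernel -/
def TT (e : Ω → Ω → ℝ) (b : Ω → ℝ) (ω ω' : Ω) : ℝ := ∑ m, b m * e m ω * e m ω'

lemma TT_apply (φ : Ω → ℝ) (ω : Ω) :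
    ∑ ω', TT e b ω ω' * φ ω' = ∑ m, b m * (∑ ω', φ ω' * e m ω') * e m ω := by
  simp only [TT, Finset.sum_mul]
  rw [Finset.sum_comm]
  refine Finset.sum_congr rfl fun m _ => ?_
  rw [Finset.mul_sum, Finset.sum_mul]
  exact Finset.sum_congr rfl fun _ _ => by ring

/-- `‖T φ‖² = ⟨φ, A φ⟩` -/
lemma TT_norm (he : ∀ m m', ∑ ω, e m ω * e m' ω = if m = m' then 1 else 0)
    (hd : ∀ m m', ∑ j, t j ^ 2 * ((∑ ω, ψ j ω * e m ω) * (∑ ω, ψ j ω * e m' ω)) =
        if m = m' then b m ^ 2 else 0) (φ : Ω → ℝ) :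
    ∑ ω, (∑ ω', TT e b ω ω' * φ ω') ^ 2 = ∑ j, t j ^ 2 * (∑ ω, ψ j ω * φ ω) ^ 2 := by
  rw [form_eq ψ t e b he hd φ]
  simp only [TT_apply]
  have h1 : ∀ ω, (∑ m, b m * (∑ ω', φ ω' * e m ω') * e m ω) ^ 2 =
      ∑ m, ∑ m', (b m * (∑ ω', φ ω' * e m ω')) * (b m' * (∑ ω', φ ω' * e m' ω')) *
        (e m ω * e m' ω) := by
    intro ω
    rw [sq, Finset.sum_mul_sum]
    exact Finset.sum_congr rfl fun _ _ => Finset.sum_congr rfl fun _ _ => by ring
  simp only [h1]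
  rw [Finset.sum_comm]
  refine Finset.sum_congr rfl fun m _ => ?_
  rw [Finset.sum_comm]
  simp only [← Finset.mul_sum, he]
  simp only [mul_ite, mul_one, mul_zero, Finset.sum_ite_eq, Finset.mem_univ, if_true]
  ring

/-- row norms of `T` are diagonal entries of the block matrix -/
lemma TT_row (he : ∀ m m', ∑ ω, e m ω * e m' ω = if m = m' then 1 else 0)
    (hd : ∀ m m', ∑ j, t j ^ 2 * ((∑ ω, ψ j ω * e m ω) * (∑ ω, ψ j ω * e m' ω)) =
        if m = m' then b m ^ 2 else 0) (ω : Ω) :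
    ∑ ω', TT e b ω ω' ^ 2 = ∑ j, t j ^ 2 * ψ j ω ^ 2 := by
  have h := TT_norm ψ t e b he hd (fun ω' => if ω' = ω then 1 else 0)
  simp only [mul_ite, mul_one, mul_zero, Finset.sum_ite_eq', Finset.mem_univ, if_true] at h
  rw [← h]
  refine Finset.sum_congr rfl fun ω' _ => ?_
  congr 1
  unfold TT
  exact Finset.sum_congr rfl fun _ _ => by ring

lemma TT_symm (ω ω' : Ω) : TT e b ω ω' = TT e b ω' ω := by
  unfold TT
  exact Finset.sum_congr rfl fun _ _ => by ring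

/-- trace norm bound -/
lemma trace_le (ht : ∀ j, 0 ≤ t j) (hb : ∀ m, 0 ≤ b m)
    (he : ∀ m m', ∑ ω, e m ω * e m' ω = if m = m' then 1 else 0)
    (hd : ∀ m m', ∑ j, t j ^ 2 * ((∑ ω, ψ j ω * e m ω) * (∑ ω, ψ j ω * e m' ω)) =
        if m = m' then b m ^ 2 else 0) :
    ∑ m, b m ≤ ∑ j, t j * √(∑ ω, ψ j ω ^ 2) := by
  classical
  set c : J → Ω → ℝ := fun j m => ∑ ω, ψ j ω * e m ω with hc
  set k : Ω → J → ℝ := fun m j => t j * c j m / b m with hk
  -- the columns `k m`, `b m ≠ 0`, are orthonormal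
  have hko : ∀ m m' : {m : Ω // b m ≠ 0}, ∑ j, k m j * k m' j = if m = m' then 1 else 0 := by
    intro m m'
    have h1 : ∑ j, k m j * k m' j =
        (∑ j, t j ^ 2 * (c j m * c j m')) / (b m * b m') := by
      rw [Finset.sum_div]
      refine Finset.sum_congr rfl fun j _ => ?_
      simp only [hk]
      have h2 := m.2
      have h3 := m'.2
      field_simp
    rw [h1, hc, hd]
    by_cases h : m = m'
    · subst h
      rw [if_pos rfl, if_pos rfl]
      have h2 := m.2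
      field_simp
    · rw [if_neg h, if_neg (fun h' => h (Subtype.ext h')), zero_div]
  have hrow : ∀ j, ∑ m : {m : Ω // b m ≠ 0}, k m j ^ 2 ≤ 1 := by
    intro j
    have h1 := bessel (fun m : {m : Ω // b m ≠ 0} => k m) hko (fun j' => if j' = j then 1 else 0)
    simpa using h1
  have hbm : ∀ m : {m : Ω // b m ≠ 0}, b m = ∑ j, t j * (c j m * k m j) := by
    intro m
    have h1 := hd m m
    rw [if_pos rfl] at h1
    have h2 : ∑ j, t j * (c j m * k m j) =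
        (∑ j, t j ^ 2 * ((∑ ω, ψ j ω * e m ω) * (∑ ω, ψ j ω * e m ω))) / b m := by
      rw [Finset.sum_div]
      refine Finset.sum_congr rfl fun j _ => ?_
      simp only [hk, hc]
      ring
    rw [h2, h1]
    have h3 := m.2
    field_simp
  have hsub : ∀ f : Ω → ℝ, ∑ m : {m : Ω // b m ≠ 0}, f m =
      ∑ m ∈ univ.filter (fun m => b m ≠ 0), f m := fun f =>
    (Finset.sum_subtype (univ.filter (fun m => b m ≠ 0)) (fun x => by simp) f).symm
  have hsum : ∑ m, b m = ∑ m : {m : Ω // b m ≠ 0}, b m := by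
    rw [hsub, Finset.sum_filter_of_ne]
    intro m _ h; exact h
  rw [hsum]
  have h4 : ∑ m : {m : Ω // b m ≠ 0}, b m =
      ∑ j, t j * ∑ m : {m : Ω // b m ≠ 0}, c j m * k m j := by
    simp only [Finset.mul_sum]
    rw [Finset.sum_comm]
    exact Finset.sum_congr rfl fun m _ => hbm m
  rw [h4]
  refine Finset.sum_le_sum fun j _ => mul_le_mul_of_nonneg_left ?_ (ht j)
  have h5 := Finset.sum_mul_sq_le_sq_mul_sq (univ : Finset {m : Ω // b m ≠ 0})
    (fun m => c j m) (fun m => k m j)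
  have h6 : ∑ m : {m : Ω // b m ≠ 0}, c j m ^ 2 ≤ ∑ ω, ψ j ω ^ 2 := by
    rw [← parseval_sq e he (ψ j), hsub (fun m => c j m ^ 2)]
    exact Finset.sum_le_sum_of_subset_of_nonneg (Finset.filter_subset _ _)
      fun _ _ _ => sq_nonneg _
  refine Real.le_sqrt_of_sq_le ?_
  calc (∑ m : {m : Ω // b m ≠ 0}, c j m * k m j) ^ 2
      ≤ (∑ m : {m : Ω // b m ≠ 0}, c j m ^ 2) * ∑ m : {m : Ω // b m ≠ 0}, k m j ^ 2 := h5
    _ ≤ (∑ ω, ψ j ω ^ 2) * 1 :=
        mul_le_mul h6 (hrow j) (Finset.sum_nonneg fun _ _ => sq_nonneg _)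
          (Finset.sum_nonneg fun _ _ => sq_nonneg _)
    _ = ∑ ω, ψ j ω ^ 2 := mul_one _

end

end Pool.Agent.H390R2.LP
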