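import Pool.Agent.H390R2.LP.Block2

/-! The position-diagonal part of the square root of one block is small. -/

open Finset

namespace Pool.Agent.H390R2.LP

section
variable {J Ω X : Type} [Fintype J] [Fintype Ω] [DecidableEq J] [DecidableEq Ω] [Fintype X]
  [DecidableEq X]

theorem Dblock (pos : Ω → X) (W : X → ℝ) (u : J → Ω → ℝ) (t : J → ℝ) (e : Ω → Ω → ℝ) (b : Ω → ℝ)
    (hb : ∀ m, 0 ≤ b m)
    (he : ∀ m m', ∑ ω, e m ω * e m' ω = if m = m' then 1 else 0)
    (hd : ∀ m m', ∑ j, t j ^ 2 * ((∑ ω, W (pos ω) * u j ω * e m ω) *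
      (∑ ω, W (pos ω) * u j ω * e m' ω)) = if m = m' then b m ^ 2 else 0)
    (w : Ω → Ω → ℝ) (lab : Ω → X) (good : Ω → Prop) [DecidablePred good]
    (hw : ∀ a b, ∑ ω, w a ω * w b ω = if a = b then 1 else 0)
    (hsupp : ∀ c ω, pos ω ≠ lab c → w c ω = 0) {κ : ℝ} (hκ : 0 ≤ κ)
    (hop : ∀ x (α : Ω → ℝ), (∀ c, α c ≠ 0 → good c ∧ lab c = x) →
      W x ^ 2 * ∑ j, t j ^ 2 * (∑ ω, u j ω * ∑ c, α c * w c ω) ^ 2 ≤ κ ^ 2 * ∑ c, α c ^ 2) :
    ∑ ω, ∑ ω', (if pos ω = pos ω' then TT e b ω ω' ^ 2 else 0) ≤
      κ * ∑ m, b m + ∑ c ∈ univ.filter (fun c => ¬ good c), W (lab c) ^ 2 *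
      ∑ j, t j ^ 2 * (∑ ω, u j ω * w c ω) ^ 2 := by
  set g : Ω → Ω → ℝ := fun c ω => ∑ ω', TT e b ω ω' * w c ω' with hg
  -- (a) Parseval in the adapted basis
  have ha : ∀ ω, ∑ ω', (if pos ω = pos ω' then TT e b ω ω' ^ 2 else 0) =
      ∑ c, (if lab c = pos ω then g c ω ^ 2 else 0) := by
    intro ω
    have h1 := parseval_sq w hw (fun ω' => if pos ω = pos ω' then TT e b ω ω' else 0)
    have h2 : ∀ ω', (if pos ω = pos ω' then TT e b ω ω' else 0) ^ 2 =
        if pos ω = pos ω' then TT e b ω ω' ^ 2 else 0 := by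
      intro ω'; split_ifs <;> simp
    simp only [h2] at h1
    rw [← h1]
    refine Finset.sum_congr rfl fun c _ => ?_
    have h3 : ∑ ω', (if pos ω = pos ω' then TT e b ω ω' else 0) * w c ω' =
        if lab c = pos ω then g c ω else 0 := by
      by_cases hc : lab c = pos ω
      · rw [if_pos hc, hg]
        refine Finset.sum_congr rfl fun ω' _ => ?_
        by_cases h : pos ω = pos ω'
        · rw [if_pos h]
        · rw [if_neg h, hsupp c ω' (fun h' => h (by rw [h', hc])), mul_zero, mul_zero]
      · rw [if_neg hc]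
        refine Finset.sum_eq_zero fun ω' _ => ?_
        by_cases h : pos ω = pos ω'
        · rw [hsupp c ω' (fun h' => hc (by rw [← h', h])), mul_zero]
        · rw [if_neg h, zero_mul]
    rw [h3]
    split_ifs <;> simp
  simp only [ha]
  rw [Finset.sum_comm, ← Finset.sum_filter_add_sum_filter_not univ good]
  refine add_le_add ?_ ?_
  · -- (d) good part
    have hgm : ∀ c ω, g c ω = ∑ m, b m * (∑ ω', w c ω' * e m ω') * e m ω := fun c ω =>
      TT_apply e b (w c) ω
    set α : Ω → X → Ω → ℝ := fun m x c =>
      if good c ∧ lab c = x then ∑ ω', w c ω' * e m ω' else 0 with hα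
    set P : Ω → X → Ω → ℝ := fun m x ω => ∑ c, α m x c * w c ω with hP
    -- rewrite the sum
    have h1 : ∑ c ∈ univ.filter good, ∑ ω, (if lab c = pos ω then g c ω ^ 2 else 0) =
        ∑ m, b m * ∑ x, ∑ ω, (if pos ω = x then e m ω * ∑ ω', TT e b ω ω' * P m x ω' else 0) := by
      have h2 : ∀ m ω, ∑ x, (if pos ω = x then e m ω * ∑ ω', TT e b ω ω' * P m x ω' else 0) =
          e m ω * ∑ c, α m (pos ω) c * g c ω := by
        intro m ω
        rw [Finset.sum_ite_eq]
        rw [if_pos (Finset.mem_univ _)]
        congr 1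
        simp only [hP, hg, Finset.mul_sum]
        rw [Finset.sum_comm]
        exact Finset.sum_congr rfl fun _ _ => Finset.sum_congr rfl fun _ _ => by ring
      have h3 : ∀ m, ∑ x, ∑ ω, (if pos ω = x then e m ω * ∑ ω', TT e b ω ω' * P m x ω' else 0) =
          ∑ ω, e m ω * ∑ c, α m (pos ω) c * g c ω := by
        intro m
        rw [Finset.sum_comm]
        exact Finset.sum_congr rfl fun ω _ => h2 m ω
      simp only [h3]
      rw [Finset.sum_comm]
      simp only [Finset.mul_sum]
      rw [Finset.sum_comm (s := univ) (t := univ)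
        (f := fun m ω => ∑ c, b m * (e m ω * (α m (pos ω) c * g c ω)))]
      refine Finset.sum_congr rfl fun ω _ => ?_
      rw [Finset.sum_comm, Finset.sum_filter]
      refine Finset.sum_congr rfl fun c _ => ?_
      by_cases hgood : good c
      · by_cases hlab : lab c = pos ω
        · rw [if_pos hgood, if_pos hlab, sq]
          nth_rewrite 1 [hgm c ω]
          rw [Finset.sum_mul]
          refine Finset.sum_congr rfl fun m _ => ?_
          simp only [hα, hgood, hlab, and_self, if_true]
          ring
        · rw [if_pos hgood, if_neg hlab]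
          symm
          refine Finset.sum_eq_zero fun m _ => ?_
          simp only [hα, hlab, and_false, if_false]
          ring
      · rw [if_neg hgood]
        symm
        refine Finset.sum_eq_zero fun m _ => ?_
        simp only [hα, hgood, false_and, if_false]
        ring
    rw [h1, Finset.mul_sum]
    refine Finset.sum_le_sum fun m _ => ?_
    rw [mul_comm κ (b m)]
    refine mul_le_mul_of_nonneg_left ?_ (hb m)
    -- per position
    have h4 : ∀ x, ∑ ω, (if pos ω = x then e m ω * ∑ ω', TT e b ω ω' * P m x ω' else 0) ≤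
        κ * ∑ ω, (if pos ω = x then e m ω ^ 2 else 0) := by
      intro x
      set N : ℝ := ∑ ω, (if pos ω = x then e m ω ^ 2 else 0) with hN
      have hN0 : 0 ≤ N := Finset.sum_nonneg fun ω _ => by split_ifs <;> positivity
      have h5 : ∑ c, α m x c ^ 2 ≤ N := by
        have h6 := parseval_sq w hw (fun ω => if pos ω = x then e m ω else 0)
        have h7 : ∀ ω, (if pos ω = x then e m ω else 0) ^ 2 =
            if pos ω = x then e m ω ^ 2 else 0 := by
          intro ω; split_ifs <;> simp
        simp only [h7] at h6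
        rw [hN, ← h6]
        refine Finset.sum_le_sum fun c _ => ?_
        simp only [hα]
        by_cases hc : good c ∧ lab c = x
        · rw [if_pos hc]
          apply le_of_eq
          congr 1
          refine Finset.sum_congr rfl fun ω _ => ?_
          by_cases h : pos ω = x
          · rw [if_pos h]; ring
          · rw [if_neg h, hsupp c ω (fun h' => h (by rw [h', hc.2]))]; ring
        · rw [if_neg hc, zero_pow two_ne_zero]; exact sq_nonneg _
      have h8 : ∑ ω, (∑ ω', TT e b ω ω' * P m x ω') ^ 2 ≤ κ ^ 2 * N := by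
        rw [TT_norm (fun j ω => W (pos ω) * u j ω) t e b he hd (P m x)]
        have h9 : ∀ j, ∑ ω, W (pos ω) * u j ω * P m x ω =
            W x * ∑ ω, u j ω * ∑ c, α m x c * w c ω := by
          intro j
          rw [Finset.mul_sum]
          refine Finset.sum_congr rfl fun ω _ => ?_
          by_cases h : pos ω = x
          · rw [h]; simp only [hP]; ring
          · have : P m x ω = 0 := by
              simp only [hP]
              refine Finset.sum_eq_zero fun c _ => ?_
              simp only [hα]
              by_cases hc : good c ∧ lab c = x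
              · rw [hsupp c ω (fun h' => h (by rw [h', hc.2])), mul_zero]
              · rw [if_neg hc, zero_mul]
            have h' : ∑ c, α m x c * w c ω = 0 := this
            rw [this, h', mul_zero, mul_zero, mul_zero]
        simp only [h9]
        have h10 : ∑ j, t j ^ 2 * (W x * ∑ ω, u j ω * ∑ c, α m x c * w c ω) ^ 2 =
            W x ^ 2 * ∑ j, t j ^ 2 * (∑ ω, u j ω * ∑ c, α m x c * w c ω) ^ 2 := by
          rw [Finset.mul_sum]
          exact Finset.sum_congr rfl fun _ _ => by ring
        rw [h10]
        refine (hop x (α m x) fun c hc => ?_).trans (mul_le_mul_of_nonneg_left h5 (sq_nonneg _))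
        by_contra hcon
        exact hc (by simp only [hα]; rw [if_neg hcon])
      have h11 := Finset.sum_mul_sq_le_sq_mul_sq univ
        (fun ω => if pos ω = x then e m ω else 0)
        (fun ω => ∑ ω', TT e b ω ω' * P m x ω')
      have h12 : ∑ ω, (if pos ω = x then e m ω * ∑ ω', TT e b ω ω' * P m x ω' else 0) =
          ∑ ω, (if pos ω = x then e m ω else 0) * ∑ ω', TT e b ω ω' * P m x ω' := by
        refine Finset.sum_congr rfl fun ω _ => ?_
        split_ifs <;> simp
      have h13 : ∑ ω, (if pos ω = x then e m ω else 0) ^ 2 = N := by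
        rw [hN]
        refine Finset.sum_congr rfl fun ω _ => ?_
        split_ifs <;> simp
      rw [h12]
      refine abs_le_of_sq_le_sq' ?_ (mul_nonneg hκ hN0) |>.2
      rw [h13] at h11
      calc (∑ ω, (if pos ω = x then e m ω else 0) * ∑ ω', TT e b ω ω' * P m x ω') ^ 2
          ≤ N * ∑ ω, (∑ ω', TT e b ω ω' * P m x ω') ^ 2 := h11
        _ ≤ N * (κ ^ 2 * N) := mul_le_mul_of_nonneg_left h8 hN0
        _ = (κ * N) ^ 2 := by ring
    calc ∑ x, ∑ ω, (if pos ω = x then e m ω * ∑ ω', TT e b ω ω' * P m x ω' else 0)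
        ≤ ∑ x, κ * ∑ ω, (if pos ω = x then e m ω ^ 2 else 0) :=
          Finset.sum_le_sum fun x _ => h4 x
      _ = κ * ∑ ω, e m ω ^ 2 := by
          rw [← Finset.mul_sum, Finset.sum_comm]
          simp
      _ = κ := by
          have := he m m
          rw [if_pos rfl] at this
          simp only [sq]
          rw [this, mul_one]
  · -- (c) bad part
    refine Finset.sum_le_sum fun c _ => ?_
    calc ∑ ω, (if lab c = pos ω then g c ω ^ 2 else 0) ≤ ∑ ω, g c ω ^ 2 := by
          refine Finset.sum_le_sum fun ω _ => ?_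
          split_ifs
          · exact le_rfl
          · positivity
      _ = ∑ j, t j ^ 2 * (∑ ω, W (pos ω) * u j ω * w c ω) ^ 2 :=
          TT_norm (fun j ω => W (pos ω) * u j ω) t e b he hd (w c)
      _ = W (lab c) ^ 2 * ∑ j, t j ^ 2 * (∑ ω, u j ω * w c ω) ^ 2 := by
          rw [Finset.mul_sum]
          refine Finset.sum_congr rfl fun j _ => ?_
          have : ∑ ω, W (pos ω) * u j ω * w c ω = W (lab c) * ∑ ω, u j ω * w c ω := by
            rw [Finset.mul_sum]
            refine Finset.sum_congr rfl fun ω _ => ?_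
            by_cases h : pos ω = lab c
            · rw [h]; ring
            · rw [hsupp c ω h]; ring
          rw [this]; ring

end

end Pool.Agent.H390R2.LP
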