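import Mathlib

/-!
Volume of balls and number of integer points in balls (elementary upper bounds).
-/

open MeasureTheory Finset
open scoped ENNReal

namespace Pool.Agent.H390R2.LP

/-- elementary lower bound for the Gamma function at half integers -/
theorem gamma_half_lower (n : ℕ) :
    (√((n : ℝ) / (2 * Real.exp 1))) ^ n ≤ Real.Gamma ((n : ℝ) / 2 + 1) := by
  induction n using Nat.twoStepInduction with
  | zero => simp
  | one =>
    have h1 : Real.Gamma (((1 : ℕ) : ℝ) / 2 + 1) = √Real.pi / 2 := by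
      rw [Nat.cast_one, Real.Gamma_add_one (by norm_num), Real.Gamma_one_half_eq]
      ring
    rw [h1, pow_one]
    have h2 : (1 : ℝ) ≤ √Real.pi := by
      rw [Real.le_sqrt (by norm_num) Real.pi_pos.le]
      linarith [Real.pi_gt_three]
    have h3 : √(((1 : ℕ) : ℝ) / (2 * Real.exp 1)) ≤ 1 / 2 := by
      rw [Real.sqrt_le_left (by norm_num)]
      have := Real.exp_one_gt_d9
      rw [Nat.cast_one, div_le_iff₀ (by positivity)]
      nlinarith
    linarith
  | more n ih _ =>
    have he : 0 < Real.exp 1 := Real.exp_pos 1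
    have hG : Real.Gamma (((n + 2 : ℕ) : ℝ) / 2 + 1)
        = ((n : ℝ) / 2 + 1) * Real.Gamma ((n : ℝ) / 2 + 1) := by
      have : (((n + 2 : ℕ) : ℝ) / 2 + 1) = ((n : ℝ) / 2 + 1) + 1 := by push_cast; ring
      rw [this, Real.Gamma_add_one (by positivity)]
    rw [hG, pow_add, Real.sq_sqrt (by positivity)]
    rcases Nat.eq_zero_or_pos n with h0 | hn
    · subst h0
      simp only [pow_zero, one_mul, Nat.cast_zero, zero_div, zero_add, Real.Gamma_one, mul_one]
      rw [div_le_iff₀ (by positivity)]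
      have := Real.exp_one_gt_d9
      push_cast
      nlinarith
    · have hn' : (0 : ℝ) < n := by exact_mod_cast hn
      have key : √(((n + 2 : ℕ) : ℝ) / (2 * Real.exp 1))
          ≤ √((n : ℝ) / (2 * Real.exp 1)) * Real.exp (1 / n) := by
        have e2 : Real.exp (1 / (n : ℝ)) = √(Real.exp (2 / n)) := by
          rw [show (2 / (n : ℝ)) = 1 / n + 1 / n by ring, Real.exp_add, Real.sqrt_mul_self
            (Real.exp_pos _).le]
        rw [e2, ← Real.sqrt_mul (by positivity)]
        apply Real.sqrt_le_sqrt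
        have h3 : 2 / (n : ℝ) + 1 ≤ Real.exp (2 / n) := Real.add_one_le_exp _
        have h4 : (((n + 2 : ℕ) : ℝ) / (2 * Real.exp 1))
            = (n : ℝ) / (2 * Real.exp 1) * (2 / (n : ℝ) + 1) := by
          push_cast
          field_simp
          ring
        rw [h4]
        exact mul_le_mul_of_nonneg_left h3 (by positivity)
      have key2 : √(((n + 2 : ℕ) : ℝ) / (2 * Real.exp 1)) ^ n
          ≤ √((n : ℝ) / (2 * Real.exp 1)) ^ n * Real.exp 1 := by
        calc √(((n + 2 : ℕ) : ℝ) / (2 * Real.exp 1)) ^ n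
            ≤ (√((n : ℝ) / (2 * Real.exp 1)) * Real.exp (1 / n)) ^ n :=
              pow_le_pow_left₀ (Real.sqrt_nonneg _) key n
          _ = √((n : ℝ) / (2 * Real.exp 1)) ^ n * Real.exp 1 := by
              rw [mul_pow, ← Real.exp_nat_mul]
              congr 2
              field_simp
      calc √(((n + 2 : ℕ) : ℝ) / (2 * Real.exp 1)) ^ n * (((n + 2 : ℕ) : ℝ) / (2 * Real.exp 1))
          ≤ (√((n : ℝ) / (2 * Real.exp 1)) ^ n * Real.exp 1)
              * (((n + 2 : ℕ) : ℝ) / (2 * Real.exp 1)) :=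
            mul_le_mul_of_nonneg_right key2 (by positivity)
        _ = ((n : ℝ) / 2 + 1) * √((n : ℝ) / (2 * Real.exp 1)) ^ n := by
            push_cast
            field_simp
        _ ≤ _ := mul_le_mul_of_nonneg_left ih (by positivity)

/-- Volume of a ball in `ℝⁿ`: at most `(√(2πe/n) r)ⁿ`. -/
theorem volume_ball_le (n : ℕ) (hn : 0 < n) (x : EuclideanSpace ℝ (Fin n)) (r : ℝ) (hr : 0 ≤ r) :
    volume (Metric.ball x r)
      ≤ ENNReal.ofReal ((√(2 * Real.pi * Real.exp 1 / n) * r) ^ n) := by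
  have hn' : (0 : ℝ) < n := by exact_mod_cast hn
  have : Nonempty (Fin n) := ⟨⟨0, hn⟩⟩
  rw [EuclideanSpace.volume_ball, Fintype.card_fin, ← ENNReal.ofReal_pow hr,
    ← ENNReal.ofReal_mul (by positivity)]
  apply ENNReal.ofReal_le_ofReal
  rw [mul_pow, mul_comm]
  apply mul_le_mul_of_nonneg_right _ (by positivity)
  have h1 := gamma_half_lower n
  have h2 : 0 < √((n : ℝ) / (2 * Real.exp 1)) := Real.sqrt_pos.mpr (by positivity)
  calc √Real.pi ^ n / Real.Gamma ((n : ℝ) / 2 + 1)
      ≤ √Real.pi ^ n / √((n : ℝ) / (2 * Real.exp 1)) ^ n :=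
        div_le_div_of_nonneg_left (by positivity) (by positivity) h1
    _ = √(2 * Real.pi * Real.exp 1 / n) ^ n := by
        rw [← div_pow, ← Real.sqrt_div Real.pi_pos.le]
        congr 2
        field_simp

/-- the half open unit cube with corner `v` -/
def cube {n : ℕ} (v : Fin n → ℤ) : Set (EuclideanSpace ℝ (Fin n)) :=
  WithLp.ofLp ⁻¹' (Set.univ.pi fun i => Set.Ico (v i : ℝ) ((v i : ℝ) + 1))

theorem mem_cube {n : ℕ} (v : Fin n → ℤ) (x : EuclideanSpace ℝ (Fin n)) :
    x ∈ cube v ↔ ∀ i, (v i : ℝ) ≤ x i ∧ x i < v i + 1 := by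
  simp [cube, Set.mem_pi]

theorem cube_meas {n : ℕ} (v : Fin n → ℤ) : MeasurableSet (cube v) :=
  (PiLp.volume_preserving_ofLp (Fin n)).measurable
    (MeasurableSet.univ_pi fun _ => measurableSet_Ico)

theorem cube_vol {n : ℕ} (v : Fin n → ℤ) : volume (cube v) = 1 := by
  unfold cube
  rw [(PiLp.volume_preserving_ofLp (Fin n)).measure_preimage
    (MeasurableSet.univ_pi fun _ => measurableSet_Ico).nullMeasurableSet, Real.volume_pi_Ico]
  simp

theorem cube_disj {n : ℕ} (v w : Fin n → ℤ) (h : v ≠ w) : Disjoint (cube v) (cube w) := by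
  rw [Set.disjoint_left]
  intro x hx hy
  apply h
  funext i
  rw [mem_cube] at hx hy
  have h1 : ⌊x i⌋ = v i := Int.floor_eq_iff.mpr (hx i)
  have h2 : ⌊x i⌋ = w i := Int.floor_eq_iff.mpr (hy i)
  rw [← h1, h2]

/-- An integer point as a point of Euclidean space. -/
noncomputable def toE {n : ℕ} (v : Fin n → ℤ) : EuclideanSpace ℝ (Fin n) :=
  WithLp.toLp 2 fun i => (v i : ℝ)

/-- The number of integer points of norm at most `T` is at most the volume of a slightly
larger ball. -/
theorem card_int_le {n : ℕ} (V : Finset (Fin n → ℤ)) (T T' : ℝ) (hT : T + √n < T')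
    (hV : ∀ v ∈ V, ‖toE v‖ ≤ T) :
    (V.card : ℝ≥0∞) ≤ volume (Metric.ball (0 : EuclideanSpace ℝ (Fin n)) T') := by
  have h1 : volume (⋃ v ∈ V, cube v) = V.card := by
    rw [measure_biUnion_finset (fun v _ w _ h => cube_disj v w h) (fun v _ => cube_meas v)]
    simp [cube_vol]
  rw [← h1]
  apply measure_mono
  intro x hx
  simp only [Set.mem_iUnion] at hx
  obtain ⟨v, hv, hx⟩ := hx
  rw [mem_cube] at hx
  rw [mem_ball_zero_iff]
  have h2 : ‖x - toE v‖ ≤ √n := by
    rw [EuclideanSpace.norm_eq]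
    apply Real.sqrt_le_sqrt
    calc ∑ i, ‖(x - toE v) i‖ ^ 2 ≤ ∑ i : Fin n, (1 : ℝ) := by
          apply Finset.sum_le_sum
          intro i _
          have e : (x - toE v) i = x i - v i := by simp [toE]
          rw [e, Real.norm_eq_abs, sq_abs]
          have := hx i
          nlinarith [this.1, this.2]
      _ = n := by simp
  calc ‖x‖ = ‖toE v + (x - toE v)‖ := by congr 1; abel
    _ ≤ ‖toE v‖ + ‖x - toE v‖ := norm_add_le _ _
    _ ≤ T + √n := add_le_add (hV v hv) h2
    _ < T' := hT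

end Pool.Agent.H390R2.LP
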