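import Pool.Agent.H390R2.LP.Iface
import Pool.Agent.H390R2.LP.EuclidA

open MeasureTheory Finset Filter
open scoped ENNReal

namespace Pool.Agent.H390R2.LP

/-- Counting form of the product theorem for integer points. -/
theorem int_count (iid : IID) {Ω : Type} [Fintype Ω] [DecidableEq Ω] {q : ℕ}
    (s : Site Ω (Fin q)) (hg ε D : ℝ) (hε : 0 < ε)
    (hD : s.E (fun (_ : Unit) (x : Fin q) => hg * (x : ℝ)) + ε < D) :
    ∃ n0 : ℕ, ∀ n ≥ n0, ∀ C V : Finset (Fin n → ℤ),
      (∀ c ∈ C, ∀ c' ∈ C, c ≠ c' → n * D ≤ hg ^ 2 * ∑ i, ((c i : ℝ) - c' i) ^ 2) →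
      (∀ c ∈ C, ∀ x : Fin n → Fin q, (fun i => ((x i : ℕ) : ℤ) - c i) ∈ V) →
      (C.card : ℝ) * Real.exp (n * (s.h - s.S - ε)) ≤ V.card := by
  classical
  obtain ⟨n0, hn0⟩ := iid Ω (Fin q) Unit s (fun (_ : Unit) (x : Fin q) => hg * (x : ℝ)) ε hε
  refine ⟨max n0 1, fun n hn C V hC hV => ?_⟩
  by_contra hcon
  push Not at hcon
  have hCpos : 0 < C.card := by
    rcases Nat.eq_zero_or_pos C.card with h | h
    · rw [h, Nat.cast_zero, zero_mul] at hcon
      exact absurd hcon (not_lt.mpr (Nat.cast_nonneg _))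
    · exact h
  have key := hn0 n (le_trans (le_max_left _ _) hn) {v // v ∈ V}
    (fun v => univ.filter fun x : Fin n → Fin q => (fun i => ((x i : ℕ) : ℤ) - v.1 i) ∈ C)
    C.card (n * D) hCpos ?_ ?_ ?_
  · have hn1 : (1 : ℝ) ≤ n := by exact_mod_cast le_trans (le_max_right _ _) hn
    nlinarith
  · intro x
    symm
    refine Finset.card_bij (fun c hc => ⟨fun i => ((x i : ℕ) : ℤ) - c i, hV c hc x⟩) ?_ ?_ ?_
    · intro c hc
      simp only [mem_filter, mem_univ, true_and]
      convert hc using 1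
      funext i
      ring
    · intro c hc c' hc' h
      have h' := congrArg Subtype.val h
      funext i
      have h1 : ((x i : ℕ) : ℤ) - c i = ((x i : ℕ) : ℤ) - c' i := congrFun h' i
      linarith
    · intro v hv
      simp only [mem_filter, mem_univ, true_and] at hv
      refine ⟨_, hv, ?_⟩
      apply Subtype.ext
      funext i
      simp
  · intro v x hx y hy hxy
    simp only [mem_filter, mem_univ, true_and] at hx hy
    have hne : (fun i => ((x i : ℕ) : ℤ) - v.1 i) ≠ (fun i => ((y i : ℕ) : ℤ) - v.1 i) := by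
      intro h
      apply hxy
      funext i
      have h1 : ((x i : ℕ) : ℤ) - v.1 i = ((y i : ℕ) : ℤ) - v.1 i := congrFun h i
      have h2 : ((x i : ℕ) : ℤ) = ((y i : ℕ) : ℤ) := by linarith
      exact Fin.ext (by exact_mod_cast h2)
    refine (hC _ hx _ hy hne).trans (le_of_eq ?_)
    rw [Finset.mul_sum]
    apply Finset.sum_congr rfl
    intro i _
    simp only [Finset.univ_unique, Finset.sum_const, Finset.card_singleton, one_smul]
    push_cast
    ring
  · rw [Fintype.card_coe]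
    exact hcon.le

/-- rounding to the grid of mesh `c` -/
noncomputable def rd {n : ℕ} (c : ℝ) (p : EuclideanSpace ℝ (Fin n)) : Fin n → ℤ :=
  fun i => round (p i / c)

theorem rd_dist {n : ℕ} (c : ℝ) (hc : 0 < c) (p : EuclideanSpace ℝ (Fin n)) :
    ‖p - c • toE (rd c p)‖ ≤ c * √n / 2 := by
  have e : c * √n / 2 = √((n : ℝ) * (c / 2) ^ 2) := by
    rw [Real.sqrt_mul (Nat.cast_nonneg n), Real.sqrt_sq (by positivity)]
    ring
  rw [e, EuclideanSpace.norm_eq]
  apply Real.sqrt_le_sqrt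
  calc ∑ i, ‖(p - c • toE (rd c p)) i‖ ^ 2 ≤ ∑ i : Fin n, (c / 2) ^ 2 := by
        apply Finset.sum_le_sum
        intro i _
        have e1 : (p - c • toE (rd c p)) i = c * (p i / c - round (p i / c)) := by
          simp only [toE, rd, PiLp.sub_apply, PiLp.smul_apply, smul_eq_mul]
          field_simp
        rw [e1, Real.norm_eq_abs, abs_mul, abs_of_pos hc]
        have h1 := abs_sub_round (p i / c)
        have h2 : c * |p i / c - round (p i / c)| ≤ c / 2 := by nlinarith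
        exact pow_le_pow_left₀ (by positivity) h2 2
    _ = n * (c / 2) ^ 2 := by simp

theorem sq_norm_toE_sub {n : ℕ} (v w : Fin n → ℤ) :
    ‖toE v - toE w‖ ^ 2 = ∑ i, ((v i : ℝ) - w i) ^ 2 := by
  rw [EuclideanSpace.norm_sq_eq]
  apply Finset.sum_congr rfl
  intro i _
  simp [toE]

/-- integer points of norm at most `T` -/
noncomputable def intBall (n : ℕ) (T : ℝ) : Finset (Fin n → ℤ) :=
  (Fintype.piFinset fun _ => Finset.Icc (-⌈T⌉) ⌈T⌉).filter fun v => ‖toE v‖ ≤ T

theorem mem_intBall {n : ℕ} {T : ℝ} {v : Fin n → ℤ} : v ∈ intBall n T ↔ ‖toE v‖ ≤ T := by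
  unfold intBall
  rw [mem_filter, Fintype.mem_piFinset]
  refine ⟨fun h => h.2, fun h => ⟨fun i => ?_, h⟩⟩
  have h1 : ‖(toE v) i‖ ≤ ‖toE v‖ := PiLp.norm_apply_le _ i
  have h2 : |(v i : ℝ)| ≤ ⌈T⌉ := by
    have e : (toE v) i = (v i : ℝ) := rfl
    rw [e, Real.norm_eq_abs] at h1
    exact h1.trans (h.trans (Int.le_ceil T))
  have h3 : |v i| ≤ ⌈T⌉ := by exact_mod_cast h2
  rw [mem_Icc]
  exact abs_le.mp h3

end Pool.Agent.H390R2.LP
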