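import Pool.Agent.H390R2.LP.Euclid

/-!
# Hermite's constant from the exponential bound for the packing density
-/

open MeasureTheory Finset Filter
open scoped ENNReal Topology

namespace Pool.Agent.H390R2.LP

/-- elementary upper bound for the Gamma function at half integers -/
theorem gamma_half_upper (n : ℕ) (hn : 1 ≤ n) :
    Real.Gamma ((n : ℝ) / 2 + 1) ≤ 3 * n * (√((n : ℝ) / (2 * Real.exp 1))) ^ n := by
  induction n using Nat.twoStepInduction with
  | zero => omega
  | one =>
    have h1 : Real.Gamma (((1 : ℕ) : ℝ) / 2 + 1) = √Real.pi / 2 := by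
      rw [Nat.cast_one, Real.Gamma_add_one (by norm_num), Real.Gamma_one_half_eq]
      ring
    rw [h1, pow_one]
    have h2 : √Real.pi ≤ 2 := by
      rw [Real.sqrt_le_left (by norm_num)]
      linarith [Real.pi_lt_four]
    have h3 : 2 / 5 ≤ √(((1 : ℕ) : ℝ) / (2 * Real.exp 1)) := by
      rw [Real.le_sqrt' (by norm_num)]
      have := Real.exp_one_lt_d9
      rw [Nat.cast_one, le_div_iff₀ (by positivity)]
      nlinarith
    rw [Nat.cast_one]
    rw [Nat.cast_one] at h3
    linarith
  | more n ih _ =>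
    have he : 0 < Real.exp 1 := Real.exp_pos 1
    have hG : Real.Gamma (((n + 2 : ℕ) : ℝ) / 2 + 1)
        = ((n : ℝ) / 2 + 1) * Real.Gamma ((n : ℝ) / 2 + 1) := by
      have : (((n + 2 : ℕ) : ℝ) / 2 + 1) = ((n : ℝ) / 2 + 1) + 1 := by push_cast; ring
      rw [this, Real.Gamma_add_one (by positivity)]
    rw [hG, pow_add, Real.sq_sqrt (by positivity)]
    rcases Nat.eq_zero_or_pos n with h0 | hn
    · subst h0
      simp only [pow_zero, one_mul, Nat.cast_zero, zero_div, zero_add, Real.Gamma_one, mul_one]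
      have := Real.exp_one_lt_d9
      push_cast
      rw [mul_div_assoc', le_div_iff₀ (by positivity)]
      nlinarith
    · have hn' : (0 : ℝ) < n := by exact_mod_cast hn
      have ih' := ih hn
      have key : √((n : ℝ) / (2 * Real.exp 1)) ^ n * Real.exp 1
          ≤ √(((n + 2 : ℕ) : ℝ) / (2 * Real.exp 1)) ^ n * ((n + 2) / n) := by
        -- `(1 + 2/n)^(n/2 + 1) ≥ e`
        have h1 : Real.exp (1 / (n + 2)) * √((n : ℝ) / (2 * Real.exp 1))
            ≤ √(((n + 2 : ℕ) : ℝ) / (2 * Real.exp 1)) := by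
          have e2 : Real.exp (1 / ((n : ℝ) + 2)) = √(Real.exp (2 / (n + 2))) := by
            rw [show (2 / ((n : ℝ) + 2)) = 1 / (n + 2) + 1 / (n + 2) by ring, Real.exp_add,
              Real.sqrt_mul_self (Real.exp_pos _).le]
          rw [e2, ← Real.sqrt_mul (Real.exp_pos _).le]
          apply Real.sqrt_le_sqrt
          have h3 : -(2 / ((n : ℝ) + 2)) + 1 ≤ Real.exp (-(2 / (n + 2))) := Real.add_one_le_exp _
          have h4 : (n : ℝ) / (n + 2) ≤ Real.exp (-(2 / (n + 2))) := by
            refine le_trans (le_of_eq ?_) h3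
            field_simp
            ring
          rw [Real.exp_neg] at h4
          have hE := Real.exp_pos (2 / ((n : ℝ) + 2))
          have h5 : Real.exp (2 / ((n : ℝ) + 2)) * ((n : ℝ) / (n + 2)) ≤ 1 := by
            calc _ ≤ Real.exp (2 / ((n : ℝ) + 2)) * (Real.exp (2 / ((n : ℝ) + 2)))⁻¹ :=
                  mul_le_mul_of_nonneg_left h4 hE.le
              _ = 1 := mul_inv_cancel₀ hE.ne'
          have h6 : Real.exp (2 / ((n : ℝ) + 2)) * n ≤ n + 2 := by
            rw [mul_div_assoc', div_le_one (by positivity)] at h5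
            exact h5
          rw [mul_div_assoc']
          push_cast
          exact div_le_div_of_nonneg_right h6 (by positivity)
        have h2 : Real.exp (n / (n + 2)) * √((n : ℝ) / (2 * Real.exp 1)) ^ n
            ≤ √(((n + 2 : ℕ) : ℝ) / (2 * Real.exp 1)) ^ n := by
          have := pow_le_pow_left₀ (by positivity) h1 n
          rw [mul_pow, ← Real.exp_nat_mul] at this
          refine le_trans (le_of_eq ?_) this
          congr 2
          field_simp
        have h7 : Real.exp 1 ≤ Real.exp (n / (n + 2)) * ((n + 2) / n) := by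
          have e1 : Real.exp 1 = Real.exp (n / (n + 2)) * Real.exp (2 / (n + 2)) := by
            rw [← Real.exp_add]
            congr 1
            field_simp
          rw [e1]
          apply mul_le_mul_of_nonneg_left _ (Real.exp_pos _).le
          have h3 : -(2 / ((n : ℝ) + 2)) + 1 ≤ Real.exp (-(2 / (n + 2))) := Real.add_one_le_exp _
          have h4 : (n : ℝ) / (n + 2) ≤ Real.exp (-(2 / (n + 2))) := by
            refine le_trans (le_of_eq ?_) h3
            field_simp
            ring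
          rw [Real.exp_neg] at h4
          rw [show ((n : ℝ) + 2) / n = ((n : ℝ) / (n + 2))⁻¹ by rw [inv_div]]
          have hE := Real.exp_pos (2 / ((n : ℝ) + 2))
          rw [← inv_inv (Real.exp (2 / ((n : ℝ) + 2)))]
          exact inv_anti₀ (by positivity) h4
        calc √((n : ℝ) / (2 * Real.exp 1)) ^ n * Real.exp 1
            ≤ √((n : ℝ) / (2 * Real.exp 1)) ^ n * (Real.exp (n / (n + 2)) * ((n + 2) / n)) :=
              mul_le_mul_of_nonneg_left h7 (by positivity)
          _ = (Real.exp (n / (n + 2)) * √((n : ℝ) / (2 * Real.exp 1)) ^ n) * ((n + 2) / n) := by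
              ring
          _ ≤ _ := mul_le_mul_of_nonneg_right h2 (by positivity)
      calc ((n : ℝ) / 2 + 1) * Real.Gamma ((n : ℝ) / 2 + 1)
          ≤ ((n : ℝ) / 2 + 1) * (3 * n * (√((n : ℝ) / (2 * Real.exp 1))) ^ n) :=
            mul_le_mul_of_nonneg_left ih' (by positivity)
        _ = (3 * n * ((n : ℝ) / 2 + 1) / Real.exp 1)
            * ((√((n : ℝ) / (2 * Real.exp 1))) ^ n * Real.exp 1) := by
            field_simp
        _ ≤ (3 * n * ((n : ℝ) / 2 + 1) / Real.exp 1)
            * (√(((n + 2 : ℕ) : ℝ) / (2 * Real.exp 1)) ^ n * ((n + 2) / n)) :=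
            mul_le_mul_of_nonneg_left key (by positivity)
        _ = _ := by
            push_cast
            field_simp

/-- Volume of a ball in `ℝⁿ`: at least `(√(2πe/n) r)ⁿ / (3n)`. -/
theorem volume_ball_ge (n : ℕ) (hn : 0 < n) (x : EuclideanSpace ℝ (Fin n)) (r : ℝ) (hr : 0 ≤ r) :
    ENNReal.ofReal ((√(2 * Real.pi * Real.exp 1 / n) * r) ^ n / (3 * n))
      ≤ volume (Metric.ball x r) := by
  have hn' : (0 : ℝ) < n := by exact_mod_cast hn
  have : Nonempty (Fin n) := ⟨⟨0, hn⟩⟩
  rw [EuclideanSpace.volume_ball, Fintype.card_fin, ← ENNReal.ofReal_pow hr,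
    ← ENNReal.ofReal_mul (by positivity)]
  apply ENNReal.ofReal_le_ofReal
  have h1 := gamma_half_upper n hn
  have h2 : 0 < √((n : ℝ) / (2 * Real.exp 1)) := Real.sqrt_pos.mpr (by positivity)
  have h3 : 0 < Real.Gamma ((n : ℝ) / 2 + 1) := Real.Gamma_pos_of_pos (by positivity)
  rw [mul_pow, mul_comm, mul_div_assoc]
  apply mul_le_mul_of_nonneg_left _ (by positivity)
  have e0 : √(2 * Real.pi * Real.exp 1 / n) ^ n
      = √Real.pi ^ n / √((n : ℝ) / (2 * Real.exp 1)) ^ n := by
    rw [← div_pow, ← Real.sqrt_div Real.pi_pos.le]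
    congr 2
    field_simp
  calc √(2 * Real.pi * Real.exp 1 / n) ^ n / (3 * n)
      = √Real.pi ^ n / (3 * n * √((n : ℝ) / (2 * Real.exp 1)) ^ n) := by
        rw [e0, div_div, mul_comm (3 * (n : ℝ))]
    _ ≤ √Real.pi ^ n / Real.Gamma ((n : ℝ) / 2 + 1) :=
        div_le_div_of_nonneg_left (by positivity) h3 h1

/-- the lattice generated by the columns of `A` -/
def lat {n : ℕ} (A : Matrix (Fin n) (Fin n) ℝ) : Set (EuclideanSpace ℝ (Fin n)) :=
  Set.range fun v : Fin n → ℤ => A.toLpLin 2 2 (toE v)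

theorem norm_sq_toLpLin {n : ℕ} (A : Matrix (Fin n) (Fin n) ℝ) (v : Fin n → ℤ) :
    ‖A.toLpLin 2 2 (toE v)‖ ^ 2 = ∑ i, (Matrix.mulVec A (fun j => (v j : ℝ))) i ^ 2 := by
  rw [EuclideanSpace.norm_sq_eq]
  apply Finset.sum_congr rfl
  intro i _
  rw [Real.norm_eq_abs, sq_abs]
  rfl

theorem toE_sub {n : ℕ} (v w : Fin n → ℤ) : toE (v - w) = toE v - toE w := by
  ext i
  simp [toE]

/-- The lattice packing. -/
theorem lat_packing {n : ℕ} (A : Matrix (Fin n) (Fin n) ℝ) (m : ℝ) (hm : 0 < m)
    (h : ∀ w : Fin n → ℤ, w ≠ 0 → m ≤ ∑ i, (Matrix.mulVec A (fun j => (w j : ℝ))) i ^ 2) :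
    IsPacking (lat A) (√m / 2) := by
  refine ⟨by positivity, ?_⟩
  rintro x ⟨v, rfl⟩ y ⟨w, rfl⟩ hxy
  have hvw : v - w ≠ 0 := by
    intro e
    apply hxy
    rw [sub_eq_zero.mp e]
  have h1 := h _ hvw
  rw [← norm_sq_toLpLin, toE_sub, map_sub] at h1
  have h2 : √m ≤ ‖A.toLpLin 2 2 (toE v) - A.toLpLin 2 2 (toE w)‖ := by
    rw [Real.sqrt_le_left (norm_nonneg _)]
    exact h1
  change Disjoint (Metric.ball _ _) (Metric.ball _ _)
  have hpos : 0 < √m / 2 := by positivity
  rw [disjoint_ball_ball_iff hpos hpos, dist_eq_norm]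
  linarith

theorem cube_sub_norm {n : ℕ} (v : Fin n → ℤ) (x : EuclideanSpace ℝ (Fin n)) (hx : x ∈ cube v) :
    ‖x - toE v‖ ≤ √n := by
  rw [mem_cube] at hx
  rw [EuclideanSpace.norm_eq]
  apply Real.sqrt_le_sqrt
  calc ∑ i, ‖(x - toE v) i‖ ^ 2 ≤ ∑ i : Fin n, (1 : ℝ) := by
        apply Finset.sum_le_sum
        intro i _
        have e : (x - toE v) i = x i - v i := by simp [toE]
        rw [e, Real.norm_eq_abs, sq_abs]
        have := hx i
        nlinarith [this.1, this.2]
    _ = n := by simp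

/-- The density of the lattice packing is at least `vol(ball)/|det A|`. -/
theorem density_lat {n : ℕ} (hn : 0 < n) (A : Matrix (Fin n) (Fin n) ℝ) (hA : A.det ≠ 0)
    (r : ℝ) (h : IsPacking (lat A) r) :
    volume (Metric.ball (0 : EuclideanSpace ℝ (Fin n)) r) / ENNReal.ofReal |A.det|
      ≤ upperDensity (lat A) r := by
  classical
  have : Nonempty (Fin n) := ⟨⟨0, hn⟩⟩
  have hr := h.1
  set f := A.toLpLin 2 2 with hf
  have hdet : LinearMap.det f = A.det := LinearMap.det_toLpLin 2 A
  have hinj : Function.Injective f := by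
    rw [← LinearMap.ker_eq_bot]
    by_contra hb
    exact hA (hdet ▸ (LinearMap.det_eq_zero_iff_ker_ne_bot.mpr hb))
  set g : EuclideanSpace ℝ (Fin n) →L[ℝ] EuclideanSpace ℝ (Fin n) := LinearMap.toContinuousLinearMap f
    with hg
  have hgf : ∀ x, g x = f x := fun x => rfl
  set D := ‖g‖ * √n with hD
  set κ := volume (Metric.ball (0 : EuclideanSpace ℝ (Fin n)) 1) with hκ
  have hκ0 : κ ≠ 0 := (Metric.measure_ball_pos volume (0 : EuclideanSpace ℝ (Fin n)) one_pos).ne'
  have hκt : κ ≠ ∞ := measure_ball_lt_top.ne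
  have hvol : ∀ R : ℝ, 0 < R →
      volume (Metric.ball (0 : EuclideanSpace ℝ (Fin n)) R) = ENNReal.ofReal (R ^ n) * κ := by
    intro R hR
    rw [hκ, Measure.addHaar_ball_of_pos _ _ hR]
    simp
  have hd0 : ENNReal.ofReal |A.det| ≠ 0 := by
    rw [Ne, ENNReal.ofReal_eq_zero, not_le]
    exact abs_pos.mpr hA
  have hbound : ∀ᶠ R : ℝ in atTop,
      ENNReal.ofReal ((1 - (r + D) / R) ^ n)
        * (volume (Metric.ball (0 : EuclideanSpace ℝ (Fin n)) r) / ENNReal.ofReal |A.det|)
      ≤ volume (Metric.ball (0 : EuclideanSpace ℝ (Fin n)) R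
          ∩ ⋃ x ∈ lat A, Metric.ball x r) / volume (Metric.ball (0 : EuclideanSpace ℝ (Fin n)) R) := by
    filter_upwards [eventually_gt_atTop (max 1 (r + D))] with R hR
    have hR0 : 0 < R := lt_trans one_pos (lt_of_le_of_lt (le_max_left _ _) hR)
    have hRD : 0 < R - (r + D) := by
      have := lt_of_le_of_lt (le_max_right _ _) hR
      linarith
    -- the finite set of lattice vectors in the ball of radius `R - r`
    have hfin : {v : Fin n → ℤ | ‖f (toE v)‖ ≤ R - r}.Finite := by
      obtain ⟨c, hc, hc'⟩ : ∃ c : ℝ, 0 < c ∧ ∀ x, ‖x‖ ≤ c * ‖f x‖ := by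
        set e := LinearEquiv.ofInjectiveEndo f hinj
        set e' : EuclideanSpace ℝ (Fin n) →L[ℝ] EuclideanSpace ℝ (Fin n) :=
          LinearMap.toContinuousLinearMap (e.symm : _ →ₗ[ℝ] _) with he'
        refine ⟨‖e'‖ + 1, by positivity, fun x => ?_⟩
        have h1 : e' (f x) = x := by
          change e.symm (f x) = x
          exact LinearEquiv.symm_apply_apply e x
        calc ‖x‖ = ‖e' (f x)‖ := by rw [h1]
          _ ≤ ‖e'‖ * ‖f x‖ := e'.le_opNorm _
          _ ≤ _ := by nlinarith [norm_nonneg (f x)]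
      apply Set.Finite.subset (intBall n (c * (R - r))).finite_toSet
      intro v hv
      rw [mem_coe, mem_intBall]
      exact (hc' _).trans (mul_le_mul_of_nonneg_left hv hc.le)
    set W := hfin.toFinset with hW
    have hmemW : ∀ v, v ∈ W ↔ ‖f (toE v)‖ ≤ R - r := by
      intro v; rw [hW, Set.Finite.mem_toFinset]; rfl
    -- covering of the smaller ball by cells
    have hcov : Metric.ball (0 : EuclideanSpace ℝ (Fin n)) (R - (r + D)) ⊆ ⋃ v ∈ W, f '' (cube v) := by
      intro y hy
      rw [mem_ball_zero_iff] at hy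
      have hsurj : Function.Surjective f := LinearMap.surjective_of_injective hinj
      obtain ⟨z, rfl⟩ := hsurj y
      have hz : z ∈ cube (fun i => ⌊z i⌋) := by
        rw [mem_cube]
        intro i
        exact ⟨Int.floor_le _, Int.lt_floor_add_one _⟩
      simp only [Set.mem_iUnion]
      refine ⟨_, ?_, z, hz, rfl⟩
      rw [hmemW]
      have h1 : ‖f (toE fun i => ⌊z i⌋)‖ ≤ ‖f z‖ + ‖f (z - toE fun i => ⌊z i⌋)‖ := by
        have e : f (toE fun i => ⌊z i⌋) = f z - f (z - toE fun i => ⌊z i⌋) := by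
          rw [map_sub]; abel
        rw [e]
        exact norm_sub_le _ _
      have h2 : ‖f (z - toE fun i => ⌊z i⌋)‖ ≤ D := by
        calc _ = ‖g (z - toE fun i => ⌊z i⌋)‖ := rfl
          _ ≤ ‖g‖ * ‖z - toE fun i => ⌊z i⌋‖ := g.le_opNorm _
          _ ≤ D := mul_le_mul_of_nonneg_left (cube_sub_norm _ _ hz) (norm_nonneg _)
      linarith
    have hcard : ENNReal.ofReal ((R - (r + D)) ^ n) * κ ≤ W.card * ENNReal.ofReal |A.det| := by
      rw [← hvol _ hRD]
      calc _ ≤ volume (⋃ v ∈ W, f '' (cube v)) := measure_mono hcov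
        _ ≤ ∑ v ∈ W, volume (f '' (cube v)) := measure_biUnion_finset_le _ _
        _ = ∑ v ∈ W, ENNReal.ofReal |A.det| := by
            apply Finset.sum_congr rfl
            intro v _
            rw [Measure.addHaar_image_linearMap, hdet, cube_vol, mul_one]
        _ = _ := by rw [Finset.sum_const, nsmul_eq_mul]
    -- the balls
    have hballs : (W.card : ℝ≥0∞) * volume (Metric.ball (0 : EuclideanSpace ℝ (Fin n)) r)
        ≤ volume (Metric.ball (0 : EuclideanSpace ℝ (Fin n)) R ∩ ⋃ x ∈ lat A, Metric.ball x r) := by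
      calc _ = ∑ v ∈ W, volume (Metric.ball (f (toE v)) r) := by
            rw [← nsmul_eq_mul, ← Finset.sum_const]
            apply Finset.sum_congr rfl
            intro v _
            exact (Measure.addHaar_ball_center _ _ _).symm
        _ = volume (⋃ v ∈ W, Metric.ball (f (toE v)) r) := by
            rw [measure_biUnion_finset]
            · intro v _ w _ hvw
              apply h.2 ⟨v, rfl⟩ ⟨w, rfl⟩
              intro e
              apply hvw
              have e1 := hinj e
              funext i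
              have e2 := congrArg (fun z : EuclideanSpace ℝ (Fin n) => z i) e1
              have e3 : (v i : ℝ) = w i := e2
              exact_mod_cast e3
            · intro v _
              exact measurableSet_ball
        _ ≤ _ := by
            apply measure_mono
            intro y hy
            simp only [Set.mem_iUnion] at hy
            obtain ⟨v, hv, hy⟩ := hy
            refine ⟨?_, ?_⟩
            · rw [mem_ball_zero_iff]
              have h1 : ‖y - f (toE v)‖ < r := by rw [← dist_eq_norm]; exact hy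
              have h2 := (hmemW v).mp hv
              calc ‖y‖ = ‖f (toE v) + (y - f (toE v))‖ := by congr 1; abel
                _ ≤ ‖f (toE v)‖ + ‖y - f (toE v)‖ := norm_add_le _ _
                _ < R := by linarith
            · simp only [Set.mem_iUnion]
              exact ⟨f (toE v), ⟨v, rfl⟩, hy⟩
    have hRn : ENNReal.ofReal (R ^ n) ≠ 0 := by
      rw [Ne, ENNReal.ofReal_eq_zero, not_le]; positivity
    rw [hvol R hR0, ENNReal.le_div_iff_mul_le (Or.inl (mul_ne_zero hRn hκ0))
      (Or.inl (ENNReal.mul_ne_top ENNReal.ofReal_ne_top hκt))]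
    refine le_trans ?_ hballs
    have e1 : (R - (r + D)) ^ n = (1 - (r + D) / R) ^ n * R ^ n := by
      rw [← mul_pow]
      congr 1
      field_simp
    have hpos : 0 ≤ (1 - (r + D) / R) ^ n := by
      have : 1 - (r + D) / R = (R - (r + D)) / R := by field_simp
      rw [this]
      positivity
    rw [e1, ENNReal.ofReal_mul hpos] at hcard
    calc _ = (ENNReal.ofReal ((1 - (r + D) / R) ^ n) * ENNReal.ofReal (R ^ n) * κ)
          * (volume (Metric.ball (0 : EuclideanSpace ℝ (Fin n)) r) / ENNReal.ofReal |A.det|) := by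
          ring
      _ ≤ (W.card * ENNReal.ofReal |A.det|)
          * (volume (Metric.ball (0 : EuclideanSpace ℝ (Fin n)) r) / ENNReal.ofReal |A.det|) := by
          gcongr
      _ = _ := by
          rw [mul_assoc, ENNReal.mul_div_cancel hd0 ENNReal.ofReal_ne_top]
  have hlim : Tendsto (fun R : ℝ => ENNReal.ofReal ((1 - (r + D) / R) ^ n)
      * (volume (Metric.ball (0 : EuclideanSpace ℝ (Fin n)) r) / ENNReal.ofReal |A.det|)) atTop
      (𝓝 (ENNReal.ofReal ((1 - 0) ^ n)
        * (volume (Metric.ball (0 : EuclideanSpace ℝ (Fin n)) r) / ENNReal.ofReal |A.det|))) := by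
    apply ENNReal.Tendsto.mul_const
    · apply ENNReal.tendsto_ofReal
      apply Tendsto.pow
      apply Tendsto.const_sub
      exact tendsto_const_nhds.div_atTop tendsto_id
    · right
      exact ENNReal.div_ne_top measure_ball_lt_top.ne hd0
  have e0 : ENNReal.ofReal ((1 - 0 : ℝ) ^ n)
        * (volume (Metric.ball (0 : EuclideanSpace ℝ (Fin n)) r) / ENNReal.ofReal |A.det|)
      = volume (Metric.ball (0 : EuclideanSpace ℝ (Fin n)) r) / ENNReal.ofReal |A.det| := by
    simp
  rw [← e0, ← hlim.limsup_eq]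
  exact limsup_le_limsup hbound

/-- Hermite's constant `γ_n`: supremum over full-rank lattices `A ℤⁿ` of the least squared length
of a nonzero vector divided by `covolume^(2/n)`. -/
noncomputable def hermite (n : ℕ) : ℝ :=
  ⨆ A : {A : Matrix (Fin n) (Fin n) ℝ // A.det ≠ 0},
    (⨅ w : {w : Fin n → ℤ // w ≠ 0}, ∑ i, (Matrix.mulVec A.1 (fun j => (w.1 j : ℝ))) i ^ 2)
      / |A.1.det| ^ ((2 : ℝ) / (n : ℝ))

theorem hermite_le_of_rhoStar {n : ℕ} (hn : 0 < n) (c : ℝ)
    (h : rhoStar n ≤ ENNReal.ofReal (2 ^ (-(c * n)))) :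
    hermite n ≤ 4 ^ (1 - c) / (2 * Real.pi * Real.exp 1) * n * (3 * n : ℝ) ^ ((2 : ℝ) / n) := by
  have hn' : (0 : ℝ) < n := by exact_mod_cast hn
  unfold hermite
  apply Real.iSup_le _ (by positivity)
  rintro ⟨A, hA⟩
  simp only
  set m := ⨅ w : {w : Fin n → ℤ // w ≠ 0}, ∑ i, (Matrix.mulVec A (fun j => (w.1 j : ℝ))) i ^ 2
    with hm
  have hd : 0 < |A.det| := abs_pos.mpr hA
  rcases le_or_gt m 0 with hm0 | hm0
  · calc _ ≤ (0 : ℝ) := div_nonpos_of_nonpos_of_nonneg hm0 (by positivity)
      _ ≤ _ := by positivity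
  have hmin : ∀ w : Fin n → ℤ, w ≠ 0 → m ≤ ∑ i, (Matrix.mulVec A (fun j => (w j : ℝ))) i ^ 2 := by
    intro w hw
    have hb : BddBelow (Set.range fun w : {w : Fin n → ℤ // w ≠ 0} =>
        ∑ i, (Matrix.mulVec A (fun j => (w.1 j : ℝ))) i ^ 2) :=
      ⟨0, by rintro _ ⟨w, rfl⟩; positivity⟩
    exact ciInf_le hb ⟨w, hw⟩
  have hpack := lat_packing A m hm0 hmin
  have h1 := density_lat hn A hA _ hpack
  have h2 : upperDensity (lat A) (√m / 2) ≤ rhoStar n := by
    unfold rhoStar
    exact le_iSup_of_le (lat A) (le_iSup_of_le (√m / 2) (le_iSup_of_le hpack le_rfl))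
  have h3 := (h1.trans h2).trans h
  have h4 := volume_ball_ge n hn 0 (√m / 2) (by positivity)
  have h5 : ENNReal.ofReal ((√(2 * Real.pi * Real.exp 1 / n) * (√m / 2)) ^ n / (3 * n) / |A.det|)
      ≤ ENNReal.ofReal (2 ^ (-(c * n))) := by
    rw [ENNReal.ofReal_div_of_pos hd]
    exact (ENNReal.div_le_div_right h4 _).trans h3
  have h6 : (√(2 * Real.pi * Real.exp 1 / n) * (√m / 2)) ^ n / (3 * n) / |A.det|
      ≤ 2 ^ (-(c * n)) := (ENNReal.ofReal_le_ofReal_iff (by positivity)).mp h5
  have h7 : (√(2 * Real.pi * Real.exp 1 / n) * (√m / 2)) ^ n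
      ≤ 2 ^ (-(c * n)) * |A.det| * (3 * n) := by
    rw [div_div, div_le_iff₀ (by positivity)] at h6
    linarith
  -- take `2/n`-th powers
  have h8 := Real.rpow_le_rpow (by positivity) h7 (show (0 : ℝ) ≤ 2 / n by positivity)
  have e1 : ((√(2 * Real.pi * Real.exp 1 / n) * (√m / 2)) ^ n) ^ ((2 : ℝ) / n)
      = 2 * Real.pi * Real.exp 1 / n * (m / 4) := by
    rw [← Real.rpow_natCast, ← Real.rpow_mul (by positivity)]
    have : (n : ℝ) * (2 / n) = (2 : ℕ) := by
      push_cast; field_simp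
    rw [this, Real.rpow_natCast, mul_pow, div_pow, Real.sq_sqrt (by positivity),
      Real.sq_sqrt hm0.le]
    norm_num
  have e2 : (2 ^ (-(c * n)) * |A.det| * (3 * n)) ^ ((2 : ℝ) / n)
      = 4 ^ (-c) * |A.det| ^ ((2 : ℝ) / n) * (3 * n) ^ ((2 : ℝ) / n) := by
    rw [Real.mul_rpow (by positivity) (by positivity), Real.mul_rpow (by positivity) (by positivity)]
    congr 2
    rw [← Real.rpow_mul (by norm_num), show (4 : ℝ) = 2 ^ (2 : ℝ) by norm_num,
      ← Real.rpow_mul (by norm_num)]
    congr 1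
    field_simp
  rw [e1, e2] at h8
  have hdp : 0 < |A.det| ^ ((2 : ℝ) / n) := by positivity
  rw [div_le_iff₀ hdp]
  have e3 : (4 : ℝ) ^ (1 - c) = 4 * 4 ^ (-c) := by
    rw [sub_eq_add_neg, Real.rpow_add (by norm_num), Real.rpow_one]
  rw [e3]
  have hpe : 0 < 2 * Real.pi * Real.exp 1 := by positivity
  have h9 : m ≤ (4 ^ (-c) * |A.det| ^ ((2 : ℝ) / n) * (3 * n) ^ ((2 : ℝ) / n))
      * (4 * n / (2 * Real.pi * Real.exp 1)) := by
    have : m = (2 * Real.pi * Real.exp 1 / n * (m / 4)) * (4 * n / (2 * Real.pi * Real.exp 1)) := by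
      field_simp
    rw [this]
    exact mul_le_mul_of_nonneg_right h8 (by positivity)
  refine h9.trans (le_of_eq ?_)
  ring

theorem tendsto_three_n : Tendsto (fun n : ℕ => (3 * n : ℝ) ^ ((2 : ℝ) / n)) atTop (𝓝 1) := by
  have h1 : Tendsto (fun n : ℕ => Real.exp (Real.log (3 * n) / (3 * n) * 6)) atTop
      (𝓝 (Real.exp (0 * 6))) := by
    apply (Real.continuous_exp.tendsto _).comp
    apply Tendsto.mul_const
    have h2 : Tendsto (fun x : ℝ => Real.log x / x) atTop (𝓝 0) :=
      Real.isLittleO_log_id_atTop.tendsto_div_nhds_zero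
    exact h2.comp (tendsto_natCast_atTop_atTop.const_mul_atTop (by norm_num))
  rw [zero_mul, Real.exp_zero] at h1
  refine h1.congr' ?_
  filter_upwards [eventually_gt_atTop 0] with n hn
  have hn' : (0 : ℝ) < n := by exact_mod_cast hn
  rw [Real.rpow_def_of_pos (by positivity)]
  congr 1
  field_simp
  ring

/-- **Hermite's constant.** An exponential bound for the packing density gives
`limsup γ_n / n ≤ 4^(1-c)/(2πe)`. -/
theorem hermite_asymp (c : ℝ)
    (h : ∀ᶠ n : ℕ in atTop, rhoStar n ≤ ENNReal.ofReal (2 ^ (-(c * n)))) (ε : ℝ) (hε : 0 < ε) :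
    ∀ᶠ n : ℕ in atTop, hermite n / n ≤ 4 ^ (1 - c) / (2 * Real.pi * Real.exp 1) + ε := by
  set B : ℝ := 4 ^ (1 - c) / (2 * Real.pi * Real.exp 1) with hB
  have h1 : Tendsto (fun n : ℕ => B * (3 * n : ℝ) ^ ((2 : ℝ) / n)) atTop (𝓝 (B * 1)) :=
    tendsto_three_n.const_mul B
  rw [mul_one] at h1
  have h2 := h1.eventually (gt_mem_nhds (show B < B + ε by linarith))
  filter_upwards [h, h2, eventually_gt_atTop 0] with n hn1 hn2 hn3
  have hn' : (0 : ℝ) < n := by exact_mod_cast hn3
  have h3 := hermite_le_of_rhoStar hn3 c hn1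
  rw [div_le_iff₀ hn']
  calc hermite n ≤ B * n * (3 * n : ℝ) ^ ((2 : ℝ) / n) := h3
    _ = (B * (3 * n : ℝ) ^ ((2 : ℝ) / n)) * n := by ring
    _ ≤ (B + ε) * n := mul_le_mul_of_nonneg_right hn2.le hn'.le

end Pool.Agent.H390R2.LP
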