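import Pool.Agent.H390R2.LP.Block
import Pool.Agent.H703R2.LP.Cheb

/-! Product structure of a one-site state. -/

open Finset

namespace Pool.Agent.H390R2.LP

section prod
variable {Ω : Type} [Fintype Ω] [DecidableEq Ω] {n : ℕ}

lemma sum_prod (φ : Fin n → Ω → ℝ) : ∑ ω : Fin n → Ω, ∏ k, φ k (ω k) = ∏ k, ∑ o, φ k o :=
  (Fintype.prod_sum φ).symm

/-- product vectors -/
def pv (u : Ω → Ω → ℝ) (a ω : Fin n → Ω) : ℝ := ∏ k, u (a k) (ω k)

lemma pv_inner (u w : Ω → Ω → ℝ) (a c : Fin n → Ω) :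
    ∑ ω, pv u a ω * pv w c ω = ∏ k, ∑ o, u (a k) o * w (c k) o := by
  have : ∀ ω : Fin n → Ω, pv u a ω * pv w c ω = ∏ k, u (a k) (ω k) * w (c k) (ω k) := by
    intro ω; unfold pv; rw [Finset.prod_mul_distrib]
  simp only [this]
  exact sum_prod fun k o => u (a k) o * w (c k) o

lemma prod_ite (a b : Fin n → Ω) (p : Fin n → ℝ) :
    (∏ k, if a k = b k then p k else 0) = if a = b then ∏ k, p k else 0 := by
  by_cases h : a = b
  · subst h; simp
  · rw [if_neg h]
    obtain ⟨k, hk⟩ := Function.ne_iff.mp h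
    exact Finset.prod_eq_zero (Finset.mem_univ k) (if_neg hk)

lemma pv_orth (u : Ω → Ω → ℝ) (hu : ∀ a b, ∑ ω, u a ω * u b ω = if a = b then 1 else 0)
    (a b : Fin n → Ω) : ∑ ω, pv u a ω * pv u b ω = if a = b then 1 else 0 := by
  rw [pv_inner]
  simp only [hu]
  rw [prod_ite a b fun _ => 1]
  simp

variable {X : Type} (s : Site Ω X)

lemma pv_supp (c ω : Fin n → Ω) (h : (fun k => s.pos (ω k)) ≠ fun k => s.lab (c k)) :
    pv s.w c ω = 0 := by
  obtain ⟨k, hk⟩ := Function.ne_iff.mp h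
  exact Finset.prod_eq_zero (Finset.mem_univ k) (s.w_supp _ _ hk)

/-- eigenvalues of the product state -/
noncomputable def Lam (a : Fin n → Ω) : ℝ := ∏ k, s.lam (a k)

/-- eigenvalues of the dephased product state -/
noncomputable def Gg (c : Fin n → Ω) : ℝ := ∏ k, s.g (c k)

lemma Lam_nonneg (a : Fin n → Ω) : 0 ≤ Lam s a := Finset.prod_nonneg fun _ _ => s.lam_nonneg _

lemma Lam_sum : ∑ a : Fin n → Ω, Lam s a = 1 := by
  have := sum_prod (n := n) fun _ o => s.lam o
  unfold Lam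
  rw [this]
  simp [s.lam_sum]

lemma Gg_nonneg (c : Fin n → Ω) : 0 ≤ Gg s c :=
  Finset.prod_nonneg fun _ _ => Pool.Agent.H703R2.LP.site_g_nonneg s _

lemma Gg_sum : ∑ c : Fin n → Ω, Gg s c = 1 := by
  have := sum_prod (n := n) fun _ o => s.g o
  unfold Gg
  rw [this]
  simp [Pool.Agent.H703R2.LP.site_g_sum s]

lemma pv_diag (c c' : Fin n → Ω) (h : (fun k => s.lab (c k)) = fun k => s.lab (c' k)) :
    ∑ a : Fin n → Ω, Lam s a * (∑ ω, pv s.u a ω * pv s.w c ω) *
      (∑ ω, pv s.u a ω * pv s.w c' ω) = if c = c' then Gg s c else 0 := by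
  have h1 : ∀ a : Fin n → Ω, Lam s a * (∑ ω, pv s.u a ω * pv s.w c ω) *
      (∑ ω, pv s.u a ω * pv s.w c' ω) = ∏ k, (s.lam (a k) *
        (∑ o, s.u (a k) o * s.w (c k) o) * (∑ o, s.u (a k) o * s.w (c' k) o)) := by
    intro a
    rw [pv_inner, pv_inner, Finset.prod_mul_distrib, Finset.prod_mul_distrib, Lam]
  simp only [h1]
  rw [sum_prod fun k o => s.lam o * (∑ o', s.u o o' * s.w (c k) o') *
    (∑ o', s.u o o' * s.w (c' k) o')]
  have h2 : ∀ k, ∑ o, s.lam o * (∑ o', s.u o o' * s.w (c k) o') *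
      (∑ o', s.u o o' * s.w (c' k) o') = if c k = c' k then s.g (c k) else 0 := fun k =>
    s.w_diag _ _ (congrFun h k)
  simp only [h2]
  rw [prod_ite c c' fun k => s.g (c k)]
  rfl

/-- quadratic form of the product state on combinations of adapted vectors at one position -/
lemma form_le (x : Fin n → X) (α : (Fin n → Ω) → ℝ) (hα : ∀ c, α c ≠ 0 → (fun k => s.lab (c k)) = x) :
    ∑ a : Fin n → Ω, Lam s a * (∑ ω, pv s.u a ω * ∑ c, α c * pv s.w c ω) ^ 2 =
      ∑ c, α c ^ 2 * Gg s c := by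
  have h1 : ∀ a : Fin n → Ω, ∑ ω, pv s.u a ω * ∑ c, α c * pv s.w c ω =
      ∑ c, α c * ∑ ω, pv s.u a ω * pv s.w c ω := by
    intro a
    simp only [Finset.mul_sum]
    rw [Finset.sum_comm]
    exact Finset.sum_congr rfl fun _ _ => Finset.sum_congr rfl fun _ _ => by ring
  simp only [h1]
  have h2 : ∀ a : Fin n → Ω, Lam s a * (∑ c, α c * ∑ ω, pv s.u a ω * pv s.w c ω) ^ 2 =
      ∑ c, ∑ c', α c * α c' * (Lam s a * (∑ ω, pv s.u a ω * pv s.w c ω) *
        (∑ ω, pv s.u a ω * pv s.w c' ω)) := by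
    intro a
    rw [sq, Finset.sum_mul_sum, Finset.mul_sum]
    refine Finset.sum_congr rfl fun c _ => ?_
    rw [Finset.mul_sum]
    exact Finset.sum_congr rfl fun _ _ => by ring
  simp only [h2]
  rw [Finset.sum_comm]
  refine Finset.sum_congr rfl fun c _ => ?_
  rw [Finset.sum_comm]
  simp only [← Finset.mul_sum]
  have h3 : ∀ c', α c * α c' * ∑ a : Fin n → Ω, Lam s a * (∑ ω, pv s.u a ω * pv s.w c ω) *
        (∑ ω, pv s.u a ω * pv s.w c' ω) = if c' = c then α c ^ 2 * Gg s c else 0 := by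
    intro c'
    by_cases hc : α c = 0
    · rw [hc]; simp
    · by_cases hc' : α c' = 0
      · rw [hc']
        by_cases h : c' = c
        · subst h; exact absurd hc' hc
        · rw [if_neg h]; ring
      · rw [pv_diag s c c' ((hα c hc).trans (hα c' hc').symm)]
        by_cases h : c' = c
        · subst h; rw [if_pos rfl, if_pos rfl]; ring
        · rw [if_neg h, if_neg (Ne.symm h), mul_zero]
  simp only [h3]
  simp

lemma Gg_eq (c : Fin n → Ω) :
    ∑ a : Fin n → Ω, Lam s a * (∑ ω, pv s.u a ω * pv s.w c ω) ^ 2 = Gg s c := by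
  have := pv_diag s c c rfl
  rw [if_pos rfl] at this
  rw [← this]
  exact Finset.sum_congr rfl fun _ _ => by ring

/-- position distribution -/
lemma P_prod [DecidableEq X] (x : Fin n → X) :
    ∑ c ∈ univ.filter (fun c : Fin n → Ω => (fun k => s.lab (c k)) = x), Gg s c =
      ∏ k, s.P (x k) := by
  rw [Finset.sum_filter]
  have h1 : ∀ c : Fin n → Ω, (if (fun k => s.lab (c k)) = x then Gg s c else 0) =
      ∏ k, if s.lab (c k) = x k then s.g (c k) else 0 := by
    intro c
    by_cases h : (fun k => s.lab (c k)) = x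
    · rw [if_pos h]
      refine Finset.prod_congr rfl fun k _ => ?_
      rw [if_pos (congrFun h k)]
    · rw [if_neg h]
      obtain ⟨k, hk⟩ := Function.ne_iff.mp h
      exact (Finset.prod_eq_zero (Finset.mem_univ k) (if_neg hk)).symm
  simp only [h1]
  rw [sum_prod fun k o => if s.lab o = x k then s.g o else 0]
  refine Finset.prod_congr rfl fun k _ => ?_
  unfold Site.P
  rw [Finset.sum_filter]

/-- one-coordinate matrix elements of product vectors -/
lemma pv_one (φ : Ω → ℝ) (k : Fin n) (a b : Fin n → Ω) :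
    ∑ ω, pv s.u a ω * φ (ω k) * pv s.u b ω =
      (∑ o, s.u (a k) o * φ o * s.u (b k) o) * ∏ l ∈ univ.erase k, (if a l = b l then 1 else 0) := by
  have h1 : ∀ ω : Fin n → Ω, pv s.u a ω * φ (ω k) * pv s.u b ω =
      ∏ l, (s.u (a l) (ω l) * (if l = k then φ (ω l) else 1) * s.u (b l) (ω l)) := by
    intro ω
    rw [Finset.prod_mul_distrib, Finset.prod_mul_distrib]
    simp [pv]
  simp only [h1]
  rw [sum_prod fun l o => s.u (a l) o * (if l = k then φ o else 1) * s.u (b l) o,
    ← Finset.mul_prod_erase univ _ (Finset.mem_univ k)]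
  congr 1
  · simp
  · refine Finset.prod_congr rfl fun l hl => ?_
    rw [Finset.mem_erase] at hl
    simp only [hl.1, if_false, mul_one]
    exact s.u_orth _ _

/-- overlap sum at coordinate `k` -/
lemma overlap_prod (φ : Ω → ℝ) (k : Fin n) :
    ∑ a : Fin n → Ω, ∑ b : Fin n → Ω, √(Lam s a * Lam s b) *
      (∑ ω, pv s.u a ω * φ (ω k) * pv s.u b ω) ^ 2 =
      ∑ a, ∑ b, √(s.lam a * s.lam b) * (∑ o, s.u a o * φ o * s.u b o) ^ 2 := by
  have h1 : ∀ a b : Fin n → Ω, √(Lam s a * Lam s b) *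
      (∑ ω, pv s.u a ω * φ (ω k) * pv s.u b ω) ^ 2 =
      ∏ l, (if l = k then √(s.lam (a l) * s.lam (b l)) *
        (∑ o, s.u (a l) o * φ o * s.u (b l) o) ^ 2 else
          (if a l = b l then s.lam (a l) else 0)) := by
    intro a b
    rw [← Finset.mul_prod_erase univ _ (Finset.mem_univ k), if_pos rfl, pv_one]
    have h2 : ∏ l ∈ univ.erase k, (if l = k then √(s.lam (a l) * s.lam (b l)) *
        (∑ o, s.u (a l) o * φ o * s.u (b l) o) ^ 2 else
          (if a l = b l then s.lam (a l) else 0)) =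
        ∏ l ∈ univ.erase k, (if a l = b l then s.lam (a l) else 0) := by
      refine Finset.prod_congr rfl fun l hl => ?_
      rw [Finset.mem_erase] at hl
      rw [if_neg hl.1]
    rw [h2]
    have h3 : √(Lam s a * Lam s b) = √(s.lam (a k) * s.lam (b k)) *
        ∏ l ∈ univ.erase k, √(s.lam (a l) * s.lam (b l)) := by
      unfold Lam
      rw [← Finset.prod_mul_distrib, Finset.mul_prod_erase univ
        (fun l => √(s.lam (a l) * s.lam (b l))) (Finset.mem_univ k)]
      exact Real.sqrt_prod _ fun l _ => mul_nonneg (s.lam_nonneg _) (s.lam_nonneg _)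
    rw [h3]
    have h4 : (∏ l ∈ univ.erase k, √(s.lam (a l) * s.lam (b l))) *
        (∏ l ∈ univ.erase k, (if a l = b l then (1:ℝ) else 0)) ^ 2 =
        ∏ l ∈ univ.erase k, (if a l = b l then s.lam (a l) else 0) := by
      rw [← Finset.prod_pow, ← Finset.prod_mul_distrib]
      refine Finset.prod_congr rfl fun l _ => ?_
      by_cases h : a l = b l
      · rw [if_pos h, if_pos h, h, Real.sqrt_mul_self (s.lam_nonneg _)]; ring
      · rw [if_neg h, if_neg h]; ring
    rw [← h4]; ring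
  simp only [h1]
  have h5 : ∀ a : Fin n → Ω, ∑ b : Fin n → Ω,
      ∏ l, (if l = k then √(s.lam (a l) * s.lam (b l)) *
        (∑ o, s.u (a l) o * φ o * s.u (b l) o) ^ 2 else
          (if a l = b l then s.lam (a l) else 0)) =
      ∏ l, (if l = k then ∑ o', √(s.lam (a l) * s.lam o') *
        (∑ o, s.u (a l) o * φ o * s.u o' o) ^ 2 else s.lam (a l)) := by
    intro a
    rw [sum_prod fun l o' => (if l = k then √(s.lam (a l) * s.lam o') *
        (∑ o, s.u (a l) o * φ o * s.u o' o) ^ 2 else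
          (if a l = o' then s.lam (a l) else 0))]
    refine Finset.prod_congr rfl fun l _ => ?_
    by_cases h : l = k
    · simp [h]
    · simp [h]
  simp only [h5]
  rw [sum_prod fun l o'' => (if l = k then ∑ o', √(s.lam o'' * s.lam o') *
        (∑ o, s.u o'' o * φ o * s.u o' o) ^ 2 else s.lam o''),
    ← Finset.mul_prod_erase univ _ (Finset.mem_univ k)]
  have h6 : ∏ l ∈ univ.erase k, ∑ o'', (if l = k then ∑ o', √(s.lam o'' * s.lam o') *
        (∑ o, s.u o'' o * φ o * s.u o' o) ^ 2 else s.lam o'') = 1 := by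
    refine Finset.prod_eq_one fun l hl => ?_
    rw [Finset.mem_erase] at hl
    simp [hl.1, s.lam_sum]
  rw [h6, mul_one]
  simp

/-- second moment at coordinate `k` -/
lemma moment_prod (φ : Ω → ℝ) (k : Fin n) :
    ∑ a : Fin n → Ω, Lam s a * ∑ ω, pv s.u a ω ^ 2 * φ (ω k) =
      ∑ a, s.lam a * ∑ o, s.u a o ^ 2 * φ o := by
  have h1 : ∀ a : Fin n → Ω, Lam s a * ∑ ω, pv s.u a ω ^ 2 * φ (ω k) =
      ∏ l, (if l = k then s.lam (a l) * ∑ o, s.u (a l) o ^ 2 * φ o else s.lam (a l)) := by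
    intro a
    rw [← Finset.mul_prod_erase univ _ (Finset.mem_univ k), if_pos rfl]
    have h2 : ∏ l ∈ univ.erase k, (if l = k then s.lam (a l) * ∑ o, s.u (a l) o ^ 2 * φ o else
        s.lam (a l)) = ∏ l ∈ univ.erase k, s.lam (a l) := by
      refine Finset.prod_congr rfl fun l hl => ?_
      rw [Finset.mem_erase] at hl
      rw [if_neg hl.1]
    rw [h2]
    have h3 := pv_one s φ k a a
    have h4 : ∑ ω, pv s.u a ω ^ 2 * φ (ω k) = ∑ ω, pv s.u a ω * φ (ω k) * pv s.u a ω :=
      Finset.sum_congr rfl fun _ _ => by ring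
    rw [h4, h3]
    simp only [if_true, Finset.prod_const_one, mul_one]
    have h5 : Lam s a = s.lam (a k) * ∏ l ∈ univ.erase k, s.lam (a l) := by
      unfold Lam
      rw [Finset.mul_prod_erase univ (fun l => s.lam (a l)) (Finset.mem_univ k)]
    rw [h5]
    have h6 : ∑ o, s.u (a k) o * φ o * s.u (a k) o = ∑ o, s.u (a k) o ^ 2 * φ o :=
      Finset.sum_congr rfl fun _ _ => by ring
    rw [h6]; ring
  simp only [h1]
  rw [sum_prod fun l o' => (if l = k then s.lam o' * ∑ o, s.u o' o ^ 2 * φ o else s.lam o'),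
    ← Finset.mul_prod_erase univ _ (Finset.mem_univ k)]
  have h6 : ∏ l ∈ univ.erase k, ∑ o', (if l = k then s.lam o' * ∑ o, s.u o' o ^ 2 * φ o else
      s.lam o') = 1 := by
    refine Finset.prod_eq_one fun l hl => ?_
    rw [Finset.mem_erase] at hl
    simp [hl.1, s.lam_sum]
  rw [h6, mul_one]
  simp

end prod

end Pool.Agent.H390R2.LP
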