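import Pool.Agent.H390R2.LP.ProdA

/-! Truncation, typicality and energy of the product state. -/

open Finset

namespace Pool.Agent.H390R2.LP

section general
variable {A : Type} [Fintype A] [DecidableEq A]

lemma energy_form (U : A → A → ℝ) (hU : ∀ a b, ∑ ω, U a ω * U b ω = if a = b then 1 else 0)
    (F : A → ℝ) (t : A → ℝ) :
    2 * (∑ j, t j ^ 2 * ∑ ω, U j ω ^ 2 * F ω ^ 2 -
      ∑ j, ∑ l, t j * t l * (∑ ω, U j ω * F ω * U l ω) ^ 2) =
      ∑ j, ∑ l, (t j - t l) ^ 2 * (∑ ω, U j ω * F ω * U l ω) ^ 2 := by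
  have hM : ∀ j, ∑ l, (∑ ω, U j ω * F ω * U l ω) ^ 2 = ∑ ω, U j ω ^ 2 * F ω ^ 2 := by
    intro j
    rw [parseval_sq U hU (fun ω => U j ω * F ω)]
    exact Finset.sum_congr rfl fun _ _ => by ring
  have hsym : ∀ j l, (∑ ω, U j ω * F ω * U l ω) = ∑ ω, U l ω * F ω * U j ω := fun j l =>
    Finset.sum_congr rfl fun _ _ => by ring
  have h1 : ∑ j, ∑ l, (t j - t l) ^ 2 * (∑ ω, U j ω * F ω * U l ω) ^ 2 =
      ∑ j, ∑ l, t j ^ 2 * (∑ ω, U j ω * F ω * U l ω) ^ 2 +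
      ∑ j, ∑ l, t l ^ 2 * (∑ ω, U j ω * F ω * U l ω) ^ 2 -
      2 * ∑ j, ∑ l, t j * t l * (∑ ω, U j ω * F ω * U l ω) ^ 2 := by
    simp only [Finset.mul_sum, ← Finset.sum_add_distrib, ← Finset.sum_sub_distrib]
    exact Finset.sum_congr rfl fun _ _ => Finset.sum_congr rfl fun _ _ => by ring
  have h2 : ∑ j, ∑ l, t j ^ 2 * (∑ ω, U j ω * F ω * U l ω) ^ 2 =
      ∑ j, t j ^ 2 * ∑ ω, U j ω ^ 2 * F ω ^ 2 := by
    simp only [← Finset.mul_sum, hM]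
  have h3 : ∑ j, ∑ l, t l ^ 2 * (∑ ω, U j ω * F ω * U l ω) ^ 2 =
      ∑ j, t j ^ 2 * ∑ ω, U j ω ^ 2 * F ω ^ 2 := by
    rw [Finset.sum_comm, ← h2]
    exact Finset.sum_congr rfl fun _ _ => Finset.sum_congr rfl fun _ _ => by rw [hsym]
  rw [h1, h2, h3]; ring

variable {n : ℕ}

/-- mass of product atoms that are too light -/
lemma aep_light (hn : 0 < n) (p : A → ℝ) (hp : ∀ a, 0 ≤ p a) (hs : ∑ a, p a = 1) {δ : ℝ}
    (hδ : 0 < δ) :
    ∑ a ∈ univ.filter (fun a : Fin n → A =>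
      ∏ k, p (a k) < Real.exp (-(n * (∑ o, Real.negMulLog (p o) + δ)))), ∏ k, p (a k) ≤
      (∑ o, p o * (-Real.log (p o) - ∑ o', Real.negMulLog (p o')) ^ 2) / (n * δ ^ 2) := by
  classical
  have hm : ∑ o', Real.negMulLog (p o') = ∑ y, p y * (-Real.log (p y)) :=
    Finset.sum_congr rfl fun _ _ => by unfold Real.negMulLog; ring
  set B : Finset (Fin n → A) := univ.filter (fun a : Fin n → A => ∏ k, p (a k) ≠ 0 ∧
      ∏ k, p (a k) < Real.exp (-(n * (∑ o, Real.negMulLog (p o) + δ)))) with hB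
  have h1 : ∑ a ∈ univ.filter (fun a : Fin n → A =>
      ∏ k, p (a k) < Real.exp (-(n * (∑ o, Real.negMulLog (p o) + δ)))), ∏ k, p (a k) =
      ∑ a ∈ B, ∏ k, p (a k) := by
    rw [Finset.sum_filter, Finset.sum_filter]
    refine Finset.sum_congr rfl fun a _ => ?_
    by_cases h : ∏ k, p (a k) = 0
    · simp [h]
    · by_cases h' : ∏ k, p (a k) < Real.exp (-(n * (∑ o, Real.negMulLog (p o) + δ)))
      · rw [if_pos h', if_pos ⟨h, h'⟩]
      · rw [if_neg h', if_neg (fun h'' => h' h''.2)]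
  rw [h1, hm]
  refine Pool.Agent.H703R2.LP.cheb hn p hp hs (fun o => -Real.log (p o)) hδ B ?_
  intro x hx
  rw [hB, Finset.mem_filter] at hx
  obtain ⟨_, h0, h2⟩ := hx
  have hpos : ∀ k, p (x k) ≠ 0 := fun k => Finset.prod_ne_zero_iff.mp h0 k (Finset.mem_univ k)
  have hlog : Real.log (∏ k, p (x k)) = ∑ k, Real.log (p (x k)) :=
    Real.log_prod (fun k _ => hpos k)
  have hppos : 0 < ∏ k, p (x k) :=
    lt_of_le_of_ne (Finset.prod_nonneg fun k _ => hp _) (Ne.symm h0)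
  have h3 : Real.log (∏ k, p (x k)) < -(n * (∑ o, Real.negMulLog (p o) + δ)) := by
    rw [← Real.log_exp (-(n * (∑ o, Real.negMulLog (p o) + δ)))]
    exact Real.log_lt_log hppos h2
  rw [hlog, hm] at h3
  refine le_trans ?_ (le_abs_self _)
  rw [Finset.sum_neg_distrib]
  nlinarith

/-- mass of product atoms that are too heavy -/
lemma aep_heavy (hn : 0 < n) (p : A → ℝ) (hp : ∀ a, 0 ≤ p a) (hs : ∑ a, p a = 1) {δ : ℝ}
    (hδ : 0 < δ) :
    ∑ a ∈ univ.filter (fun a : Fin n → A =>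
      ¬ ∏ k, p (a k) ≤ Real.exp (-(n * (∑ o, Real.negMulLog (p o) - δ)))), ∏ k, p (a k) ≤
      (∑ o, p o * (-Real.log (p o) - ∑ o', Real.negMulLog (p o')) ^ 2) / (n * δ ^ 2) := by
  classical
  have hm : ∑ o', Real.negMulLog (p o') = ∑ y, p y * (-Real.log (p y)) :=
    Finset.sum_congr rfl fun _ _ => by unfold Real.negMulLog; ring
  rw [hm]
  refine Pool.Agent.H703R2.LP.cheb hn p hp hs (fun o => -Real.log (p o)) hδ _ ?_
  intro x hx
  rw [Finset.mem_filter, not_le] at hx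
  obtain ⟨_, h2⟩ := hx
  have hppos : 0 < ∏ k, p (x k) := lt_trans (Real.exp_pos _) h2
  have hpos : ∀ k, p (x k) ≠ 0 := fun k =>
    Finset.prod_ne_zero_iff.mp hppos.ne' k (Finset.mem_univ k)
  have hlog : Real.log (∏ k, p (x k)) = ∑ k, Real.log (p (x k)) :=
    Real.log_prod (fun k _ => hpos k)
  have h3 : -(n * (∑ y, p y * (-Real.log (p y)) - δ)) < Real.log (∏ k, p (x k)) := by
    rw [← Real.log_exp (-(n * (∑ y, p y * (-Real.log (p y)) - δ)))]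
    exact Real.log_lt_log (Real.exp_pos _) h2
  rw [hlog] at h3
  rw [abs_sub_comm]
  refine le_trans ?_ (le_abs_self _)
  rw [Finset.sum_neg_distrib]
  nlinarith

end general

section prod
variable {Ω X I : Type} [Fintype Ω] [DecidableEq Ω] [Fintype I] (s : Site Ω X)
variable {n : ℕ}

/-- truncated amplitudes -/
noncomputable def tt (τ : ℝ) (a : Fin n → Ω) : ℝ := max (√(Lam s a) - τ) 0

lemma tt_nonneg (τ : ℝ) (a : Fin n → Ω) : 0 ≤ tt s τ a := le_max_right _ _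

lemma tt_lip (τ : ℝ) (a b : Fin n → Ω) :
    (tt s τ a - tt s τ b) ^ 2 ≤ (√(Lam s a) - √(Lam s b)) ^ 2 := by
  have h := abs_max_sub_max_le_abs (√(Lam s a) - τ) (√(Lam s b) - τ) 0
  have h2 : √(Lam s a) - τ - (√(Lam s b) - τ) = √(Lam s a) - √(Lam s b) := by ring
  rw [h2] at h
  exact sq_le_sq.mpr h

lemma energy_le (f : I → X → ℝ) (τ : ℝ) :
    2 * ∑ i : Fin n × I, (∑ j : Fin n → Ω, tt s τ j ^ 2 *
      ∑ ω, pv s.u j ω ^ 2 * f i.2 (s.pos (ω i.1)) ^ 2 -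
      ∑ j : Fin n → Ω, ∑ l : Fin n → Ω, tt s τ j * tt s τ l *
        (∑ ω, pv s.u j ω * f i.2 (s.pos (ω i.1)) * pv s.u l ω) ^ 2) ≤ n * s.E f := by
  have hone : ∀ (k : Fin n) (i : I), 2 * (∑ j : Fin n → Ω, tt s τ j ^ 2 *
      ∑ ω, pv s.u j ω ^ 2 * f i (s.pos (ω k)) ^ 2 -
      ∑ j : Fin n → Ω, ∑ l : Fin n → Ω, tt s τ j * tt s τ l *
        (∑ ω, pv s.u j ω * f i (s.pos (ω k)) * pv s.u l ω) ^ 2) ≤
      2 * (∑ a, s.lam a * ∑ ω, s.u a ω ^ 2 * f i (s.pos ω) ^ 2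
        - ∑ a, ∑ b, √(s.lam a * s.lam b) * (∑ ω, s.u a ω * f i (s.pos ω) * s.u b ω) ^ 2) := by
    intro k i
    rw [energy_form (pv s.u) (pv_orth s.u s.u_orth) (fun ω => f i (s.pos (ω k))) (tt s τ)]
    have h1 : ∑ j : Fin n → Ω, ∑ l : Fin n → Ω, (tt s τ j - tt s τ l) ^ 2 *
        (∑ ω, pv s.u j ω * f i (s.pos (ω k)) * pv s.u l ω) ^ 2 ≤
        ∑ j : Fin n → Ω, ∑ l : Fin n → Ω, (√(Lam s j) - √(Lam s l)) ^ 2 *
        (∑ ω, pv s.u j ω * f i (s.pos (ω k)) * pv s.u l ω) ^ 2 :=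
      Finset.sum_le_sum fun j _ => Finset.sum_le_sum fun l _ =>
        mul_le_mul_of_nonneg_right (tt_lip s τ j l) (sq_nonneg _)
    refine h1.trans (le_of_eq ?_)
    rw [← energy_form (pv s.u) (pv_orth s.u s.u_orth) (fun ω => f i (s.pos (ω k)))
      (fun a => √(Lam s a))]
    congr 1
    have h2 : ∑ j : Fin n → Ω, √(Lam s j) ^ 2 * ∑ ω, pv s.u j ω ^ 2 * f i (s.pos (ω k)) ^ 2 =
        ∑ a, s.lam a * ∑ ω, s.u a ω ^ 2 * f i (s.pos ω) ^ 2 := by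
      rw [← moment_prod s (fun o => f i (s.pos o) ^ 2) k]
      exact Finset.sum_congr rfl fun j _ => by rw [Real.sq_sqrt (Lam_nonneg s j)]
    have h3 : ∑ j : Fin n → Ω, ∑ l : Fin n → Ω, √(Lam s j) * √(Lam s l) *
        (∑ ω, pv s.u j ω * f i (s.pos (ω k)) * pv s.u l ω) ^ 2 =
        ∑ a, ∑ b, √(s.lam a * s.lam b) * (∑ ω, s.u a ω * f i (s.pos ω) * s.u b ω) ^ 2 := by
      rw [← overlap_prod s (fun o => f i (s.pos o)) k]
      exact Finset.sum_congr rfl fun j _ => Finset.sum_congr rfl fun l _ => by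
        rw [Real.sqrt_mul (Lam_nonneg s j)]
    rw [h2, h3]
  rw [Finset.mul_sum, Fintype.sum_prod_type]
  calc ∑ k : Fin n, ∑ i : I, 2 * (∑ j : Fin n → Ω, tt s τ j ^ 2 *
      ∑ ω, pv s.u j ω ^ 2 * f i (s.pos (ω k)) ^ 2 -
      ∑ j : Fin n → Ω, ∑ l : Fin n → Ω, tt s τ j * tt s τ l *
        (∑ ω, pv s.u j ω * f i (s.pos (ω k)) * pv s.u l ω) ^ 2)
      ≤ ∑ k : Fin n, ∑ i : I, 2 * (∑ a, s.lam a * ∑ ω, s.u a ω ^ 2 * f i (s.pos ω) ^ 2
        - ∑ a, ∑ b, √(s.lam a * s.lam b) * (∑ ω, s.u a ω * f i (s.pos ω) * s.u b ω) ^ 2) :=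
        Finset.sum_le_sum fun k _ => Finset.sum_le_sum fun i _ => hone k i
    _ = n * s.E f := by
        rw [Finset.sum_const, Finset.card_univ, Fintype.card_fin, nsmul_eq_mul, Site.E,
          ← Finset.mul_sum]

/-- the sum of the truncated amplitudes -/
lemma tt_sum_le {τ : ℝ} (hτ : 0 < τ) : ∑ a : Fin n → Ω, tt s τ a ≤ 1 / τ := by
  have h1 : ∀ a : Fin n → Ω, tt s τ a ≤ Lam s a / τ := by
    intro a
    refine max_le ?_ (div_nonneg (Lam_nonneg s a) hτ.le)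
    rw [le_div_iff₀ hτ]
    have h2 := Real.sq_sqrt (Lam_nonneg s a)
    have h3 := Real.sqrt_nonneg (Lam s a)
    by_cases h : √(Lam s a) ≤ τ
    · nlinarith
    · push Not at h
      nlinarith
  calc ∑ a : Fin n → Ω, tt s τ a ≤ ∑ a : Fin n → Ω, Lam s a / τ :=
        Finset.sum_le_sum fun a _ => h1 a
    _ = 1 / τ := by rw [← Finset.sum_div, Lam_sum s]

/-- lower bound of the total mass of the truncated state -/
lemma tt_sq_sum_ge {τ r A : ℝ} (hτ : 0 < τ) (hr0 : 0 < r) (hr1 : r ≤ 1)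
    (hA : ∑ a ∈ univ.filter (fun a : Fin n → Ω => Lam s a < (τ / r) ^ 2), Lam s a ≤ A) :
    1 - A - 2 * r ≤ ∑ a : Fin n → Ω, tt s τ a ^ 2 := by
  have h1 : ∀ a : Fin n → Ω, ¬ (Lam s a < (τ / r) ^ 2) → (1 - 2 * r) * Lam s a ≤ tt s τ a ^ 2 := by
    intro a ha
    push Not at ha
    have h2 := Real.sq_sqrt (Lam_nonneg s a)
    have h3 : τ / r ≤ √(Lam s a) := Real.le_sqrt_of_sq_le ha
    rw [div_le_iff₀ hr0] at h3
    have h4 : √(Lam s a) * (1 - r) ≤ tt s τ a := by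
      refine le_trans ?_ (le_max_left _ _)
      nlinarith
    have h5 : 0 ≤ √(Lam s a) * (1 - r) := mul_nonneg (Real.sqrt_nonneg _) (by linarith)
    calc (1 - 2 * r) * Lam s a ≤ (1 - r) ^ 2 * Lam s a := by
          refine mul_le_mul_of_nonneg_right ?_ (Lam_nonneg s a)
          nlinarith [sq_nonneg r]
      _ = (√(Lam s a) * (1 - r)) ^ 2 := by rw [mul_pow, h2]; ring
      _ ≤ tt s τ a ^ 2 := pow_le_pow_left₀ h5 h4 2
  have h2 : ∑ a ∈ univ.filter (fun a : Fin n → Ω => ¬ (Lam s a < (τ / r) ^ 2)),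
      (1 - 2 * r) * Lam s a ≤ ∑ a : Fin n → Ω, tt s τ a ^ 2 := by
    calc _ ≤ ∑ a ∈ univ.filter (fun a : Fin n → Ω => ¬ (Lam s a < (τ / r) ^ 2)), tt s τ a ^ 2 :=
          Finset.sum_le_sum fun a ha => h1 a (Finset.mem_filter.mp ha).2
      _ ≤ _ := Finset.sum_le_sum_of_subset_of_nonneg (Finset.filter_subset _ _)
          fun _ _ _ => sq_nonneg _
  rw [← Finset.mul_sum] at h2
  have h3 := Finset.sum_filter_add_sum_filter_not univ
    (fun a : Fin n → Ω => Lam s a < (τ / r) ^ 2) (Lam s)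
  rw [Lam_sum s] at h3
  set y := ∑ a ∈ univ.filter (fun a : Fin n → Ω => ¬ (Lam s a < (τ / r) ^ 2)), Lam s a
  set z := ∑ a ∈ univ.filter (fun a : Fin n → Ω => Lam s a < (τ / r) ^ 2), Lam s a
  have hz : 0 ≤ z := Finset.sum_nonneg fun a _ => Lam_nonneg s a
  nlinarith

end prod

end Pool.Agent.H390R2.LP
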