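import Pool.Agent.H390R2.LP.ProdB

/-! The weighted product theorem from the master inequality. -/

open Finset

namespace Pool.Agent.H390R2.LP

/-- finite-`n` product inequality, with explicit error terms -/
theorem prod_ineq (master : Master) {Ω X I : Type} [Fintype Ω] [DecidableEq Ω] [Fintype X]
    [DecidableEq X] [Fintype I] (s : Site Ω X) (f : I → X → ℝ) {n : ℕ} {τ γ : ℝ} (hτ : 0 < τ)
    (hγ : 0 ≤ γ) (wt : Finset (Fin n → X) → ℝ) (d : ℝ) (hd : 0 ≤ d) (hwt : ∀ S, 0 ≤ wt S)
    (hcov : ∀ x, ∑ S ∈ univ.filter (fun S : Finset (Fin n → X) => x ∈ S), wt S ≤ 1)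
    (hdist : ∀ S, wt S ≠ 0 → ∀ x ∈ S, ∀ y ∈ S, x ≠ y →
      d ≤ ∑ k, ∑ i, (f i (x k) - f i (y k)) ^ 2) :
    d * (∑ a : Fin n → Ω, tt s τ a ^ 2 - √(γ * ∑ S, wt S) / τ -
      ∑ c ∈ univ.filter (fun c : Fin n → Ω => ¬ Gg s c ≤ γ), Gg s c -
      ∑ x : Fin n → X, (∏ k, s.P (x k)) *
      (1 - ∑ S ∈ univ.filter (fun S : Finset (Fin n → X) => x ∈ S), wt S)) ≤ n * s.E f := by
  classical
  set cov : (Fin n → X) → ℝ := fun x =>
    ∑ S ∈ univ.filter (fun S : Finset (Fin n → X) => x ∈ S), wt S with hcovdef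
  set W : Finset (Fin n → X) ⊕ (Fin n → X) → (Fin n → X) → ℝ := fun v x =>
    Sum.elim (fun S => if x ∈ S then √(wt S) else 0) (fun y => if x = y then √(1 - cov y) else 0) v
    with hW
  set good : Finset (Fin n → X) ⊕ (Fin n → X) → (Fin n → Ω) → Prop := fun v c =>
    Sum.elim (fun _ => Gg s c ≤ γ) (fun _ => False) v with hgood
  set κ : Finset (Fin n → X) ⊕ (Fin n → X) → ℝ := fun v =>
    Sum.elim (fun S => √(wt S * γ)) (fun _ => 0) v with hκ
  have hW2 : ∀ x, ∑ v, W v x ^ 2 = 1 := by
    intro x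
    rw [Fintype.sum_sum_type]
    have h1 : ∑ S, W (Sum.inl S) x ^ 2 = cov x := by
      rw [hcovdef]
      simp only []
      rw [Finset.sum_filter]
      refine Finset.sum_congr rfl fun S _ => ?_
      simp only [hW, Sum.elim_inl]
      by_cases h : x ∈ S
      · rw [if_pos h, if_pos h, Real.sq_sqrt (hwt S)]
      · rw [if_neg h, if_neg h]; ring
    have h2 : ∑ y, W (Sum.inr y) x ^ 2 = 1 - cov x := by
      rw [Finset.sum_eq_single x]
      · simp only [hW, Sum.elim_inr, if_true]
        exact Real.sq_sqrt (by have := hcov x; simp only [hcovdef]; linarith)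
      · intro y _ hy
        simp only [hW, Sum.elim_inr]
        rw [if_neg (Ne.symm hy)]; ring
      · intro h; exact absurd (Finset.mem_univ x) h
    rw [h1, h2]; ring
  have hq : ∀ c : Fin n → Ω, ∑ j, tt s τ j ^ 2 * (∑ ω, pv s.u j ω * pv s.w c ω) ^ 2 ≤ Gg s c := by
    intro c
    rw [← Gg_eq s c]
    refine Finset.sum_le_sum fun j _ => mul_le_mul_of_nonneg_right ?_ (sq_nonneg _)
    have h1 : tt s τ j ≤ √(Lam s j) := by
      refine max_le ?_ (Real.sqrt_nonneg _)
      linarith
    calc tt s τ j ^ 2 ≤ √(Lam s j) ^ 2 := pow_le_pow_left₀ (tt_nonneg s τ j) h1 2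
      _ = Lam s j := Real.sq_sqrt (Lam_nonneg s j)
  have key := master (Fin n → Ω) (Fin n → X) (Finset (Fin n → X) ⊕ (Fin n → X)) (Fin n × I)
    (Fin n → Ω) (fun ω k => s.pos (ω k)) W (fun _ i x => f i.2 (x i.1)) (fun i x => f i.2 (x i.1))
    (fun i x => f i.2 (x i.1) ^ 2) d (pv s.u) (tt s τ) (pv s.w) (fun c k => s.lab (c k)) good κ
    (∑ c ∈ univ.filter (fun c : Fin n → Ω => ¬ Gg s c ≤ γ), Gg s c +
      ∑ x : Fin n → X, (∏ k, s.P (x k)) * (1 - cov x)) hd ?_ hW2 ?_ ?_ ?_
    (pv_orth s.u s.u_orth) (tt_nonneg s τ) (pv_orth s.w s.w_orth) ?_ ?_ ?_ ?_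
  · -- conclusion
    have hκsum : √(∑ v, κ v ^ 2) = √(γ * ∑ S, wt S) := by
      congr 1
      rw [Fintype.sum_sum_type]
      simp only [hκ, Sum.elim_inl, Sum.elim_inr]
      rw [Finset.mul_sum]
      have : ∀ S, √(wt S * γ) ^ 2 = γ * wt S := fun S => by
        rw [Real.sq_sqrt (mul_nonneg (hwt S) hγ)]; ring
      simp [this]
    have h1 : √(∑ v, κ v ^ 2) * ∑ j : Fin n → Ω, tt s τ j ≤ √(γ * ∑ S, wt S) / τ := by
      rw [hκsum, div_eq_mul_one_div]
      exact mul_le_mul_of_nonneg_left (tt_sum_le s hτ) (Real.sqrt_nonneg _)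
    have h2 := key.trans (energy_le s f τ)
    refine le_trans (mul_le_mul_of_nonneg_left ?_ hd) h2
    simp only [hcovdef] at h1 ⊢
    linarith
  · intro v x
    rcases v with S | y
    · simp only [hW, Sum.elim_inl]; split_ifs
      · exact Real.sqrt_nonneg _
      · exact le_rfl
    · simp only [hW, Sum.elim_inr]; split_ifs
      · exact Real.sqrt_nonneg _
      · exact le_rfl
  · intro i x
    rw [← Finset.sum_mul, hW2, one_mul]
  · intro i x
    rw [← Finset.sum_mul, hW2, one_mul]
  · intro v x y hx hy hxy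
    rcases v with S | z
    · simp only [hW, Sum.elim_inl] at hx hy
      by_cases h : x ∈ S
      · by_cases h' : y ∈ S
        · rw [if_pos h] at hx
          have hS : wt S ≠ 0 := fun h0 => hx (by rw [h0, Real.sqrt_zero])
          have := hdist S hS x h y h' hxy
          rw [Fintype.sum_prod_type]
          exact this
        · rw [if_neg h'] at hy; exact absurd rfl hy
      · rw [if_neg h] at hx; exact absurd rfl hx
    · simp only [hW, Sum.elim_inr] at hx hy
      by_cases h : x = z
      · by_cases h' : y = z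
        · exact absurd (h.trans h'.symm) hxy
        · rw [if_neg h'] at hy; exact absurd rfl hy
      · rw [if_neg h] at hx; exact absurd rfl hx
  · intro c ω h
    exact pv_supp s c ω h
  · intro v
    rcases v with S | y
    · simp only [hκ, Sum.elim_inl]; exact Real.sqrt_nonneg _
    · simp only [hκ, Sum.elim_inr]; exact le_rfl
  · intro v x α hα
    rcases v with S | y
    · simp only [hκ, Sum.elim_inl]
      rw [Real.sq_sqrt (mul_nonneg (hwt S) hγ)]
      have h1 : W (Sum.inl S) x ^ 2 ≤ wt S := by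
        simp only [hW, Sum.elim_inl]
        split_ifs
        · rw [Real.sq_sqrt (hwt S)]
        · simpa using hwt S
      have h2 : ∑ j, tt s τ j ^ 2 * (∑ ω, pv s.u j ω * ∑ c, α c * pv s.w c ω) ^ 2 ≤
          γ * ∑ c, α c ^ 2 := by
        calc ∑ j, tt s τ j ^ 2 * (∑ ω, pv s.u j ω * ∑ c, α c * pv s.w c ω) ^ 2
            ≤ ∑ a : Fin n → Ω, Lam s a * (∑ ω, pv s.u a ω * ∑ c, α c * pv s.w c ω) ^ 2 := by
              refine Finset.sum_le_sum fun j _ => mul_le_mul_of_nonneg_right ?_ (sq_nonneg _)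
              have h1 : tt s τ j ≤ √(Lam s j) := by
                refine max_le ?_ (Real.sqrt_nonneg _)
                linarith
              calc tt s τ j ^ 2 ≤ √(Lam s j) ^ 2 := pow_le_pow_left₀ (tt_nonneg s τ j) h1 2
                _ = Lam s j := Real.sq_sqrt (Lam_nonneg s j)
          _ = ∑ c, α c ^ 2 * Gg s c := form_le s x α fun c hc => (hα c hc).2
          _ ≤ ∑ c, γ * α c ^ 2 := by
              refine Finset.sum_le_sum fun c _ => ?_
              by_cases hc : α c = 0
              · rw [hc]; simp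
              · have h3 : Gg s c ≤ γ := by
                  have := (hα c hc).1
                  simpa only [hgood, Sum.elim_inl] using this
                nlinarith [sq_nonneg (α c)]
          _ = γ * ∑ c, α c ^ 2 := by rw [Finset.mul_sum]
      calc _ ≤ wt S * (γ * ∑ c, α c ^ 2) :=
            mul_le_mul h1 h2 (Finset.sum_nonneg fun j _ =>
              mul_nonneg (sq_nonneg _) (sq_nonneg _)) (hwt S)
        _ = wt S * γ * ∑ c, α c ^ 2 := by ring
    · have hα0 : ∀ c, α c = 0 := by
        intro c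
        by_contra h
        have := (hα c h).1
        simp only [hgood, Sum.elim_inr] at this
      simp [hα0]
  · -- the bad part
    rw [Fintype.sum_sum_type]
    refine add_le_add ?_ ?_
    · -- proper blocks
      have h1 : ∀ S : Finset (Fin n → X),
          ∑ c ∈ univ.filter (fun c => ¬ good (Sum.inl S) c),
            W (Sum.inl S) (fun k => s.lab (c k)) ^ 2 *
            ∑ j, tt s τ j ^ 2 * (∑ ω, pv s.u j ω * pv s.w c ω) ^ 2 ≤
          ∑ c ∈ univ.filter (fun c : Fin n → Ω => ¬ Gg s c ≤ γ),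
            (if (fun k => s.lab (c k)) ∈ S then wt S else 0) * Gg s c := by
        intro S
        have hf : (univ.filter (fun c => ¬ good (Sum.inl S) c)) =
            univ.filter (fun c : Fin n → Ω => ¬ Gg s c ≤ γ) := by
          ext c; simp only [hgood, Sum.elim_inl]
        rw [hf]
        refine Finset.sum_le_sum fun c _ => ?_
        have h2 : W (Sum.inl S) (fun k => s.lab (c k)) ^ 2 =
            if (fun k => s.lab (c k)) ∈ S then wt S else 0 := by
          simp only [hW, Sum.elim_inl]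
          split_ifs
          · rw [Real.sq_sqrt (hwt S)]
          · ring
        rw [h2]
        refine mul_le_mul_of_nonneg_left (hq c) ?_
        split_ifs
        · exact hwt S
        · exact le_rfl
      refine (Finset.sum_le_sum fun S _ => h1 S).trans ?_
      rw [Finset.sum_comm]
      refine Finset.sum_le_sum fun c _ => ?_
      rw [← Finset.sum_mul]
      have h3 : ∑ S : Finset (Fin n → X), (if (fun k => s.lab (c k)) ∈ S then wt S else 0) ≤ 1 := by
        rw [← Finset.sum_filter]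
        exact hcov _
      calc _ ≤ 1 * Gg s c := mul_le_mul_of_nonneg_right h3 (Gg_nonneg s c)
        _ = Gg s c := one_mul _
    · -- singletons
      have h1 : ∀ y : Fin n → X,
          ∑ c ∈ univ.filter (fun c => ¬ good (Sum.inr y) c),
            W (Sum.inr y) (fun k => s.lab (c k)) ^ 2 *
            ∑ j, tt s τ j ^ 2 * (∑ ω, pv s.u j ω * pv s.w c ω) ^ 2 ≤
          (∏ k, s.P (y k)) * (1 - cov y) := by
        intro y
        have hc0 : 0 ≤ 1 - cov y := by have := hcov y; simp only [hcovdef]; linarith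
        rw [← P_prod s y, Finset.sum_mul]
        have hf : (univ.filter (fun c => ¬ good (Sum.inr y) c)) =
            (univ : Finset (Fin n → Ω)) := by
          ext c; simp [hgood]
        rw [hf, Finset.sum_filter]
        refine Finset.sum_le_sum fun c _ => ?_
        by_cases h : (fun k => s.lab (c k)) = y
        · rw [if_pos h]
          simp only [hW, Sum.elim_inr]
          rw [if_pos h, Real.sq_sqrt hc0, mul_comm]
          exact mul_le_mul_of_nonneg_right (hq c) hc0
        · rw [if_neg h]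
          simp only [hW, Sum.elim_inr]
          rw [if_neg h]
          simp
      exact Finset.sum_le_sum fun y _ => h1 y

theorem iidw_of_master (master : Master) : IIDw := by
  intro Ω X I _ _ _ _ _ s f ε hε
  set V1 : ℝ := ∑ o, s.lam o * (-Real.log (s.lam o) - ∑ o', Real.negMulLog (s.lam o')) ^ 2 with hV1
  set V2 : ℝ := ∑ o, s.g o * (-Real.log (s.g o) - ∑ o', Real.negMulLog (s.g o')) ^ 2 with hV2
  -- eventual smallness
  have hlim : ∀ c : ℝ, 0 < c → Filter.Tendsto (fun n : ℕ => Real.exp (-(n * c))) Filter.atTop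
      (nhds 0) := by
    intro c hc
    refine Real.tendsto_exp_neg_atTop_nhds_zero.comp ?_
    exact tendsto_natCast_atTop_atTop.atTop_mul_const hc
  have hlim2 : ∀ V c : ℝ, 0 < c → Filter.Tendsto (fun n : ℕ => V / (n * c)) Filter.atTop
      (nhds 0) := by
    intro V c hc
    refine Filter.Tendsto.const_div_atTop ?_ V
    exact tendsto_natCast_atTop_atTop.atTop_mul_const hc
  have e1 : ∀ᶠ n : ℕ in Filter.atTop, Real.exp (-(n * (ε / 16))) < min (ε / 8) 1 :=
    (hlim (ε / 16) (by positivity)).eventually_lt_const (by positivity)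
  have e2 : ∀ᶠ n : ℕ in Filter.atTop, Real.exp (-(n * (ε / 4))) < ε / 4 :=
    (hlim (ε / 4) (by positivity)).eventually_lt_const (by positivity)
  have e3 : ∀ᶠ n : ℕ in Filter.atTop, V1 / (n * (ε / 8) ^ 2) < ε / 4 :=
    (hlim2 V1 _ (by positivity)).eventually_lt_const (by positivity)
  have e4 : ∀ᶠ n : ℕ in Filter.atTop, V2 / (n * (ε / 4) ^ 2) < ε / 4 :=
    (hlim2 V2 _ (by positivity)).eventually_lt_const (by positivity)
  obtain ⟨n0, hn0⟩ := Filter.eventually_atTop.mp
    (((e1.and e2).and (e3.and e4)).and (Filter.eventually_ge_atTop 1))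
  refine ⟨n0, fun n hn wt d hd hwt hcov hdist hsum => ?_⟩
  obtain ⟨⟨⟨h1, h2⟩, h3, h4⟩, hn1⟩ := hn0 n hn
  have hnpos : 0 < n := hn1
  set τ : ℝ := Real.exp (-(n * (s.S + ε / 4)) / 2) with hτdef
  set γ : ℝ := Real.exp (-(n * (s.h - ε / 4))) with hγdef
  set r : ℝ := Real.exp (-(n * (ε / 16))) with hrdef
  have hτ : 0 < τ := Real.exp_pos _
  have hγ : 0 < γ := Real.exp_pos _
  have hr : 0 < r := Real.exp_pos _
  have key := prod_ineq master s f hτ hγ.le wt d hd hwt hcov hdist
  -- (i) mass of the truncated state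
  have hτr : (τ / r) ^ 2 = Real.exp (-(n * (∑ o, Real.negMulLog (s.lam o) + ε / 8))) := by
    rw [hτdef, hrdef, ← Real.exp_sub, ← Real.exp_nat_mul]
    congr 1
    have : ∑ o, Real.negMulLog (s.lam o) = s.S := rfl
    rw [this]
    push_cast
    ring
  have hmass : 1 - V1 / (n * (ε / 8) ^ 2) - 2 * r ≤ ∑ a : Fin n → Ω, tt s τ a ^ 2 := by
    refine tt_sq_sum_ge s hτ hr (lt_of_lt_of_le h1 (min_le_right _ _)).le ?_
    rw [hτr]
    exact aep_light hnpos s.lam s.lam_nonneg s.lam_sum (by positivity)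
  -- (ii) bad labels
  have hbad : ∑ c ∈ univ.filter (fun c : Fin n → Ω => ¬ Gg s c ≤ γ), Gg s c ≤
      V2 / (n * (ε / 4) ^ 2) :=
    aep_heavy hnpos s.g (Pool.Agent.H703R2.LP.site_g_nonneg s)
      (Pool.Agent.H703R2.LP.site_g_sum s) (by positivity)
  -- (iii) diagonal term
  have hdiag : √(γ * ∑ S, wt S) / τ ≤ Real.exp (-(n * (ε / 4))) := by
    rw [div_le_iff₀ hτ]
    have h5 : γ * ∑ S, wt S ≤ Real.exp (-(n * (s.S + 3 * ε / 4))) := by
      calc γ * ∑ S, wt S ≤ γ * Real.exp (n * (s.h - s.S - ε)) :=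
            mul_le_mul_of_nonneg_left hsum hγ.le
        _ = Real.exp (-(n * (s.S + 3 * ε / 4))) := by
            rw [hγdef, ← Real.exp_add]; congr 1; ring
    calc √(γ * ∑ S, wt S) ≤ √(Real.exp (-(n * (s.S + 3 * ε / 4)))) := Real.sqrt_le_sqrt h5
      _ = Real.exp (-(n * (s.S + 3 * ε / 4)) / 2) := by
          rw [← Real.exp_half]
      _ = Real.exp (-(n * (ε / 4))) * τ := by
          rw [hτdef, ← Real.exp_add]; congr 1; ring
  have hr8 : r < ε / 8 := lt_of_lt_of_le h1 (min_le_left _ _)
  have hE : 0 ≤ (n : ℝ) * ε := by positivity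
  refine le_trans (mul_le_mul_of_nonneg_left ?_ hd) (key.trans ?_)
  · linarith
  · nlinarith

end Pool.Agent.H390R2.LP
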