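import Mathlib

/-! Scalar facts: the geometric mean as an integral of harmonic type means. -/

open MeasureTheory Set

namespace Pool.Agent.H390R2.LP

/-- harmonic type mean -/
noncomputable def gs (s a b : ℝ) : ℝ := a * b / (a + s ^ 2 * b)

lemma gs_zero_left (s b : ℝ) : gs s 0 b = 0 := by simp [gs]
lemma gs_zero_right (s a : ℝ) : gs s a 0 = 0 := by simp [gs]

lemma gs_form {a b : ℝ} (ha : 0 < a) (hb : 0 < b) (s : ℝ) :
    gs s a b = b * (1 + (√(b / a) * s) ^ 2)⁻¹ := by
  unfold gs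
  rw [mul_pow, Real.sq_sqrt (by positivity)]
  field_simp

lemma gs_integrable {a b : ℝ} (ha : 0 ≤ a) (hb : 0 ≤ b) :
    IntegrableOn (fun s => gs s a b) (Ioi 0) := by
  rcases ha.eq_or_lt with rfl | ha
  · simp only [gs_zero_left]; exact integrableOn_zero
  rcases hb.eq_or_lt with rfl | hb
  · simp only [gs_zero_right]; exact integrableOn_zero
  simp only [gs_form ha hb]
  refine Integrable.integrableOn ?_
  refine Integrable.const_mul ?_ b
  exact integrable_inv_one_add_sq.comp_mul_left' (by positivity : √(b / a) ≠ 0)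

lemma gs_integral {a b : ℝ} (ha : 0 ≤ a) (hb : 0 ≤ b) :
    ∫ s in Ioi 0, gs s a b = Real.pi / 2 * √(a * b) := by
  rcases ha.eq_or_lt with rfl | ha
  · simp [gs_zero_left]
  rcases hb.eq_or_lt with rfl | hb
  · simp [gs_zero_right]
  simp only [gs_form ha hb]
  rw [integral_const_mul]
  have h1 := integral_comp_mul_left_Ioi (fun x : ℝ => (1 + x ^ 2)⁻¹) 0
    (b := √(b / a)) (by positivity)
  simp only [mul_zero] at h1
  rw [h1, integral_Ioi_inv_one_add_sq]
  simp only [Real.arctan_zero, sub_zero, smul_eq_mul]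
  have h2 : √(b / a) = √(a * b) / a := by
    rw [Real.sqrt_div' _ ha.le, Real.sqrt_mul ha.le, div_eq_div_iff (by positivity) ha.ne']
    nlinarith [Real.mul_self_sqrt ha.le, Real.sqrt_nonneg b]
  rw [h2, inv_div]
  have h3 : √(a * b) * √(a * b) = a * b := Real.mul_self_sqrt (by positivity)
  have h4 : √(a * b) ≠ 0 := by positivity
  have h5 : a / √(a * b) * b = √(a * b) := by
    rw [div_mul_eq_mul_div, div_eq_iff h4, h3]
  calc b * (a / √(a * b) * (Real.pi / 2)) = (a / √(a * b) * b) * (Real.pi / 2) := by ring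
    _ = Real.pi / 2 * √(a * b) := by rw [h5]; ring

lemma gs_nonneg {s a b : ℝ} (ha : 0 ≤ a) (hb : 0 ≤ b) : 0 ≤ gs s a b := by
  unfold gs; positivity

/-- lower bound: any splitting `Z = R + Y` costs at least the harmonic mean -/
lemma gs_le {s a b : ℝ} (hs : 0 < s) (ha : 0 ≤ a) (hb : 0 ≤ b) (R Y : ℝ) :
    s ^ 2 * gs s a b * (R + Y) ^ 2 ≤ a * R ^ 2 + s ^ 2 * (b * Y ^ 2) := by
  unfold gs
  rcases (by positivity : 0 ≤ a + s ^ 2 * b).eq_or_lt with h | h
  · rw [← h]; simp only [div_zero, mul_zero, zero_mul]; positivity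
  · rw [mul_div_assoc', div_mul_eq_mul_div, div_le_iff₀ h]
    nlinarith [sq_nonneg (a * R - s ^ 2 * b * Y)]

/-- the optimal splitting -/
lemma gs_opt {s a b : ℝ} (hs : 0 < s) (ha : 0 ≤ a) (hb : 0 ≤ b) (Z : ℝ) :
    a * (Z - Z * a / (a + s ^ 2 * b)) ^ 2 + s ^ 2 * (b * (Z * a / (a + s ^ 2 * b)) ^ 2) =
      s ^ 2 * gs s a b * Z ^ 2 := by
  unfold gs
  rcases (by positivity : 0 ≤ a + s ^ 2 * b).eq_or_lt with h | h
  · have h1 : a = 0 := by
      have : 0 ≤ s ^ 2 * b := by positivity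
      linarith
    have h2 : b = 0 := by
      rw [h1, zero_add] at h
      rcases mul_eq_zero.mp h.symm with h3 | h3
      · exact absurd h3 (by positivity)
      · exact h3
    subst h1; subst h2; simp
  · field_simp
    ring

end Pool.Agent.H390R2.LP
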