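import Pool.Agent.H390R2.LP.Scalar

/-! Abstract Wigner–Yanase inequality in coordinates. -/

open MeasureTheory Set Finset

namespace Pool.Agent.H390R2.LP

section
variable {J κ : Type} [Fintype J] [Fintype κ] [DecidableEq J] [DecidableEq κ]

lemma bessel (c : J → κ → ℝ) (hc : ∀ j l, ∑ k, c j k * c l k = if j = l then 1 else 0)
    (ζ : κ → ℝ) : ∑ l, (∑ k, ζ k * c l k) ^ 2 ≤ ∑ k, ζ k ^ 2 := by
  set a : J → ℝ := fun l => ∑ k, ζ k * c l k with ha
  have h1 : ∑ k, ζ k * ∑ l, a l * c l k = ∑ l, a l ^ 2 := by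
    simp only [Finset.mul_sum]
    rw [Finset.sum_comm]
    refine Finset.sum_congr rfl fun l _ => ?_
    rw [sq, ha, Finset.mul_sum]
    refine Finset.sum_congr rfl fun k _ => ?_
    simp only [ha]; ring
  have h2 : ∑ k, (∑ l, a l * c l k) ^ 2 = ∑ l, a l ^ 2 := by
    have : ∀ k, (∑ l, a l * c l k) ^ 2 = ∑ l, ∑ l', a l * a l' * (c l k * c l' k) := by
      intro k
      rw [sq, Finset.sum_mul_sum]
      refine Finset.sum_congr rfl fun l _ => Finset.sum_congr rfl fun l' _ => by ring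
    simp only [this]
    rw [Finset.sum_comm]
    refine Finset.sum_congr rfl fun l _ => ?_
    rw [Finset.sum_comm]
    simp only [← Finset.mul_sum, hc]
    simp [sq]
  have h3 : 0 ≤ ∑ k, (ζ k - ∑ l, a l * c l k) ^ 2 := Finset.sum_nonneg fun _ _ => sq_nonneg _
  have h4 : ∑ k, (ζ k - ∑ l, a l * c l k) ^ 2 =
      ∑ k, ζ k ^ 2 - 2 * ∑ k, ζ k * (∑ l, a l * c l k) + ∑ k, (∑ l, a l * c l k) ^ 2 := by
    rw [Finset.mul_sum, ← Finset.sum_sub_distrib, ← Finset.sum_add_distrib]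
    exact Finset.sum_congr rfl fun _ _ => by ring
  rw [h4, h1, h2] at h3
  linarith

/-- a block diagonal quadratic form is diagonal on block diagonal kernels -/
lemma diag_form {B : Type} (c : J → κ → ℝ) (t : J → ℝ) (b : κ → ℝ) (blk : κ → B)
    (hdiag : ∀ k k', blk k = blk k' → ∑ j, t j ^ 2 * (c j k * c j k') =
      if k = k' then b k ^ 2 else 0)
    (R : κ → κ → ℝ) (hR : ∀ k k', blk k ≠ blk k' → R k k' = 0) :
    ∑ j, t j ^ 2 * ∑ k', (∑ k, c j k * R k k') ^ 2 = ∑ k, ∑ k', b k ^ 2 * R k k' ^ 2 := by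
  have h1 : ∀ j, t j ^ 2 * ∑ k', (∑ k, c j k * R k k') ^ 2 =
      ∑ k', ∑ k, ∑ l, R k k' * R l k' * (t j ^ 2 * (c j k * c j l)) := by
    intro j
    rw [Finset.mul_sum]
    refine Finset.sum_congr rfl fun k' _ => ?_
    rw [sq (∑ k, c j k * R k k'), Finset.sum_mul_sum, Finset.mul_sum]
    refine Finset.sum_congr rfl fun k _ => ?_
    rw [Finset.mul_sum]
    exact Finset.sum_congr rfl fun l _ => by ring
  simp only [h1]
  rw [Finset.sum_comm, Finset.sum_comm (s := univ) (t := univ) (f := fun k k' => b k ^ 2 * R k k' ^ 2)]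
  refine Finset.sum_congr rfl fun k' _ => ?_
  rw [Finset.sum_comm]
  refine Finset.sum_congr rfl fun k _ => ?_
  rw [Finset.sum_comm]
  simp only [← Finset.mul_sum]
  rw [Finset.sum_eq_single k]
  · rw [hdiag k k rfl, if_pos rfl]; ring
  · intro l _ hlk
    by_cases hk : blk k = blk k'
    · by_cases hl : blk l = blk k'
      · rw [hdiag k l (hk.trans hl.symm), if_neg (Ne.symm hlk), mul_zero]
      · rw [hR l k' hl]; ring
    · rw [hR k k' hk]; ring
  · intro h; exact absurd (Finset.mem_univ k) h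

lemma wy_s {B : Type} (c : J → κ → ℝ)
    (hc : ∀ j l, ∑ k, c j k * c l k = if j = l then 1 else 0)
    (t : J → ℝ) (b : κ → ℝ) (blk : κ → B)
    (hdiag : ∀ k k', blk k = blk k' → ∑ j, t j ^ 2 * (c j k * c j k') =
      if k = k' then b k ^ 2 else 0)
    (Z : κ → κ → ℝ) (hZ : ∀ k k', blk k ≠ blk k' → Z k k' = 0) {s : ℝ} (hs : 0 < s) :
    ∑ j, ∑ l, gs s (t j ^ 2) (t l ^ 2) * (∑ k, ∑ k', c j k * Z k k' * c l k') ^ 2 ≤
      ∑ k, ∑ k', gs s (b k ^ 2) (b k' ^ 2) * Z k k' ^ 2 := by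
  set Y : κ → κ → ℝ := fun k k' => Z k k' * b k ^ 2 / (b k ^ 2 + s ^ 2 * b k' ^ 2) with hY
  have hY0 : ∀ k k', blk k ≠ blk k' → Y k k' = 0 := by
    intro k k' h; simp only [hY, hZ k k' h, zero_mul, zero_div]
  set R : κ → κ → ℝ := fun k k' => Z k k' - Y k k' with hRdef
  have hR0 : ∀ k k', blk k ≠ blk k' → R k k' = 0 := by
    intro k k' h; simp only [hRdef, hZ k k' h, hY0 k k' h, sub_zero]
  -- the cost of the optimal block splitting
  have h1 : ∑ k, ∑ k', b k ^ 2 * R k k' ^ 2 + s ^ 2 * ∑ k, ∑ k', b k' ^ 2 * Y k k' ^ 2 =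
      s ^ 2 * ∑ k, ∑ k', gs s (b k ^ 2) (b k' ^ 2) * Z k k' ^ 2 := by
    simp only [Finset.mul_sum]
    rw [← Finset.sum_add_distrib]
    refine Finset.sum_congr rfl fun k _ => ?_
    rw [← Finset.sum_add_distrib]
    refine Finset.sum_congr rfl fun k' _ => ?_
    have := gs_opt hs (sq_nonneg (b k)) (sq_nonneg (b k')) (Z k k')
    simp only [hRdef, hY]
    linarith
  -- the same cost in terms of the vectors `c j`
  have h2 := diag_form c t b blk hdiag R hR0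
  have h3 : ∑ l, t l ^ 2 * ∑ k, (∑ k', c l k' * Y k k') ^ 2 =
      ∑ k, ∑ k', b k' ^ 2 * Y k k' ^ 2 := by
    have := diag_form c t b blk hdiag (fun k k' => Y k' k) (fun k k' h => hY0 k' k (Ne.symm h))
    rw [this, Finset.sum_comm]
  -- Bessel
  have h4 : ∀ j, ∑ l, (∑ k, ∑ k', c j k * R k k' * c l k') ^ 2 ≤
      ∑ k', (∑ k, c j k * R k k') ^ 2 := by
    intro j
    refine le_trans (le_of_eq ?_) (bessel c hc fun k' => ∑ k, c j k * R k k')
    refine Finset.sum_congr rfl fun l _ => ?_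
    congr 1
    rw [Finset.sum_comm]
    exact Finset.sum_congr rfl fun k' _ => by rw [Finset.sum_mul]
  have h5 : ∀ l, ∑ j, (∑ k, ∑ k', c j k * Y k k' * c l k') ^ 2 ≤
      ∑ k, (∑ k', c l k' * Y k k') ^ 2 := by
    intro l
    refine le_trans (le_of_eq ?_) (bessel c hc fun k => ∑ k', c l k' * Y k k')
    refine Finset.sum_congr rfl fun j _ => ?_
    congr 1
    refine Finset.sum_congr rfl fun k _ => ?_
    rw [Finset.sum_mul]
    exact Finset.sum_congr rfl fun k' _ => by ring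
  have h6 : s ^ 2 * ∑ j, ∑ l, gs s (t j ^ 2) (t l ^ 2) * (∑ k, ∑ k', c j k * Z k k' * c l k') ^ 2 ≤
      ∑ j, t j ^ 2 * ∑ l, (∑ k, ∑ k', c j k * R k k' * c l k') ^ 2 +
      s ^ 2 * ∑ l, t l ^ 2 * ∑ j, (∑ k, ∑ k', c j k * Y k k' * c l k') ^ 2 := by
    simp only [Finset.mul_sum]
    rw [Finset.sum_comm (s := univ) (t := univ)
      (f := fun l j => s ^ 2 * (t l ^ 2 * (∑ k, ∑ k', c j k * Y k k' * c l k') ^ 2)),
      ← Finset.sum_add_distrib]
    refine Finset.sum_le_sum fun j _ => ?_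
    rw [← Finset.sum_add_distrib]
    refine Finset.sum_le_sum fun l _ => ?_
    have h7 : ∑ k, ∑ k', c j k * Z k k' * c l k' =
        ∑ k, ∑ k', c j k * R k k' * c l k' + ∑ k, ∑ k', c j k * Y k k' * c l k' := by
      rw [← Finset.sum_add_distrib]
      refine Finset.sum_congr rfl fun k _ => ?_
      rw [← Finset.sum_add_distrib]
      refine Finset.sum_congr rfl fun k' _ => ?_
      simp only [hRdef]; ring
    rw [h7, ← mul_assoc]
    exact gs_le hs (sq_nonneg _) (sq_nonneg _) _ _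
  have h8 : ∑ j, t j ^ 2 * ∑ l, (∑ k, ∑ k', c j k * R k k' * c l k') ^ 2 ≤
      ∑ j, t j ^ 2 * ∑ k', (∑ k, c j k * R k k') ^ 2 :=
    Finset.sum_le_sum fun j _ => mul_le_mul_of_nonneg_left (h4 j) (sq_nonneg _)
  have h9 : ∑ l, t l ^ 2 * ∑ j, (∑ k, ∑ k', c j k * Y k k' * c l k') ^ 2 ≤
      ∑ l, t l ^ 2 * ∑ k, (∑ k', c l k' * Y k k') ^ 2 :=
    Finset.sum_le_sum fun l _ => mul_le_mul_of_nonneg_left (h5 l) (sq_nonneg _)
  have hs2 : 0 < s ^ 2 := by positivity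
  have h10 := mul_le_mul_of_nonneg_left h9 hs2.le
  have h11 : s ^ 2 * ∑ j, ∑ l, gs s (t j ^ 2) (t l ^ 2) *
      (∑ k, ∑ k', c j k * Z k k' * c l k') ^ 2 ≤
      s ^ 2 * ∑ k, ∑ k', gs s (b k ^ 2) (b k' ^ 2) * Z k k' ^ 2 := by
    rw [← h1]
    rw [h2] at h8
    rw [h3] at h10
    linarith
  exact le_of_mul_le_mul_left h11 hs2

/-- Abstract Wigner–Yanase inequality. -/
theorem wy {B : Type} (c : J → κ → ℝ)
    (hc : ∀ j l, ∑ k, c j k * c l k = if j = l then 1 else 0)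
    (t : J → ℝ) (ht : ∀ j, 0 ≤ t j) (b : κ → ℝ) (hb : ∀ k, 0 ≤ b k) (blk : κ → B)
    (hdiag : ∀ k k', blk k = blk k' → ∑ j, t j ^ 2 * (c j k * c j k') =
      if k = k' then b k ^ 2 else 0)
    (Z : κ → κ → ℝ) (hZ : ∀ k k', blk k ≠ blk k' → Z k k' = 0) :
    ∑ j, ∑ l, t j * t l * (∑ k, ∑ k', c j k * Z k k' * c l k') ^ 2 ≤
      ∑ k, ∑ k', b k * b k' * Z k k' ^ 2 := by
  have hI : ∀ x y : ℝ, 0 ≤ x → 0 ≤ y →
      ∫ s in Ioi 0, gs s (x ^ 2) (y ^ 2) = Real.pi / 2 * (x * y) := by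
    intro x y hx hy
    rw [gs_integral (sq_nonneg x) (sq_nonneg y), ← mul_pow, Real.sqrt_sq (mul_nonneg hx hy)]
  have hint : ∀ x y w : ℝ, IntegrableOn (fun s => gs s (x ^ 2) (y ^ 2) * w) (Ioi 0) :=
    fun x y w => (gs_integrable (sq_nonneg x) (sq_nonneg y)).mul_const w
  have h1 : ∫ s in Ioi 0, ∑ j, ∑ l, gs s (t j ^ 2) (t l ^ 2) *
      (∑ k, ∑ k', c j k * Z k k' * c l k') ^ 2 ≤
      ∫ s in Ioi 0, ∑ k, ∑ k', gs s (b k ^ 2) (b k' ^ 2) * Z k k' ^ 2 := by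
    refine setIntegral_mono_on ?_ ?_ measurableSet_Ioi fun s hs =>
      wy_s c hc t b blk hdiag Z hZ hs
    · exact integrable_finset_sum _ fun j _ => integrable_finset_sum _ fun l _ => hint _ _ _
    · exact integrable_finset_sum _ fun j _ => integrable_finset_sum _ fun l _ => hint _ _ _
  rw [integral_finset_sum _ (fun j _ => integrable_finset_sum _ fun l _ => hint _ _ _),
    integral_finset_sum _ (fun j _ => integrable_finset_sum _ fun l _ => hint _ _ _)] at h1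
  have h2 : ∀ j, ∫ s in Ioi 0, ∑ l, gs s (t j ^ 2) (t l ^ 2) *
      (∑ k, ∑ k', c j k * Z k k' * c l k') ^ 2 =
      Real.pi / 2 * ∑ l, t j * t l * (∑ k, ∑ k', c j k * Z k k' * c l k') ^ 2 := by
    intro j
    rw [integral_finset_sum _ (fun l _ => hint _ _ _), Finset.mul_sum]
    refine Finset.sum_congr rfl fun l _ => ?_
    rw [integral_mul_const, hI _ _ (ht j) (ht l)]; ring
  have h3 : ∀ k, ∫ s in Ioi 0, ∑ k', gs s (b k ^ 2) (b k' ^ 2) * Z k k' ^ 2 =
      Real.pi / 2 * ∑ k', b k * b k' * Z k k' ^ 2 := by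
    intro k
    rw [integral_finset_sum _ (fun l _ => hint _ _ _), Finset.mul_sum]
    refine Finset.sum_congr rfl fun l _ => ?_
    rw [integral_mul_const, hI _ _ (hb k) (hb l)]; ring
  simp only [h2, h3, ← Finset.mul_sum] at h1
  exact le_of_mul_le_mul_left h1 (by positivity)

end

end Pool.Agent.H390R2.LP
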